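import Pool.Agent.H91.RD.Targets

/-!
# MP_609556_an: basic lemmas (proved)
-/

open MeasureTheory Set Filter Topology Metric
open Pool.Agent.H29.TF (hk P)

namespace Pool.Agent.H91.RD

variable {N : ℕ}

theorem Lip.lipschitz {f : ℝ → ℝ} {K : ℝ} (h : Lip f K) : LipschitzWith (Real.toNNReal K) f := by
  refine LipschitzWith.of_dist_le_mul fun a b => ?_
  rw [Real.dist_eq, Real.dist_eq, Real.coe_toNNReal _ h.K0.le]
  exact h.lip a b

theorem Lip.continuous {f : ℝ → ℝ} {K : ℝ} (h : Lip f K) : Continuous f := h.lipschitz.continuous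

theorem Lip.abs_le {f : ℝ → ℝ} {K : ℝ} (h : Lip f K) (s : ℝ) : |f s| ≤ K * |s| := by
  have := h.lip s 0
  rwa [h.f0, sub_zero, sub_zero] at this

theorem lift0_pos {U : Set (E N)} {u : ℝ → E N → ℝ} {t : ℝ} (ht : 0 < t) : lift0 U u t = u t := by
  unfold lift0; rw [if_neg (not_le.2 ht)]

theorem lift0_nonpos {U : Set (E N)} {u : ℝ → E N → ℝ} {t : ℝ} (ht : t ≤ 0) :
    lift0 U u t = chi U := by
  unfold lift0; rw [if_pos ht]

theorem chi_mem {U : Set (E N)} {x : E N} (hx : x ∈ U) : chi U x = 1 := by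
  unfold chi; rw [indicator_of_mem hx]

theorem chi_notMem {U : Set (E N)} {x : E N} (hx : x ∉ U) : chi U x = 0 := by
  unfold chi; rw [indicator_of_notMem hx]

theorem chi_nonneg (U : Set (E N)) (x : E N) : 0 ≤ chi U x := by
  by_cases hx : x ∈ U
  · rw [chi_mem hx]; norm_num
  · rw [chi_notMem hx]

theorem chi_le_one (U : Set (E N)) (x : E N) : chi U x ≤ 1 := by
  by_cases hx : x ∈ U
  · rw [chi_mem hx]
  · rw [chi_notMem hx]; norm_num

theorem SolM.nonneg {f : ℝ → ℝ} {U : Set (E N)} {u : ℝ → E N → ℝ} (h : SolM f U u) {t : ℝ}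
    (ht : 0 < t) (x : E N) : 0 ≤ u t x := by
  have := (h.rng t ht.le x).1
  rwa [lift0_pos ht] at this

theorem SolM.le_one {f : ℝ → ℝ} {U : Set (E N)} {u : ℝ → E N → ℝ} (h : SolM f U u) {t : ℝ}
    (ht : 0 < t) (x : E N) : u t x ≤ 1 := by
  have := (h.rng t ht.le x).2
  rwa [lift0_pos ht] at this

theorem mild_const {f : ℝ → ℝ} {v : ℝ} (hv : f v = 0) (a : ℝ) :
    Mild f a (fun (_ : ℝ) (_ : E N) => v) where
  bdd := ⟨|v|, fun _ _ _ => le_rfl⟩
  meas := measurable_const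
  cont := continuousOn_const
  duh := by
    intro s t _ hst x
    rw [Pool.Agent.H29.TF.P_const (by linarith) v x, hv]
    have : ∀ r, P (t - r) (fun _ : E N => (0 : ℝ)) x = 0 := by
      intro r; unfold P; simp
    simp only [this, intervalIntegral.integral_zero, add_zero]

theorem Ent.continuous {f : ℝ → ℝ} {w : ℝ → E N → ℝ} (h : Ent f w) :
    Continuous (fun p : ℝ × E N => w p.1 p.2) := by
  rw [continuous_iff_continuousAt]
  rintro ⟨t, x⟩
  exact ((h.1 (t - 1)).cont).continuousAt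
    ((isOpen_Ioi.prod isOpen_univ).mem_nhds ⟨by simp, mem_univ _⟩)

theorem Ent.continuous_space {f : ℝ → ℝ} {w : ℝ → E N → ℝ} (h : Ent f w) (t : ℝ) :
    Continuous (w t) :=
  h.continuous.comp (by fun_prop : Continuous fun x : E N => (t, x))

theorem LimAt.comp {u : ℝ → E N → ℝ} {tn : ℕ → ℝ} {xn : ℕ → E N} {w : ℝ → E N → ℝ}
    (h : LimAt u tn xn w) {σ : ℕ → ℕ} (hσ : StrictMono σ) : LimAt u (tn ∘ σ) (xn ∘ σ) w := by
  intro R hR
  have := h R hR
  rw [Metric.tendstoUniformlyOn_iff] at this ⊢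
  intro ε hε
  exact hσ.tendsto_atTop.eventually (this ε hε)

theorem LimAt.tendsto {u : ℝ → E N → ℝ} {tn : ℕ → ℝ} {xn : ℕ → E N} {w : ℝ → E N → ℝ}
    (h : LimAt u tn xn w) (t : ℝ) (x : E N) :
    Tendsto (fun n => u (tn n + t) (xn n + x)) atTop (𝓝 (w t x)) := by
  have h1 : (t, x) ∈ Icc (-(|t| + ‖x‖ + 1)) (|t| + ‖x‖ + 1) ×ˢ closedBall (0 : E N) (|t| + ‖x‖ + 1) := by
    have h2 := neg_abs_le t
    have h3 := le_abs_self t
    have h4 := norm_nonneg x
    have h5 := abs_nonneg t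
    refine ⟨⟨by simp only; linarith, by simp only; linarith⟩, ?_⟩
    rw [mem_closedBall_zero_iff]; simp only; linarith
  exact (h (|t| + ‖x‖ + 1) (by positivity)).tendsto_at h1

/-- lower bounds pass to the limit -/
theorem LimAt.le_of_eventually {u : ℝ → E N → ℝ} {tn : ℕ → ℝ} {xn : ℕ → E N} {w : ℝ → E N → ℝ}
    (h : LimAt u tn xn w) {b t : ℝ} {x : E N}
    (hb : ∀ᶠ n in atTop, b ≤ u (tn n + t) (xn n + x)) : b ≤ w t x :=
  ge_of_tendsto (h.tendsto t x) hb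

theorem Geo.sq {c C t3 : ℝ} {U : Set (E N)} {I : ℝ → Set (E N)} (h : Geo c C t3 U I) :
    ∃ s1 ≥ C, ∀ s ≥ s1, 0 ≤ c * s - C * √s := by
  refine ⟨max C ((C / c) ^ 2), le_max_left _ _, fun s hs => ?_⟩
  have h0 := h.c0
  have hC := h.C0
  have hs1 : C ≤ s := (le_max_left _ _).trans hs
  have hs2 : (C / c) ^ 2 ≤ s := (le_max_right _ _).trans hs
  have hs0 : 0 ≤ s := by linarith
  have h3 : C / c ≤ √s := Real.le_sqrt_of_sq_le hs2
  have h4 : C ≤ c * √s := by rwa [div_le_iff₀' h0] at h3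
  have h5 : √s * √s = s := Real.mul_self_sqrt hs0
  nlinarith [Real.sqrt_nonneg s]

theorem ign_center {u : ℝ → E N → ℝ} {η R t : ℝ} (hR : 0 ≤ R) {x : E N} (hx : x ∈ ign u η R t) :
    1 - η ≤ u t x := hx x (mem_closedBall_self hR)

theorem exists_unit (hN : 1 ≤ N) : ∃ e : E N, ‖e‖ = 1 := by
  refine ⟨EuclideanSpace.single ⟨0, by omega⟩ 1, ?_⟩
  simp

end Pool.Agent.H91.RD
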