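import Pool.Agent.H91.RD.Targets2

/-!
# MP_609556_an: targets, third wave (existence of terraces)
-/

open MeasureTheory Set Filter Topology Metric

namespace Pool.Agent.H91.RD

/-! ### Statement layer of the third wave -/

/-- the possible platforms: zeros `b ∈ (0,1)` of `f` with `∫_s^b f > 0` for all `s ∈ [0,b)` -/
def Plat (f : ℝ → ℝ) : Set ℝ :=
  {b | b ∈ Ioo (0 : ℝ) 1 ∧ f b = 0 ∧ ∀ s ∈ Ico (0 : ℝ) b, 0 < ∫ x in s..b, f x}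

/-- nondegeneracy: finitely many possible platforms, all linearly stable, `f'(1) < 0`, and
`∫_s^1 f > 0` for all `s ∈ [0,1)` -/
structure Nondeg (f : ℝ → ℝ) : Prop where
  fin : (Plat f).Finite
  neg : ∀ b ∈ Plat f, derivWithin f (Icc 0 1) b < 0
  one : derivWithin f (Icc 0 1) 1 < 0
  int : ∀ s ∈ Ico (0 : ℝ) 1, 0 < ∫ x in s..1, f x

/-- no resonance: no platform `b` has fronts of the same speed on both sides -/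
def NoRes (f : ℝ → ℝ) : Prop :=
  ∀ (a b d c : ℝ) (φ ψ : ℝ → ℝ), (a = 0 ∨ a ∈ Plat f) → b ∈ Plat f → (d = 1 ∨ d ∈ Plat f) →
    Wave f a b c φ → Wave f b d c ψ → False

/-- not pulled: no front to the state `0` has the speed `2 √f'(0)` -/
def NotPulled (f : ℝ → ℝ) : Prop :=
  ∀ (b c : ℝ) (φ : ℝ → ℝ), (b = 1 ∨ b ∈ Plat f) → Wave f 0 b c φ →
    c ^ 2 ≠ 4 * derivWithin f (Icc 0 1) 0

/-! ### Working definitions -/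

/-- phase plane equation of speed `c` on `[0,b]` (variable `τ = b - v`, `y = p² / 2`) -/
def IsYb (f : ℝ → ℝ) (b c : ℝ) (y : ℝ → ℝ) : Prop :=
  y 0 = 0 ∧ ContinuousOn y (Icc 0 b) ∧
    ∀ τ ∈ Ioo (0 : ℝ) b, HasDerivAt y (f (b - τ) - c * √(2 * max (y τ) 0)) τ

/-- `c` is the extremal speed of the state `b`, with phase plane solution `y` -/
structure Extr (f : ℝ → ℝ) (b c : ℝ) (y : ℝ → ℝ) : Prop where
  cpos : 0 < c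
  isy : IsYb f b c y
  nonneg : ∀ τ ∈ Icc 0 b, 0 ≤ y τ
  near : ∃ δ > 0, δ ≤ b ∧ ∀ τ ∈ Ioo 0 δ, 0 < y τ
  zero : ∃ τ ∈ Ioc 0 b, y τ = 0
  below : ∀ c', 0 ≤ c' → c' < c → ∀ y', IsYb f b c' y' → ∀ τ ∈ Ioc 0 b, 0 < y' τ

/-! ### Targets -/

/-- [YEX] existence for the phase plane equation on `[0,b]` -/
def T_YEX : Prop :=
  ∀ (f : ℝ → ℝ) (K b c : ℝ), Lip f K → 0 < b → b ≤ 1 → f b = 0 → 0 ≤ c → ∃ y, IsYb f b c y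

/-- [YCMP] comparison for the phase plane equation on `[0,b]` -/
def T_YCMP : Prop :=
  ∀ (f : ℝ → ℝ) (K b : ℝ), Lip f K → 0 < b → b ≤ 1 → f b = 0 →
    ∀ (c1 c2 : ℝ) (y1 y2 : ℝ → ℝ), 0 ≤ c1 → c1 ≤ c2 → IsYb f b c1 y1 → IsYb f b c2 y2 →
      ∀ τ ∈ Icc 0 b, y2 τ ≤ y1 τ ∧ y1 τ - y2 τ ≤ (c2 - c1) * √(2 * K)

/-- [EXTR] existence of the extremal speed -/
def T_EXTR : Prop :=
  ∀ (f : ℝ → ℝ) (K b : ℝ), Lip f K → 0 < b → b ≤ 1 → f b = 0 →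
    (∃ b' < b, 0 ≤ b' ∧ ∀ s ∈ Ioo b' b, 0 < f s) → (∀ s ∈ Ico 0 b, 0 < ∫ x in s..b, f x) →
    ∃ c y, Extr f b c y

/-- [FZ] the first zero of the extremal solution -/
def T_FZ : Prop :=
  ∀ (f : ℝ → ℝ) (K b c : ℝ) (y : ℝ → ℝ), Lip f K → 0 < b → b ≤ 1 → f b = 0 → Extr f b c y →
    ∃ β, 0 ≤ β ∧ β < b ∧ (∀ τ ∈ Ioo 0 (b - β), 0 < y τ) ∧ y (b - β) = 0 ∧ f β = 0 ∧
      ∀ s ∈ Ico 0 β, 0 < ∫ x in s..β, f x

/-- [SPD] monotonicity of the extremal speeds -/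
def T_SPD : Prop :=
  ∀ (f : ℝ → ℝ) (K b β c : ℝ) (y : ℝ → ℝ), Lip f K → 0 < β → β < b → b ≤ 1 → f b = 0 →
    f β = 0 → (∃ b' < β, 0 ≤ b' ∧ ∀ s ∈ Ioo b' β, 0 < f s) → Extr f b c y →
    (∀ τ ∈ Ioo 0 (b - β), 0 < y τ) → y (b - β) = 0 → ∀ c1 y1, Extr f β c1 y1 → c ≤ c1

/-- [WAV] the wave of the extremal solution -/
def T_WAV : Prop :=
  ∀ (f : ℝ → ℝ) (K b β c : ℝ) (y : ℝ → ℝ), Lip f K → 0 ≤ β → β < b → b ≤ 1 → f b = 0 →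
    f β = 0 → 0 < c → IsYb f b c y → (∀ τ ∈ Ioo 0 (b - β), 0 < y τ) → y (b - β) = 0 →
    ∃ φ : ℝ → ℝ, Wave f β b c φ ∧ ∀ z, deriv φ z = -√(2 * y (b - φ z))

/-- [FST] fast decay of the leading front -/
def T_FST : Prop :=
  ∀ (f : ℝ → ℝ) (K b c k η0 : ℝ) (y φ : ℝ → ℝ), Lip f K → 0 < b → b ≤ 1 → f b = 0 →
    Extr f b c y → 0 ≤ k → 4 * k < c ^ 2 → 0 < η0 → (∀ s ∈ Icc 0 η0, f s ≤ k * s) →
    Wave f 0 b c φ → (∀ z, deriv φ z = -√(2 * y (b - φ z))) →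
    ∃ lam C, c / 2 < lam ∧ ∀ z, φ z ≤ C * Real.exp (-lam * z)

/-- [F0P] speeds of fronts to `0` are at least `2 √f'(0)` -/
def T_F0P : Prop :=
  ∀ (f φ : ℝ → ℝ) (b c : ℝ), Reaction f → 0 < b → b ≤ 1 → Wave f 0 b c φ →
    4 * derivWithin f (Icc 0 1) 0 ≤ c ^ 2

/-- [TERR] existence of terraces -/
def T_TERR : Prop :=
  ∀ f : ℝ → ℝ, Reaction f → Nondeg f → NoRes f → NotPulled f →
    ∃ (J : ℕ) (β c : ℕ → ℝ) (φ : ℕ → ℝ → ℝ), Terrace f J β c φ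

end Pool.Agent.H91.RD
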