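import Pool.Agent.H91.RD.Targets

/-!
# MP_609556_an: targets, second wave (general pushed fronts and terraces)
-/

open MeasureTheory Set Filter Topology Metric
open Pool.Agent.H29.TF (hk P)

namespace Pool.Agent.H91.RD

/-- [F0] a front with fast decay forces `f'(0) < c²/4` -/
def T_F0 : Prop :=
  ∀ (f φ : ℝ → ℝ) (c lam : ℝ), Reaction f → Front f c lam φ →
    derivWithin f (Icc 0 1) 0 < c ^ 2 / 4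

/-- [PROF] a profile which travels slower than the front and is a strict supersolution below `θ` -/
def T_PROF : Prop :=
  ∀ (f φ : ℝ → ℝ) (c lam K k μ η0 θ : ℝ), Hyp f c lam φ K k μ η0 θ →
    ∃ (c' κ C Λ Z2 : ℝ) (χ : ℝ → ℝ), 0 < c' ∧ c' < c ∧ 0 < κ ∧ 1 ≤ C ∧ 0 < Λ ∧ 0 ≤ Z2 ∧
      ContDiff ℝ 2 χ ∧ χ 0 = θ ∧ ∀ Z ≥ 0, deriv χ Z < 0 ∧
        κ * |deriv χ Z| ≤ -(c' * deriv χ Z) - deriv (deriv χ) Z - f (χ Z) ∧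
        |deriv (deriv χ) Z| ≤ C * |deriv χ Z| ∧ (Z2 ≤ Z → 0 ≤ deriv (deriv χ) Z) ∧
        C⁻¹ * Real.exp (-(Λ * Z)) ≤ χ Z ∧ χ Z ≤ C * Real.exp (-(c / 2 * Z))

/-- [GT] Gaussian tails at fixed times -/
def T_GT : Prop :=
  ∀ (N : ℕ) (f : ℝ → ℝ) (K : ℝ) (U : Set (E N)) (u : ℝ → E N → ℝ), Lip f K → SolM f U u →
    U.Nonempty → ∀ T > 0, ∀ Λ > 0, ∃ A > 0, ∀ y, u T y ≤ A * Real.exp (-(Λ * infDist y U))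

/-- [TBG] exponential decay away from a family of expanding sets -/
def T_TBG : Prop :=
  ∀ (N : ℕ) (f F φ : ℝ → ℝ) (c lam K k μ η0 θ : ℝ) (U : Set (E N)) (v : ℝ → E N → ℝ)
    (I : ℝ → Set (E N)), 1 ≤ N → Hyp f c lam φ K k μ η0 θ →
    (∀ a b, |F a - F b| ≤ K * |a - b|) → (∀ s ∈ Icc (0 : ℝ) 1, F s = f s) → U.Nonempty →
    Cls F v → (∀ T > 0, ∀ Λ > 0, ∃ A > 0, ∀ y, v T y ≤ A * Real.exp (-(Λ * infDist y U))) →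
    ∀ C t3 L0 S T, 1 ≤ C → 0 < t3 → Expd c C t3 I → (∀ y ∈ U, ∃ p ∈ I t3, dist y p ≤ C) →
      0 < L0 → 0 < S → t3 ≤ T → (∀ t ≥ T, ∀ y, L0 ≤ infDist y (I (t + S)) → v t y ≤ θ) →
      ∃ CT T', 1 ≤ CT ∧ T ≤ T' ∧ Tl c CT T' I v

/-! ### Terraces -/

/-- [P1X] expansion of ignited balls (for supersolutions where `u < 1`) -/
def T_P1X : Prop :=
  ∀ (N : ℕ) (f φ : ℝ → ℝ) (c lam K k μ η0 θ : ℝ), 1 ≤ N → Hyp f c lam φ K k μ η0 θ →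
    ∀ δ > 0, ∃ η R0 K3 s0 : ℝ, 0 < η ∧ η ≤ δ ∧ 1 ≤ R0 ∧ 1 ≤ K3 ∧ 1 ≤ s0 ∧
      ∀ u : ℝ → E N → ℝ, Super1 f u → ∀ t0 > 0, ∀ x0,
        (∀ y ∈ closedBall x0 R0, 1 - η ≤ u t0 y) →
        ∀ s ≥ s0, ∀ y, dist x0 y ≤ c * s - K3 * √s → 1 - η ≤ u (t0 + s) y

/-- [RX] relaxation near a stable state in a moving ball (`c2` of any sign) -/
def T_RX : Prop :=
  ∀ (N : ℕ) (μ c2 η0 : ℝ), 1 ≤ N → 0 < μ → 0 < η0 → ∃ ν > 0,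
    ∀ (v : ℝ → E N → ℝ) (x0 : E N) (R2 σ M : ℝ), 0 < σ →
      (∀ t ∈ Icc 0 σ, ∀ x, |v t x| ≤ M) →
      ContinuousOn (fun p : ℝ × E N => v p.1 p.2) (Icc 0 σ ×ˢ univ) →
      (∀ t ∈ Ioc 0 σ, ContDiff ℝ 2 (v t)) →
      (∀ t ∈ Ioc 0 σ, ∀ x, DifferentiableAt ℝ (fun s => v s x) t) →
      (∀ t ∈ Ioc 0 σ, ∀ x, 0 < v t x → v t x ≤ η0 →
        deriv (fun s => v s x) t ≤ Laplacian.laplacian (v t) x - μ * v t x) →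
      (∀ x, dist x x0 ≤ R2 → v 0 x ≤ 0) →
      (∀ t ∈ Icc 0 σ, ∀ x, dist x x0 ≤ R2 - c2 * t → v t x ≤ η0) →
      ∀ t ∈ Icc 0 σ, ∀ x, dist x x0 ≤ R2 - c2 * t →
        v t x ≤ η0 * Real.exp (ν * (1 + dist x x0 - (R2 - c2 * t)))

/-- [ST0] short times: propagation of positivity into a ball -/
def T_ST0 : Prop :=
  ∀ (N : ℕ) (K : ℝ), 1 ≤ N → 0 < K → ∃ A > 0,
    ∀ (v : ℝ → E N → ℝ) (x0 : E N) (R σ : ℝ), 0 < σ →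
      (∀ t ∈ Icc 0 σ, ∀ x, v t x ≤ 1) → (∃ M, ∀ t ∈ Icc 0 σ, ∀ x, |v t x| ≤ M) →
      ContinuousOn (fun p : ℝ × E N => v p.1 p.2) (Icc 0 σ ×ˢ univ) →
      (∀ t ∈ Ioc 0 σ, ContDiff ℝ 2 (v t)) →
      (∀ t ∈ Ioc 0 σ, ∀ x, DifferentiableAt ℝ (fun s => v s x) t) →
      (∀ t ∈ Ioc 0 σ, ∀ x, 0 < v t x →
        deriv (fun s => v s x) t ≤ Laplacian.laplacian (v t) x + K * v t x) →
      (∀ x, dist x x0 ≤ R → v 0 x ≤ 0) →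
      ∀ t ∈ Icc 0 σ, ∀ x, v t x ≤ Real.exp (1 + dist x x0 - R + A * t)

/-- [P1SB] sub-barrier over a stable base -/
def T_P1SB : Prop :=
  ∀ (N : ℕ) (f F φ : ℝ → ℝ) (c lam K k μ η0 θ β C : ℝ), 1 ≤ N → Hyp f c lam φ K k μ η0 θ →
    FrP c lam β C φ → (∀ a b, |F a - F b| ≤ K * |a - b|) → (∀ s ∈ Icc (0 : ℝ) 1, F s = f s) →
    (∀ s t, -η0 ≤ s → s ≤ t → t ≤ η0 → F t - F s ≤ -(μ * (t - s))) →
    ∀ δ c' ν, 0 < δ → c < c' → 0 < ν → ∃ (η ε0 R0 K3 s0 : ℝ) (S : ℝ → ℝ → ℝ),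
      0 < η ∧ η ≤ δ ∧ 0 < ε0 ∧ ε0 ≤ δ ∧ 1 ≤ R0 ∧ 1 ≤ K3 ∧ 1 ≤ s0 ∧
      ContinuousOn (fun p : ℝ × ℝ => S p.1 p.2) (Ici 0 ×ˢ univ) ∧
      (∀ τ ≥ 0, ContDiff ℝ 2 (S τ)) ∧ (∀ τ ≥ 0, ∀ r, DifferentiableAt ℝ (fun s => S s r) τ) ∧
      (∀ τ ≥ 0, ∀ r, -η0 < S τ r ∧ S τ r < 1) ∧
      (∀ τ ≥ 0, ∀ r ≥ 1, deriv (fun s => S s r) τ ≤ radL N 1 (S τ) r + F (S τ r)) ∧
      (∀ r, S 0 r ≤ 1 - η) ∧
      (∀ τ ≥ 0, ∀ r, R0 + c' * τ ≤ r → S τ r ≤ -(ε0 * Real.exp (-(ν * τ)))) ∧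
      (∀ s ≥ s0, ∀ r, r ≤ 1 + c * s - K3 * √s → 1 - η ≤ S s r)

/-- [P1S] expansion over a stable base -/
def T_P1S : Prop :=
  ∀ (N : ℕ) (f F φ : ℝ → ℝ) (c lam K k μ η0 θ : ℝ), 1 ≤ N → Hyp f c lam φ K k μ η0 θ →
    (∀ a b, |F a - F b| ≤ K * |a - b|) → (∀ s ∈ Icc (0 : ℝ) 1, F s = f s) →
    (∀ s t, -η0 ≤ s → s ≤ t → t ≤ η0 → F t - F s ≤ -(μ * (t - s))) →
    ∀ δ c' ν, 0 < δ → c < c' → 0 < ν → ∃ η ε0 R0 K3 s0 : ℝ,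
      0 < η ∧ η ≤ δ ∧ 0 < ε0 ∧ ε0 ≤ δ ∧ 1 ≤ R0 ∧ 1 ≤ K3 ∧ 1 ≤ s0 ∧
      ∀ v : ℝ → E N → ℝ, Cls F v → ∀ t0 > 0, ∀ x0,
        (∀ y ∈ closedBall x0 R0, 1 - η ≤ v t0 y) →
        (∀ τ ≥ 0, ∀ y, dist y x0 ≤ R0 + c' * τ → -(ε0 * Real.exp (-(ν * τ))) ≤ v (t0 + τ) y) →
        ∀ s ≥ s0, ∀ y, dist x0 y ≤ c * s - K3 * √s → 1 - η ≤ v (t0 + s) y

/-- [P2G] the super-barrier, general version -/
def T_P2G : Prop :=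
  ∀ (N : ℕ) (f F φ : ℝ → ℝ) (c lam K k μ η0 θ β C m1 : ℝ), 1 ≤ N →
    Hyp f c lam φ K k μ η0 θ → FrP c lam β C φ → (∀ a b, |F a - F b| ≤ K * |a - b|) →
    (∀ s ∈ Icc (0 : ℝ) 1, F s = f s) → 1 ≤ m1 →
    (∀ s t, 1 - η0 ≤ s → s ≤ t → t ≤ m1 → F t - F s ≤ -(μ * (t - s))) →
    ∀ CT η' D, 1 ≤ CT → 0 < η' → 1 ≤ D → ∃ a K5, 1 ≤ a ∧ 1 ≤ K5 ∧
      ∀ σ > 0, ∀ R, c * σ + K5 * (1 + √σ) ≤ R → ∃ (S : ℝ → ℝ → ℝ) (q R3 : ℝ),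
      0 < q ∧ q ≤ 1 ∧ c * σ ≤ R3 ∧ R3 + D * (1 + Real.log (1 / q)) ≤ R ∧
      ContinuousOn (fun p : ℝ × ℝ => S p.1 p.2) (Icc 0 σ ×ˢ univ) ∧
      (∀ τ ∈ Icc 0 σ, ContDiff ℝ 2 (S τ)) ∧
      (∀ τ ∈ Icc 0 σ, ∀ r, DifferentiableAt ℝ (fun s => S s r) τ) ∧
      (∀ τ ∈ Icc 0 σ, ∀ r, 0 ≤ S τ r) ∧
      (∀ τ ∈ Icc 0 σ, ∀ r ≥ a, S τ r < m1 →
        radL N a (S τ) r + F (S τ r) ≤ deriv (fun s => S s r) τ) ∧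
      (∀ r, min 1 (CT * Real.exp (-(c / 2 * (R - r)))) ≤ S 0 r) ∧ S σ a ≤ η' ∧
      (∀ τ ∈ Icc 0 σ, ∀ r, R3 - c * τ ≤ r → 1 + q ≤ S τ r)

/-- [RSC] rescaling of classical solutions -/
def T_RSC : Prop :=
  ∀ (N : ℕ) (f : ℝ → ℝ) (a b : ℝ) (u : ℝ → E N → ℝ), a < b → Cls f u →
    Cls (resc f a b) (fun t x => (u t x - a) / (b - a))

/-- [RSE] rescaling of entire solutions -/
def T_RSE : Prop :=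
  ∀ (N : ℕ) (f : ℝ → ℝ) (K a b : ℝ) (w : ℝ → E N → ℝ), Lip f K → f a = 0 → f b = 0 → a < b →
    Ent f w → (∀ t x, a ≤ w t x ∧ w t x ≤ b) →
    Ent (rcut f a b) (fun t x => (w t x - a) / (b - a))

/-- [LOW0] expansion property of the lowest level -/
def T_LOW0 : Prop :=
  ∀ (N : ℕ) (f φ : ℝ → ℝ) (b c K k μ η0 θ lam : ℝ), 1 ≤ N → Lev f 0 b c φ K k μ η0 θ lam →
    LowP N f b c

/-- [LOWS] expansion property, induction step -/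
def T_LOWS : Prop :=
  ∀ (N : ℕ) (f φ : ℝ → ℝ) (a b c cp K k μ η0 θ lam : ℝ), 1 ≤ N →
    Lev f a b c φ K k μ η0 θ lam → 0 < a → c < cp → LowP N f a cp → LowP N f b c

/-- [UPT] retreat property of the highest level -/
def T_UPT : Prop :=
  ∀ (N : ℕ) (f φ : ℝ → ℝ) (a c K k μ η0 θ lam : ℝ), 1 ≤ N → Lev f a 1 c φ K k μ η0 θ lam →
    UpP N f a c

/-- [UPS] retreat property, induction step -/
def T_UPS : Prop :=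
  ∀ (N : ℕ) (f φ : ℝ → ℝ) (a b c cn K k μ η0 θ lam : ℝ), 1 ≤ N →
    Lev f a b c φ K k μ η0 θ lam → b < 1 → 0 < cn → cn < c → UpP N f b cn → UpP N f a c

/-- [ODEG] local ignition of the level `b` -/
def T_ODEG : Prop :=
  ∀ (N : ℕ) (f : ℝ → ℝ) (K θ' b η R : ℝ), Lip f K → 0 < θ' → θ' < b → b ≤ 1 →
    (∀ s, θ' ≤ s → s < b → 0 < f s) → 0 < η → 0 < R → ∃ L S : ℝ, 0 < L ∧ 0 < S ∧
      ∀ (a : ℝ) (w : ℝ → E N → ℝ), Mild f a w → Rng a w → ∀ t > a, ∀ x0,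
        (∀ y ∈ closedBall x0 L, θ' ≤ w t y) → ∀ y ∈ closedBall x0 R, b - η ≤ w (t + S) y

/-- [NPG] far from the ignited set of level `b` the solution is below `θ` -/
def T_NPG : Prop :=
  ∀ (N : ℕ) (f : ℝ → ℝ) (K b c θ θ' : ℝ) (U : Set (E N)) (u : ℝ → E N → ℝ), 1 ≤ N → Lip f K →
    0 < c → 0 < θ' → θ' < θ → θ < b → b ≤ 1 → (∀ s, θ' ≤ s → s < b → 0 < f s) →
    U.Nonempty → CondC U → SolM f U u →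
    ∀ η R0 C t3, 0 < η → η < b → 0 < R0 → 1 ≤ C → 0 < t3 → Expd c C t3 (ig u (b - η) R0) →
      (∀ y ∈ U, ∃ p ∈ ig u (b - η) R0 t3, dist y p ≤ C) →
      ∃ L0 S T, 0 < L0 ∧ 0 < S ∧ t3 ≤ T ∧
        ∀ t ≥ T, ∀ y, L0 ≤ infDist y (ig u (b - η) R0 (t + S)) → u t y ≤ θ

/-- [FACTG] the geometric facts for one level -/
def T_FACTG : Prop :=
  ∀ (N : ℕ) (f φ : ℝ → ℝ) (a b c K k μ η0 θ lam ρ : ℝ) (U : Set (E N)) (u : ℝ → E N → ℝ), 1 ≤ N →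
    Lev f a b c φ K k μ η0 θ lam → LowP N f b c → UpP N f a c → 0 < ρ → Invades N f ρ →
    hausdorffEDist U (core U ρ) ≠ ⊤ → CondC U → U.Nonempty → SolM f U u →
    ∀ δ > 0, ∃ η R0 C t3, 0 < η ∧ η ≤ δ ∧ 0 < R0 ∧ Geo c C t3 U (ig u (b - η) R0) ∧
      Tl c C t3 (ig u (b - η) R0) (fun t x => (u t x - a) / (b - a))

/-- [ONEG] an entire solution which stays close to a stable state from below is above it -/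
def T_ONEG : Prop :=
  ∀ (N : ℕ) (f : ℝ → ℝ) (K μ η0 b : ℝ) (w : ℝ → E N → ℝ), Lip f K → 0 < μ → 0 < η0 → f b = 0 →
    (∀ s t, b - η0 ≤ s → s ≤ t → t ≤ b → f t - f s ≤ -(μ * (t - s))) → Ent f w →
    ∀ tz, (∀ t ≤ tz, ∀ x, b - η0 ≤ w t x) → ∀ t x, b ≤ w t x

/-- [ZEROG] limits far ahead of the interface of a level are below its base -/
def T_ZEROG : Prop :=
  ∀ (N : ℕ) (f : ℝ → ℝ) (K c C t3 a b : ℝ) (U : Set (E N)) (I : ℝ → Set (E N))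
    (u w : ℝ → E N → ℝ) (tn : ℕ → ℝ) (xn : ℕ → E N), Lip f K → a < b → f a = 0 → Geo c C t3 U I →
    Tl c C t3 I (fun t x => (u t x - a) / (b - a)) → Tendsto tn atTop atTop → Ent f w →
    LimAt u tn xn w → Tendsto (fun n => infDist (xn n) (I (tn n))) atTop atTop → ∀ t x, w t x ≤ a

/-- [FRD] exponential decay of a front towards a stable state -/
def T_FRD : Prop :=
  ∀ (f φ : ℝ → ℝ) (a b c μ η0 : ℝ), Wave f a b c φ → 0 < μ → 0 < η0 →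
    (∀ s ∈ Icc a (a + η0), f s ≤ -(μ * (s - a))) →
    ∃ C, ∀ z, φ z - a ≤ C * Real.exp (-(c * z))

/-- [LEVW] the constants of one level -/
def T_LEVW : Prop :=
  ∀ (f φ : ℝ → ℝ) (a b c : ℝ), Reaction f → 0 ≤ a → a < b → b ≤ 1 → f a = 0 → f b = 0 →
    Wave f a b c φ → derivWithin f (Icc 0 1) b < 0 →
    (derivWithin f (Icc 0 1) a < 0 ∨
      (a = 0 ∧ ∃ lam C, c / 2 < lam ∧ ∀ z, φ z ≤ C * Real.exp (-lam * z))) →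
    ∃ (ψ : ℝ → ℝ) (K k μ η0 θ lam : ℝ), Lev f a b c ψ K k μ η0 θ lam

/-- [LOWK] expansion property of a lowest level of KPP type -/
def T_LOWK : Prop :=
  ∀ (N : ℕ) (f : ℝ → ℝ) (K m b c : ℝ), 1 ≤ N → Lip f K → 0 < m →
    (∀ ε > 0, ∃ s1 > 0, ∀ s ∈ Icc 0 s1, (m - ε) * s ≤ f s) → 0 < b → b ≤ 1 →
    (∀ s ∈ Ioo (0 : ℝ) b, 0 < f s) → 0 < c → c ^ 2 < 4 * m → LowP N f b c

/-- [LIMJ] limits are monotone, terraces -/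
def T_LIMJ : Prop :=
  ∀ (N : ℕ) (f : ℝ → ℝ) (J : ℕ) (β c : ℕ → ℝ) (φ : ℕ → ℝ → ℝ) (ρ : ℝ) (U : Set (E N))
    (u : ℝ → E N → ℝ), 1 ≤ N → Reaction f → Terrace f J β c φ → 0 < ρ → Invades N f ρ →
    hausdorffEDist U (core U ρ) ≠ ⊤ → CondC U → U.Nonempty → SolM f U u → LimC f u

/-- [LIMK] limits are monotone, terraces with a lowest level of KPP type -/
def T_LIMK : Prop :=
  ∀ (N : ℕ) (f : ℝ → ℝ) (J : ℕ) (β c : ℕ → ℝ) (φ : ℕ → ℝ → ℝ) (ρ : ℝ) (U : Set (E N))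
    (u : ℝ → E N → ℝ), 1 ≤ N → Reaction f → TerraceK f J β c φ → 0 < ρ → Invades N f ρ →
    hausdorffEDist U (core U ρ) ≠ ⊤ → CondC U → U.Nonempty → SolM f U u → LimC f u

end Pool.Agent.H91.RD
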