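import Pool.Agent.H82.RD.Targets
import Pool.Agent.H82.RD.Basic
import Pool.Agent.H99.RD.Count

/-!
# The induction for the number of minimal primes
-/

set_option autoImplicit false

open MvPolynomial Pool.Agent.H82.RD

namespace Pool.Agent.H91.RD

/-- the filtration by `VV (A S) (B S)` -/
theorem filt {k : Type} [Field k] {u A B : ℕ} (hA : 1 ≤ A) (hB : 1 ≤ B) :
    Pool.Agent.H99.RD.Filt (fun S : ℕ => VV k u (A * S) (B * S)) where
  fin := fun S => VV_finite _ _
  mono := fun _ _ h => VV_mono (Nat.mul_le_mul_left _ h) (Nat.mul_le_mul_left _ h)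
  mul := by
    intro m n a b ha hb
    have h := VV_mul ha hb
    rw [← Nat.mul_add, ← Nat.mul_add] at h
    exact h
  ex := fun a => exists_mem_VV hA hB a

theorem pf_ZCI (hZSM : T_ZSM) (hZPI : T_ZPI) : T_ZCI := by
  intro k _ u A B e K F PP hA hB hF hPP hmin j q hq hdq PP' hPP' hle
  have hF' : ∀ f ∈ F, f ∈ (fun S : ℕ => VV k u (A * S) (B * S)) 1 := by
    intro f hf
    have := hF f hf
    simpa using this
  obtain ⟨c, hc⟩ := Pool.Agent.H99.RD.count (filt hA hB) dm
    (fun q p hq hp h => hZSM k u q p hq hp h)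
    (fun q p f hq hf hp => hZPI k u q p f hq hf hp) F hF' PP e
    (fun p hp => ⟨(hPP p hp).1, Ideal.span_le.2 (hPP p hp).2.1, (hPP p hp).2.2.1⟩)
    (fun p hp p' hp' hFp' hle' => hmin p hp p' hp' (Ideal.span_le.1 hFp') hle')
    (K : ℝ) (Nat.cast_nonneg K) (by
      intro p hp S
      rw [div_le_iff₀ (by positivity)]
      have h := (hPP p hp).2.2.2 S
      have h2 : ((K * S ^ e : ℕ) : ℝ) ≤ ((e.factorial * hf A B p S : ℕ) : ℝ) := by
        exact_mod_cast h
      push_cast at h2
      rw [mul_comm (Pool.Agent.H99.RD.hil _ p S : ℝ)]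
      exact h2) j q hq hdq PP' hPP' hle
  refine ⟨c, fun S => ?_⟩
  have h := hc S
  rw [div_le_iff₀ (by positivity)] at h
  have h2 : ((PP'.card * K * S ^ (e + j) : ℕ) : ℝ) ≤
      (((e + j).factorial * hf A B q (S + c) : ℕ) : ℝ) := by
    push_cast
    rw [mul_comm ((e + j).factorial : ℝ)]
    exact h
  exact_mod_cast h2

end Pool.Agent.H91.RD
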