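import Pool.Agent.H82.RD.Targets
import Pool.Agent.H82.RD.Basic

/-!
# The number of minimal primes
-/

set_option autoImplicit false

open MvPolynomial Pool.Agent.H82.RD

namespace Pool.Agent.H91.RD

theorem pf_ZCT (hZCI : T_ZCI) (hZSM : T_ZSM) (hZD0 : T_ZD0) (hZRT : T_ZRT) : T_ZCT := by
  intro k _ u A B e K F PP hA hB hF hPP hmin
  rcases PP.eq_empty_or_nonempty with h0 | ⟨p, hp⟩
  · rw [h0]
    simp
  have hbot : (⊥ : Ideal (PR k u)).IsPrime := Ideal.isPrime_bot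
  have hd : e ≤ u + 1 := by
    rw [← hZD0 k u, ← (hPP p hp).2.2.1]
    rcases eq_or_lt_of_le (bot_le : (⊥ : Ideal (PR k u)) ≤ p) with h | h
    · rw [h]
    · exact (hZSM k u ⊥ p hbot (hPP p hp).1 h).le
  obtain ⟨c, hc⟩ := hZCI k u A B e K F PP hA hB hF hPP hmin (u + 1 - e) ⊥ hbot
    (by rw [hZD0 k u]; omega) PP (Finset.Subset.refl _) (fun p _ => bot_le)
  have he : e + (u + 1 - e) = u + 1 := by omega
  rw [he] at hc
  exact hZRT k u A B (PP.card * K) c hA hB hc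

end Pool.Agent.H91.RD
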