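import Pool.Agent.H91.RD.Basic
import Pool.Agent.H91.RD.Targets2

/-!
# MP_609556_an: assembly
-/

open MeasureTheory Set Filter Topology Metric

namespace Pool.Agent.H91.RD

/-- bistable and ignition nonlinearities: `f ≤ 0` on `[0,θ]`, `f > 0` on `(θ,1)`, `∫ f > 0`,
`f'(1) < 0` -/
def ClassBI (f : ℝ → ℝ) : Prop :=
  ∃ θ : ℝ, 0 < θ ∧ θ < 1 ∧ (∀ s ∈ Icc 0 θ, f s ≤ 0) ∧ (∀ s ∈ Ioo θ 1, 0 < f s) ∧
    0 < ∫ s in (0 : ℝ)..1, f s ∧ derivWithin f (Icc 0 1) 1 < 0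

/-- nonlinearities with a pushed front: there is a decreasing front of speed `c` which decays
faster than `e^{-cz/2}`, and `f'(1) < 0` -/
def ClassFront (f : ℝ → ℝ) : Prop :=
  (∃ (c lam : ℝ) (φ : ℝ → ℝ), Front f c lam φ) ∧ derivWithin f (Icc 0 1) 1 < 0

/-- positive nonlinearities with `f' ≤ f'(0)`, `f'(0) > 0` -/
def ClassPull (f : ℝ → ℝ) : Prop :=
  (∀ s ∈ Ioo (0 : ℝ) 1, 0 < f s) ∧ 0 < derivWithin f (Icc 0 1) 0 ∧
    ∀ s ∈ Icc (0 : ℝ) 1, derivWithin f (Icc 0 1) s ≤ derivWithin f (Icc 0 1) 0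

theorem concl_of_hyp (hLIM : T_LIM) (hFIN : T_FIN) {N : ℕ} {f φ : ℝ → ℝ}
    {c lam K k μ η0 θ : ℝ} (hN : 1 ≤ N) (hf : Reaction f) (hyp : Hyp f c lam φ K k μ η0 θ) :
    Conclusion N f :=
  hFIN N f hN hf fun ρ hρ hinv U u hU hhaus hC hsol =>
    hLIM N f φ c lam K k μ η0 θ ρ U u hN hyp hρ hinv hhaus hC hU hsol

theorem final_front (hLIM : T_LIM) (hFIN : T_FIN) (hF0 : T_F0) (hHYPF : T_HYPF) {N : ℕ}
    {f : ℝ → ℝ} (hN : 1 ≤ N) (hf : Reaction f) (h : ClassFront f) : Conclusion N f := by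
  obtain ⟨⟨c, lam, φ, hfr⟩, h1⟩ := h
  obtain ⟨lam', K, k, μ, η0, θ', hyp⟩ := hHYPF f φ c lam hf h1 (hF0 f φ c lam hf hfr) hfr
  exact concl_of_hyp hLIM hFIN hN hf hyp

theorem front_of_BI (hLIP : T_LIP) (hBS5 : T_BS5) {f : ℝ → ℝ} (hf : Reaction f) (h : ClassBI f) :
    ClassFront f := by
  obtain ⟨θ, hθ0, hθ1, hlow, hhigh, hint, h1⟩ := h
  obtain ⟨K, hK⟩ := hLIP f hf
  obtain ⟨c, φ, hfr⟩ := hBS5 f K θ hK hθ0 hθ1 hlow hhigh hint
  exact ⟨⟨c, 3 / 4 * c, φ, hfr⟩, h1⟩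

theorem final_BI (hLIM : T_LIM) (hFIN : T_FIN) (hF0 : T_F0) (hHYPF : T_HYPF) (hLIP : T_LIP)
    (hBS5 : T_BS5) {N : ℕ} {f : ℝ → ℝ} (hN : 1 ≤ N) (hf : Reaction f) (h : ClassBI f) :
    Conclusion N f :=
  final_front hLIM hFIN hF0 hHYPF hN hf (front_of_BI hLIP hBS5 hf h)

theorem final_pull (hLIMB : T_LIMB) (hFIN : T_FIN) (hLIP : T_LIP) (hCLB : T_CLB)
    {N : ℕ} {f : ℝ → ℝ} (hN : 1 ≤ N) (hf : Reaction f) (h : ClassPull f) : Conclusion N f := by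
  obtain ⟨hpos, hm, hle⟩ := h
  obtain ⟨K, hK⟩ := hLIP f hf
  obtain ⟨h1, h2⟩ := hCLB f hf hpos hle
  exact hFIN N f hN hf fun ρ hρ _ U u hU hhaus hC hsol =>
    hLIMB N f K (derivWithin f (Icc 0 1) 0) ρ U u hN hK hpos hm h1 h2 hρ hhaus hC hU hsol

/-- a front with `f'(1) < 0` is a terrace with one level -/
theorem terrace_of_front {f : ℝ → ℝ} (hf : Reaction f) (h : ClassFront f) :
    ∃ (J : ℕ) (β c : ℕ → ℝ) (φ : ℕ → ℝ → ℝ), Terrace f J β c φ := by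
  obtain ⟨⟨c, lam, φ, hfr⟩, h1⟩ := h
  refine ⟨1, fun j => (j : ℝ), fun _ => c, fun _ => φ, ?_⟩
  refine ⟨by norm_num, by norm_num, by norm_num, fun j hj => by push_cast; linarith, ?_, ?_, ?_, ?_,
    ?_⟩
  · intro j hj
    interval_cases j
    · simpa using hf.zero
    · simpa using hf.one
  · intro j hj
    interval_cases j
    refine ⟨hfr.cpos, hfr.c2, hfr.eqn, hfr.dec, ?_, ?_⟩
    · simpa using hfr.left
    · simpa using hfr.right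
  · intro j hj
    omega
  · intro j hj
    interval_cases j
    simpa using h1
  · right
    obtain ⟨C, hC⟩ := hfr.decay
    exact ⟨lam, C, hfr.fast, hC⟩

/-- `f > 0`, `f' ≤ f'(0)` is the case of one level of a terrace of KPP type -/
theorem terraceK_of_pull {f : ℝ → ℝ} (hf : Reaction f) (h : ClassPull f) :
    ∃ (J : ℕ) (β c : ℕ → ℝ) (φ : ℕ → ℝ → ℝ), TerraceK f J β c φ := by
  obtain ⟨hpos, hm, hle⟩ := h
  refine ⟨1, fun j => (j : ℝ), fun _ => 0, fun _ _ => 0, ?_⟩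
  refine ⟨by norm_num, by norm_num, by norm_num, fun j hj => by push_cast; linarith, ?_, ?_, hm,
    hle, ?_, ?_, ?_, ?_⟩
  · intro j hj
    interval_cases j
    · simpa using hf.zero
    · simpa using hf.one
  · intro s hs
    exact hpos s (by simpa using hs)
  · intro j h0 h1
    omega
  · intro h1
    omega
  · intro j h0 h1
    omega
  · intro j h0 h1
    omega

theorem final_terrace (hLIMJ : T_LIMJ) (hFIN : T_FIN) {N : ℕ} {f : ℝ → ℝ} (hN : 1 ≤ N)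
    (hf : Reaction f) {J : ℕ} {β c : ℕ → ℝ} {φ : ℕ → ℝ → ℝ} (h : Terrace f J β c φ) :
    Conclusion N f :=
  hFIN N f hN hf fun ρ hρ hinv U u hU hhaus hC hsol =>
    hLIMJ N f J β c φ ρ U u hN hf h hρ hinv hhaus hC hU hsol

theorem final_terraceK (hLIMK : T_LIMK) (hFIN : T_FIN) {N : ℕ} {f : ℝ → ℝ} (hN : 1 ≤ N)
    (hf : Reaction f) {J : ℕ} {β c : ℕ → ℝ} {φ : ℕ → ℝ → ℝ} (h : TerraceK f J β c φ) :
    Conclusion N f :=
  hFIN N f hN hf fun ρ hρ hinv U u hU hhaus hC hsol =>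
    hLIMK N f J β c φ ρ U u hN hf h hρ hinv hhaus hC hU hsol

/-! ### The old module `TB` from `TBG` and `GT` -/

theorem cls_of_solM {N : ℕ} {f : ℝ → ℝ} {U : Set (E N)} {u : ℝ → E N → ℝ} (h : SolM f U u) :
    Cls f u :=
  ⟨h.sol.bdd, h.sol.c2, h.sol.dt, h.sol.cont, h.sol.eqn⟩

theorem tb_of_tbg (hTBG : T_TBG) (hGT : T_GT) : T_TB := by
  intro N f φ c lam K k μ η0 θ U u hN hyp hU hsol η R0 C t3 L0 S T _ _ _ hC ht3 hexp hup hL0 hS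
    hT hlow
  exact hTBG N f f φ c lam K k μ η0 θ U u (ign u η R0) hN hyp hyp.toLip.lip (fun _ _ => rfl) hU
    (cls_of_solM hsol) (fun T hT Λ hΛ => hGT N f K U u hyp.toLip hsol hU T hT Λ hΛ)
    C t3 L0 S T hC ht3 hexp hup hL0 hS hT hlow

end Pool.Agent.H91.RD
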