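import Pool.Agent.H91.RD.Basic

/-!
# MP_609556_an: module FIN
-/

open MeasureTheory Set Filter Topology Metric
open Pool.Agent.H29.TF (hk P)

namespace Pool.Agent.H91.RD

theorem ae_tendsto_of_eLpNorm {N : ℕ} {g : ℕ → E N → ℝ} {ψ : E N → ℝ}
    (h : ∀ R > 0, Tendsto (fun n => eLpNorm (fun y => g n y - ψ y) ⊤
      (volume.restrict (closedBall (0 : E N) R))) atTop (𝓝 0)) :
    ∀ᵐ y, Tendsto (fun n => g n y) atTop (𝓝 (ψ y)) := by
  have h1 : ∀ k : ℕ, ∀ᵐ y, y ∈ closedBall (0 : E N) (k + 1) →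
      Tendsto (fun n => g n y) atTop (𝓝 (ψ y)) := by
    intro k
    rw [← ae_restrict_iff' measurableSet_closedBall]
    have h2 : ∀ᵐ y ∂(volume.restrict (closedBall (0 : E N) (k + 1))), ∀ n,
        ‖g n y - ψ y‖ₑ ≤ eLpNorm (fun y => g n y - ψ y) ⊤
          (volume.restrict (closedBall (0 : E N) (k + 1))) := by
      rw [ae_all_iff]
      intro n
      rw [eLpNorm_exponent_top]
      exact ae_le_eLpNormEssSup
    filter_upwards [h2] with y hy
    have h3 : Tendsto (fun n => ‖g n y - ψ y‖ₑ) atTop (𝓝 0) :=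
      tendsto_of_tendsto_of_tendsto_of_le_of_le tendsto_const_nhds (h (k + 1) (by positivity))
        (fun _ => bot_le) hy
    rw [tendsto_iff_edist_tendsto_0]
    refine h3.congr fun n => ?_
    rw [edist_eq_enorm_sub]
  rw [← ae_all_iff] at h1
  filter_upwards [h1] with y hy
  refine hy ⌈‖y‖⌉₊ ?_
  rw [mem_closedBall_zero_iff]
  linarith [Nat.le_ceil ‖y‖]

theorem fin (hLIP : T_LIP) (hSOLM : T_SOLM) (hCMP : T_CMP) (hST : T_ST) (hC2 : T_C2) : T_FIN := by
  intro N f hN hf hlimc ρ hρ hinv U hUm hhaus hC u hu ψ hψ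
  obtain ⟨K, hK⟩ := hLIP f hf
  have hsol := hSOLM N f K U u hK hUm hu
  obtain ⟨e0, he0⟩ := exists_unit hN
  obtain ⟨hψm, tn, xn, htn, hconv⟩ := hψ
  have hpt := ae_tendsto_of_eLpNorm (g := fun n y => u (tn n) (xn n + y)) hconv
  rcases U.eq_empty_or_nonempty with hU | hU
  · have hu0 : ∀ t > 0, ∀ x, u t x = 0 := by
      intro t ht x
      have h1 := hCMP N f K K 0 0 t (lift0 U u) (fun _ _ => 0) hK le_rfl ht hsol.mild
        (mild_const hK.f0 0) (fun r _ y hr => by
          have := hK.lip (lift0 U u r y) 0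
          
          rw [abs_of_pos (by linarith : (0:ℝ) < lift0 U u r y - 0)] at this
          exact (le_abs_self _).trans this) x
      have h2 : (fun y : E N => max (lift0 U u 0 y - 0) 0) = fun _ => 0 := by
        ext y
        rw [lift0_nonpos le_rfl, chi_notMem (by rw [hU]; exact notMem_empty y)]
        simp
      have h3 : P (t - 0) (fun _ : E N => (0 : ℝ)) x = 0 := by unfold P; simp
      rw [h2, h3, lift0_pos ht, mul_zero, sub_zero] at h1
      exact le_antisymm h1 (hsol.nonneg ht x)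
    refine ⟨e0, fun _ => 0, he0, contDiff_const, ?_, Or.inl ⟨0, fun _ => rfl⟩⟩
    filter_upwards [hpt] with y hy
    have h4 : Tendsto (fun n => u (tn n) (xn n + y)) atTop (𝓝 0) := by
      refine tendsto_const_nhds.congr' ?_
      filter_upwards [htn.eventually_gt_atTop 0] with n hn
      rw [hu0 _ hn]
    exact tendsto_nhds_unique hy h4
  · obtain ⟨σ, w, e, hσ, hw, he, hlim, hmono⟩ := hlimc ρ hρ hinv U u hU hhaus hC hsol tn xn htn
    obtain ⟨hpl, hst⟩ := hST N f K w e hK hw he hmono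
    refine ⟨e, fun z => w 0 (z • e), he, hC2 N f K w e hK hw he, ?_, ?_⟩
    · filter_upwards [hpt] with y hy
      have h5 := hlim.tendsto 0 y
      simp only [add_zero, Function.comp_apply] at h5
      have h6 := tendsto_nhds_unique (hy.comp hσ.tendsto_atTop) h5
      rw [h6]
      exact hpl 0 y
    · rcases hst with ⟨a, ha⟩ | hst
      · exact Or.inl ⟨a, ha⟩
      · exact Or.inr (Or.inr hst)

end Pool.Agent.H91.RD
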