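import Pool.Agent.H91.RD.LIMJ

/-!
# MP_609556_an: module LIMK (limits are monotone, terraces with a lowest level of KPP type)
-/

open MeasureTheory Set Filter Topology Metric
open Pool.Agent.H29.TF (hk P)

namespace Pool.Agent.H91.RD

/-- points at distance at most `s t` from `U` are above `b` (in the limit) -/
theorem inside_low (hIGN : T_IGN) {N : ℕ} {f : ℝ → ℝ} {K ρ b s s' : ℝ}
    {U : Set (E N)} {u : ℝ → E N → ℝ} (hf : Lip f K) (hρ : 0 < ρ) (hinv : Invades N f ρ)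
    (hH : hausdorffEDist U (core U ρ) ≠ ⊤) (hne : U.Nonempty) (hS : SolM f U u)
    (hb1 : b ≤ 1) (hss : s < s')
    (hlow : LowP N f b s') :
    ∀ δ > 0, ∃ T > 0, ∀ t ≥ T, ∀ x, infDist x U ≤ s * t → b - δ ≤ u t x := by
  intro δ hδ
  obtain ⟨η, R0, K3, s0, hη, hηδ, hR0, hK3, hs01, hexp⟩ := hlow δ hδ
  obtain ⟨⟨D, hD, hcore⟩, hign⟩ := hIGN N f K ρ U u hf hρ hinv hH hS
  obtain ⟨t1, ht1, hc1⟩ := hign η hη R0 (by linarith)
  -- for large `r`, `s (t1 + r) + 1 + D ≤ s' r - K3 √r`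
  have hlim : Tendsto (fun r : ℝ => (s' - s) * r - K3 * √r) atTop atTop := by
    have h2 : Tendsto (fun r : ℝ => √r * ((s' - s) * √r - K3)) atTop atTop := by
      apply Tendsto.atTop_mul_atTop₀ Real.tendsto_sqrt_atTop
      apply tendsto_atTop_add_const_right
      exact Real.tendsto_sqrt_atTop.const_mul_atTop (by linarith)
    refine h2.congr' ?_
    filter_upwards [eventually_ge_atTop 0] with r hr
    have := Real.mul_self_sqrt hr
    nlinarith
  obtain ⟨r1, hr1⟩ := eventually_atTop.1 (hlim.eventually_ge_atTop (s * t1 + 1 + D))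
  refine ⟨t1 + max (max r1 s0) 1, by positivity, ?_⟩
  intro t ht x hx
  have hr : max (max r1 s0) 1 ≤ t - t1 := by linarith
  have hr1' : r1 ≤ t - t1 := (le_max_left _ _).trans ((le_max_left _ _).trans hr)
  have hs0' : s0 ≤ t - t1 := (le_max_right _ _).trans ((le_max_left _ _).trans hr)
  obtain ⟨y, hy, hxy⟩ := (infDist_lt_iff hne).1 (lt_of_le_of_lt hx (lt_add_one (s * t)))
  obtain ⟨p, hp, hyp⟩ := hcore y hy
  have hp2 : ∀ z ∈ closedBall p R0, b - η ≤ u t1 z := by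
    intro z hz
    have := hc1 t1 le_rfl hp z hz
    linarith
  have hcls : Cls f u := ⟨hS.sol.bdd, hS.sol.c2, hS.sol.dt, hS.sol.cont, hS.sol.eqn⟩
  have h3 := hexp u hcls (fun t ht x => ⟨hS.nonneg ht x, hS.le_one ht x⟩) t1 ht1 p hp2
    (t - t1) hs0' x (by
      have h4 := hr1 (t - t1) hr1'
      have h5 : dist p x ≤ dist x y + dist y p := by
        rw [dist_comm p x]; exact dist_triangle _ _ _
      nlinarith)
  rw [show t1 + (t - t1) = t by ring] at h3
  linarith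

theorem ge_of_inside_low {N : ℕ} {b s κ : ℝ} {U : Set (E N)} {u : ℝ → E N → ℝ}
    (hκ : 0 < κ)
    (hlow : ∀ δ > 0, ∃ T > 0, ∀ t ≥ T, ∀ x, infDist x U ≤ s * t → b - δ ≤ u t x)
    {tn : ℕ → ℝ} {xn : ℕ → E N} {w : ℝ → E N → ℝ} (htn : Tendsto tn atTop atTop)
    (hlim : LimAt u tn xn w)
    (hin : ∀ᶠ n in atTop, infDist (xn n) U ≤ (s - κ) * tn n) : ∀ t x, b ≤ w t x := by
  intro t x
  apply le_of_forall_pos_le_add
  intro δ hδ
  obtain ⟨T, hT, hTt⟩ := hlow δ hδ
  have h1 : b - δ ≤ w t x := by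
    apply hlim.le_of_eventually
    filter_upwards [htn.eventually_ge_atTop (T - t), htn.eventually_ge_atTop 0,
      htn.eventually_ge_atTop ((‖x‖ - s * t) / κ), hin] with n h1 h2 h3 h4
    apply hTt _ (by linarith)
    rw [div_le_iff₀ hκ] at h3
    have h5 : infDist (xn n + x) U ≤ infDist (xn n) U + ‖x‖ := by
      have := infDist_le_infDist_add_dist (s := U) (x := xn n + x) (y := xn n)
      rwa [dist_eq_norm, add_sub_cancel_left] at this
    nlinarith
  linarith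

/-- points far from `U`: monotonicity in a half space of directions -/
theorem mono_of_far (hCONE : T_CONE) (hE0 : T_E0) {N : ℕ} (hN : 1 ≤ N) {f : ℝ → ℝ} {K m : ℝ}
    {U : Set (E N)} {u : ℝ → E N → ℝ} (hf : Lip f K) (hm : 0 < m)
    (hup : ∀ p q, 0 ≤ p → p ≤ q → q ≤ 1 → f q - f p ≤ m * (q - p)) (hC : CondC U)
    (hS : SolM f U u) {tn : ℕ → ℝ} {xn : ℕ → E N} {w : ℝ → E N → ℝ}
    (htn : Tendsto tn atTop atTop) (hw : Ent f w) (hlim : LimAt u tn xn w)
    (hfar : ∀ κ > 0, ∀ᶠ n in atTop, (2 * √m - κ) * tn n < infDist (xn n) U) :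
    ∃ e : E N, ‖e‖ = 1 ∧ Mono w e := by
  have hs0 : 0 < √m := Real.sqrt_pos.2 hm
  have hs2 : √m * √m = m := Real.mul_self_sqrt hm.le
  obtain ⟨e0, he0⟩ := exists_unit hN
  have hdir : ∀ n, ∃ e : E N, ‖e‖ = 1 ∧ (0 < infDist (xn n) U → ∃ ξ, Dir U (xn n) ξ e) := by
    intro n
    by_cases hn : 0 < infDist (xn n) U
    · obtain ⟨ξ, e, hd⟩ := hE0 N U _ hn
      exact ⟨e, hd.unit, fun _ => ⟨ξ, hd⟩⟩
    · exact ⟨e0, he0, fun h => absurd h hn⟩
  choose en hen1 hen2 using hdir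
  obtain ⟨e, he, φ, hφ, hlimE⟩ := (isCompact_sphere (0 : E N) 1).tendsto_subseq
    (x := en) (fun n => by rw [mem_sphere_zero_iff_norm]; exact hen1 n)
  rw [mem_sphere_zero_iff_norm] at he
  have hlim2 := hlim.comp hφ
  have htn2 : Tendsto (tn ∘ φ) atTop atTop := htn.comp hφ.tendsto_atTop
  have hfar2 : ∀ κ > 0, ∀ᶠ n in atTop,
      (2 * √m - κ) * (tn ∘ φ) n < infDist ((xn ∘ φ) n) U :=
    fun κ hκ => hφ.tendsto_atTop.eventually (hfar κ hκ)
  -- monotonicity in the open half space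
  have hmono : ∀ h : E N, 0 < inner ℝ h e → ∀ t x, w t (x + h) ≤ w t x := by
    intro h hh t x
    have hh0 : 0 < ‖h‖ := by
      rw [norm_pos_iff]
      rintro rfl
      rw [inner_zero_left] at hh
      exact lt_irrefl _ hh
    have hle : inner ℝ h e ≤ ‖h‖ := by
      have := real_inner_le_norm h e
      rwa [he, mul_one] at this
    set r := inner ℝ h e / ‖h‖ with hr
    have hr0 : 0 < r := div_pos hh hh0
    have hr1 : r ≤ 1 := (div_le_one hh0).2 hle
    set s0 := √(1 - r ^ 2 / 2) with hs0def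
    have hr2 : r ^ 2 ≤ 1 := by nlinarith
    have hs0sq : s0 ^ 2 = 1 - r ^ 2 / 2 := Real.sq_sqrt (by linarith)
    have hs0pos : 0 < s0 := Real.sqrt_pos.2 (by linarith)
    have hs01 : s0 < 1 := by
      have : 0 < r ^ 2 := by positivity
      nlinarith
    have hsq : √(1 - s0 ^ 2) < r := by
      rw [hs0sq, Real.sqrt_lt' hr0]
      nlinarith
    have hsq2 : √(1 - s0 ^ 2) * ‖h‖ < inner ℝ h e := by
      have : r * ‖h‖ = inner ℝ h e := by rw [hr]; field_simp
      rw [← this]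
      exact mul_lt_mul_of_pos_right hsq hh0
    set b := √m * (1 + s0) with hb
    have hb0 : 0 < b := by positivity
    have hb1 : b < 2 * √m := by nlinarith
    have hb2 : 4 * m * s0 ^ 2 < b ^ 2 := by
      have h1 : b ^ 2 = m * (1 + s0) ^ 2 := by rw [hb, mul_pow, sq (√m), hs2]
      have h2 : 4 * s0 ^ 2 < (1 + s0) ^ 2 := by nlinarith
      rw [h1]
      nlinarith
    apply le_of_forall_pos_le_add
    intro δ hδ
    obtain ⟨T, hT, hTt⟩ := hCONE N f K m U u hf hm hup hC hS b s0 (‖x‖ + ‖h‖ + 1) δ hb0 hs0pos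
      hs01 hb2 (by positivity) hδ
    have hinner : Tendsto (fun n => inner ℝ h ((en ∘ φ) n)) atTop (𝓝 (inner ℝ h e)) :=
      (tendsto_const_nhds).inner hlimE
    have hev : ∀ᶠ n in atTop, u ((tn ∘ φ) n + t) ((xn ∘ φ) n + (x + h)) ≤
        u ((tn ∘ φ) n + t) ((xn ∘ φ) n + x) + δ := by
      have hκ : 0 < (2 * √m - b) / 2 := by linarith
      filter_upwards [htn2.eventually_ge_atTop (T - t), htn2.eventually_ge_atTop 0,
        hfar2 _ hκ, hfar2 _ hs0, hinner.eventually (lt_mem_nhds hsq2),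
        htn2.eventually_ge_atTop (b * t / ((2 * √m - b) / 2))] with n h1 h2 h3 h4 h5 h6
      rw [div_le_iff₀ hκ] at h6
      have h7 : 0 < infDist ((xn ∘ φ) n) U := by
        have : 0 ≤ (2 * √m - √m) * (tn ∘ φ) n := mul_nonneg (by linarith) h2
        linarith
      obtain ⟨ξ, hd⟩ := hen2 (φ n) h7
      have := hTt _ (by linarith : T ≤ (tn ∘ φ) n + t) _ ξ _ hd (by
          have h8 : infDist (xn (φ n)) U = infDist ((xn ∘ φ) n) U := rfl
          rw [h8]
          nlinarith)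
        ((xn ∘ φ) n + x) h (by
          have h8 : (xn ∘ φ) n + x - xn (φ n) = x := by
            show xn (φ n) + x - xn (φ n) = x
            abel
          rw [h8]
          linarith [norm_nonneg h])
        (by linarith [norm_nonneg x]) h5.le
      rwa [add_assoc] at this
    exact le_of_tendsto_of_tendsto (hlim2.tendsto t (x + h))
      ((hlim2.tendsto t x).add_const δ) hev
  refine ⟨e, he, ?_⟩
  intro t x y hy
  have hcont := hw.continuous_space t
  have htend : Tendsto (fun ε : ℝ => w t (x + (y - ε • e))) (𝓝[>] 0) (𝓝 (w t (x + y))) := by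
    have h1 : Continuous fun ε : ℝ => w t (x + (y - ε • e)) := by
      exact hcont.comp (by fun_prop)
    have h2 := h1.tendsto 0
    simp only [zero_smul, sub_zero] at h2
    exact h2.mono_left nhdsWithin_le_nhds
  apply ge_of_tendsto htend
  filter_upwards [self_mem_nhdsWithin] with ε hε
  have hε' : (0 : ℝ) < ε := hε
  have := hmono (-(y - ε • e)) (by
    rw [inner_neg_left, inner_sub_left, inner_smul_left, real_inner_self_eq_norm_sq, he]
    simp only [conj_trivial, one_pow, mul_one]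
    linarith) t (x + (y - ε • e))
  rwa [add_neg_cancel_right] at this

theorem TerraceK.lev (hLEVW : T_LEVW) {f : ℝ → ℝ} {J : ℕ} {β c : ℕ → ℝ} {φ : ℕ → ℝ → ℝ}
    (hf : Reaction f) (h : TerraceK f J β c φ) {j : ℕ} (h0 : 0 < j) (hj : j < J) :
    ∃ (ψ : ℝ → ℝ) (K k μ η0 θ lam : ℝ), Lev f (β j) (β (j + 1)) (c j) ψ K k μ η0 θ lam :=
  hLEVW f (φ j) (β j) (β (j + 1)) (c j) hf (chain_nonneg h.lt h.b0 hj.le) (h.lt j hj)
    (chain_le_one h.lt h.bJ (by omega)) (h.zer j hj.le) (h.zer (j + 1) (by omega))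
    (h.wave j h0 hj) (h.stable j h0 hj).2 (Or.inl (h.stable j h0 hj).1)

theorem clb_low {f : ℝ → ℝ} (h : Reaction f) :
    ∀ ε > 0, ∃ s1 > 0, ∀ s ∈ Icc 0 s1, (derivWithin f (Icc 0 1) 0 - ε) * s ≤ f s := by
  have hd : DifferentiableOn ℝ f (Icc 0 1) := h.smooth.differentiableOn one_ne_zero
  intro ε hε
  have h0 : HasDerivWithinAt f (derivWithin f (Icc 0 1) 0) (Icc 0 1) 0 :=
    (hd 0 ⟨le_rfl, zero_le_one⟩).hasDerivWithinAt
  have h1 := (hasDerivWithinAt_iff_isLittleO.1 h0).def hε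
  rw [eventually_nhdsWithin_iff, Metric.eventually_nhds_iff] at h1
  obtain ⟨δ, hδ, h1⟩ := h1
  refine ⟨min (δ / 2) 1, lt_min (half_pos hδ) one_pos, ?_⟩
  intro s hs
  have hs1 : s ≤ δ / 2 := hs.2.trans (min_le_left _ _)
  have hs2 : s ≤ 1 := hs.2.trans (min_le_right _ _)
  have := h1 (y := s) (by rw [Real.dist_eq, sub_zero, abs_of_nonneg hs.1]; linarith)
    ⟨hs.1, hs2⟩
  rw [h.zero, sub_zero, sub_zero, Real.norm_eq_abs, Real.norm_eq_abs, abs_of_nonneg hs.1,
    smul_eq_mul] at this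
  have := (abs_le.1 this).1
  nlinarith

theorem clb_up {f : ℝ → ℝ} (h : Reaction f) {m : ℝ}
    (hg : ∀ s ∈ Icc (0 : ℝ) 1, derivWithin f (Icc 0 1) s ≤ m) :
    ∀ p q, 0 ≤ p → p ≤ q → q ≤ 1 → f q - f p ≤ m * (q - p) := by
  have hd : DifferentiableOn ℝ f (Icc 0 1) := h.smooth.differentiableOn one_ne_zero
  have hn : ∀ x ∈ interior (Icc (0 : ℝ) 1), Icc (0 : ℝ) 1 ∈ 𝓝 x := by
    intro x hx
    rw [interior_Icc] at hx
    exact Icc_mem_nhds hx.1 hx.2
  intro p q h1 h2 h3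
  refine (convex_Icc (0 : ℝ) 1).image_sub_le_mul_sub_of_deriv_le hd.continuousOn
    ?_ ?_ p ⟨h1, h2.trans h3⟩ q ⟨h1.trans h2, h3⟩ h2
  · intro x hx
    exact ((hd x (interior_subset hx)).differentiableAt (hn x hx)).differentiableWithinAt
  · intro x hx
    rw [← derivWithin_of_mem_nhds (hn x hx)]
    exact hg x (interior_subset hx)

theorem TerraceK.low0 (hLOWK : T_LOWK) (hLIP : T_LIP) {N : ℕ} (hN : 1 ≤ N) {f : ℝ → ℝ} {J : ℕ} {β c : ℕ → ℝ}
    {φ : ℕ → ℝ → ℝ} (hf : Reaction f) (h : TerraceK f J β c φ) {s : ℝ} (hs : 0 < s)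
    (hs2 : s ^ 2 < 4 * derivWithin f (Icc 0 1) 0) : LowP N f (β 1) s := by
  obtain ⟨K, hK⟩ := hLIP f hf
  have hJ := h.J0
  exact hLOWK N f K (derivWithin f (Icc 0 1) 0) (β 1) s hN hK h.m0 (clb_low hf)
    (chain_pos h.lt h.b0 (by omega) one_pos) (chain_le_one h.lt h.bJ (by omega)) h.pos hs hs2

theorem TerraceK.low (T : LevT) (hLOWK : T_LOWK) (hLIP : T_LIP) {N : ℕ} (hN : 1 ≤ N)
    {f : ℝ → ℝ} {J : ℕ} {β c : ℕ → ℝ} {φ : ℕ → ℝ → ℝ} (hf : Reaction f)
    (h : TerraceK f J β c φ) : ∀ j, j + 1 < J → LowP N f (β (j + 1 + 1)) (c (j + 1)) := by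
  intro j
  induction j with
  | zero =>
    intro hj
    obtain ⟨ψ, K, k, μ, η0, θ, lam, lev⟩ := h.lev T.LEVW hf (by omega) hj
    have hc1 := (h.wave (0 + 1) (by omega) hj).cpos
    have hc2 := h.speed0 (by omega)
    set m := derivWithin f (Icc 0 1) 0 with hm
    have hm0 : 0 < m := h.m0
    have hs0 : 0 < √m := Real.sqrt_pos.2 hm0
    have hs2 : √m * √m = m := Real.mul_self_sqrt hm0.le
    have hlt : c 1 < 2 * √m := by
      have h1 : 0 < c 1 := hc1
      nlinarith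
    have hc1' : 0 < c 1 := hc1
    refine T.LOWS N f ψ (β (0 + 1)) (β (0 + 1 + 1)) (c (0 + 1)) ((c 1 + 2 * √m) / 2)
      K k μ η0 θ lam hN lev (chain_pos h.lt h.b0 hj.le (by omega)) ?_
      (h.low0 hLOWK hLIP hN hf (by linarith) ?_)
    · show c 1 < _
      linarith
    · have : (c 1 + 2 * √m) / 2 < 2 * √m := by linarith
      nlinarith
  | succ j ih =>
    intro hj
    obtain ⟨ψ, K, k, μ, η0, θ, lam, lev⟩ := h.lev T.LEVW hf (by omega) hj
    exact T.LOWS N f ψ (β (j + 1 + 1)) (β (j + 1 + 1 + 1)) (c (j + 1 + 1)) (c (j + 1))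
      K k μ η0 θ lam hN lev (chain_pos h.lt h.b0 hj.le (by omega))
      (h.speed (j + 1) (by omega) (by omega)) (ih (by omega))

theorem TerraceK.up (T : LevT) {N : ℕ} (hN : 1 ≤ N) {f : ℝ → ℝ} {J : ℕ} {β c : ℕ → ℝ}
    {φ : ℕ → ℝ → ℝ} (hf : Reaction f) (h : TerraceK f J β c φ) :
    ∀ i, i + 1 < J → UpP N f (β (J - 1 - i)) (c (J - 1 - i)) := by
  intro i
  induction i with
  | zero =>
    intro hj
    obtain ⟨ψ, K, k, μ, η0, θ, lam, lev⟩ :=
      h.lev T.LEVW hf (show 0 < J - 1 - 0 by omega) (show J - 1 - 0 < J by omega)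
    have h1 : β (J - 1 - 0 + 1) = 1 := by
      rw [show J - 1 - 0 + 1 = J by omega, h.bJ]
    rw [h1] at lev
    exact T.UPT N f ψ _ _ K k μ η0 θ lam hN lev
  | succ i ih =>
    intro hj
    have hj' : J - 1 - (i + 1) < J := by omega
    obtain ⟨ψ, K, k, μ, η0, θ, lam, lev⟩ :=
      h.lev T.LEVW hf (show 0 < J - 1 - (i + 1) by omega) hj'
    have h2 := ih (by omega)
    have h3 : J - 1 - (i + 1) + 1 = J - 1 - i := by omega
    rw [h3] at lev
    refine T.UPS N f ψ (β (J - 1 - (i + 1))) (β (J - 1 - i)) (c (J - 1 - (i + 1)))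
      (c (J - 1 - i)) K k μ η0 θ lam hN lev (chain_lt_one h.lt h.bJ (by omega))
      (h.wave _ (by omega) (by omega)).cpos ?_ h2
    have := h.speed (J - 1 - (i + 1)) (by omega) (by omega)
    rwa [h3] at this

theorem TerraceK.up' (T : LevT) {N : ℕ} (hN : 1 ≤ N) {f : ℝ → ℝ} {J : ℕ} {β c : ℕ → ℝ}
    {φ : ℕ → ℝ → ℝ} (hf : Reaction f) (h : TerraceK f J β c φ) {j : ℕ} (h0 : 0 < j)
    (hj : j < J) : UpP N f (β j) (c j) := by
  have := h.up T hN hf (J - 1 - j) (by omega)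
  rwa [show J - 1 - (J - 1 - j) = j by omega] at this

theorem limk (T : LevT) (S : StepT) (hEXT : T_EXT) (hLOWK : T_LOWK) (hLIP : T_LIP)
    (hIGN : T_IGN) (hCONE : T_CONE) : T_LIMK := by
  intro N f J β c φ ρ U u hN hf h hρ hinv hhaus hCC hUne hsol tn xn htn
  obtain ⟨e0, he0⟩ := exists_unit hN
  obtain ⟨K0, hK0⟩ := hLIP f hf
  obtain ⟨σ, w, hσ, hw, hlim⟩ := hEXT N f K0 U u hK0 hsol tn xn htn
  have htn' : Tendsto (tn ∘ σ) atTop atTop := htn.comp hσ.tendsto_atTop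
  have hJ := h.J0
  set m := derivWithin f (Icc 0 1) 0 with hm
  have hm0 : 0 < m := h.m0
  have hs0 : 0 < √m := Real.sqrt_pos.2 hm0
  have hs2 : √m * √m = m := Real.mul_self_sqrt hm0.le
  have hβ1 : β 1 ≤ 1 := chain_le_one h.lt h.bJ (by omega)
  -- points well inside the region invaded by the level `β 1`
  have hin1 : ∀ κ > 0, (∃ᶠ n in atTop, infDist ((xn ∘ σ) n) U ≤ (2 * √m - κ) * (tn ∘ σ) n) →
      ∀ t x, β 1 ≤ w t x := by
    intro κ hκ hfreq
    obtain ⟨τ, hτ, hτ2⟩ := extraction_of_frequently_atTop hfreq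
    set κ' := min κ (√m) with hκ'
    have hκ'0 : 0 < κ' := lt_min hκ hs0
    have hκ'1 : κ' ≤ κ := min_le_left _ _
    have hκ'2 : κ' ≤ √m := min_le_right _ _
    have htn2 : Tendsto ((tn ∘ σ) ∘ τ) atTop atTop := htn'.comp hτ.tendsto_atTop
    have hl := h.low0 hLOWK hLIP hN hf (s := 2 * √m - κ' / 4) (by linarith) (by nlinarith)
    have h1 := inside_low hIGN (s := 2 * √m - κ' / 2) hK0 hρ hinv hhaus hUne hsol hβ1
      (by linarith) hl
    refine ge_of_inside_low (κ := κ' / 2) (by linarith) h1 htn2 (hlim.comp hτ) ?_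
    filter_upwards [htn2.eventually_ge_atTop 0] with n hn
    refine (hτ2 n).trans ?_
    exact mul_le_mul_of_nonneg_right (by linarith) hn
  -- the data of all levels `j ≥ 1`
  have hdata : ∀ j, 0 < j → j < J → ∃ (ψ : ℝ → ℝ) (K k μ η0 θ lam η R0 C t3 : ℝ),
      Lev f (β j) (β (j + 1)) (c j) ψ K k μ η0 θ lam ∧ η ≤ (β (j + 1) - β j) * η0 / 4 ∧ 0 < R0 ∧
      Geo (c j) C t3 U (ig u (β (j + 1) - η) R0) ∧
      Tl (c j) C t3 (ig u (β (j + 1) - η) R0)
        (fun t x => (u t x - β j) / (β (j + 1) - β j)) := by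
    intro j h0 hj
    obtain ⟨ψ, K, k, μ, η0, θ, lam, lev⟩ := h.lev T.LEVW hf h0 hj
    have hΔ : 0 < β (j + 1) - β j := sub_pos.2 lev.ab
    obtain ⟨i, rfl⟩ : ∃ i, j = i + 1 := ⟨j - 1, by omega⟩
    obtain ⟨η, R0, C, t3, hη, hηδ, hR0, geo, tl⟩ :=
      T.FACTG N f ψ (β (i + 1)) (β (i + 1 + 1)) (c (i + 1)) K k μ η0 θ lam ρ U u hN lev
        (h.low T hLOWK hLIP hN hf i hj)
        (h.up' T hN hf h0 hj) hρ hinv hhaus hCC hUne hsol ((β (i + 1 + 1) - β (i + 1)) * η0 / 4)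
        (by have := mul_pos hΔ lev.hyp.eta0; linarith)
    exact ⟨ψ, K, k, μ, η0, θ, lam, η, R0, C, t3, lev, hηδ, hR0, geo, tl⟩
  have key : ∀ j, j + 1 ≤ J → (∀ t x, w t x ≤ β (j + 1)) → ∃ e : E N, ‖e‖ = 1 ∧ Mono w e := by
    intro j
    induction j with
    | zero =>
      intro _ hwb
      by_cases hcase : ∃ κ > 0, ∃ᶠ n in atTop,
          infDist ((xn ∘ σ) n) U ≤ (2 * √m - κ) * (tn ∘ σ) n
      · obtain ⟨κ, hκ, hfreq⟩ := hcase
        have h1 := hin1 κ hκ hfreq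
        exact ⟨e0, he0, mono_const (a := β 1) (fun t x => le_antisymm (hwb t x) (h1 t x)) e0⟩
      · push Not at hcase
        have hfar : ∀ κ > 0, ∀ᶠ n in atTop,
            (2 * √m - κ) * (tn ∘ σ) n < infDist ((xn ∘ σ) n) U := by
          intro κ hκ
          have := hcase κ hκ
          simpa [not_frequently, not_le] using this
        exact mono_of_far hCONE S.E0 hN hK0 hm0 (clb_up hf h.kpp) hCC hsol htn' hw hlim hfar
    | succ j ih =>
      intro hj hwb
      obtain ⟨ψ, K, k, μ, η0, θ, lam, η, R0, C, t3, lev, hηδ, hR0, geo, tl⟩ :=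
        hdata (j + 1) (by omega) (by omega)
      have hbase : (∀ κ > 0, ∀ᶠ n in atTop,
          infDist ((xn ∘ σ) n) U ≤ (c (j + 1) + κ) * (tn ∘ σ) n) →
          ∀ t x, β (j + 1) ≤ w t x := by
        intro hin
        rcases Nat.eq_zero_or_pos j with h0 | h0
        · subst h0
          have hc1 : 0 < c 1 := (h.wave (0 + 1) (by omega) (by omega)).cpos
          have hc2 := h.speed0 (by omega)
          have hlt : c 1 < 2 * √m := by nlinarith
          refine hin1 ((2 * √m - c 1) / 2) (by linarith) ?_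
          have := hin ((2 * √m - c 1) / 2) (by linarith)
          apply Eventually.frequently
          filter_upwards [this] with n hn
          calc infDist ((xn ∘ σ) n) U ≤ (c (0 + 1) + (2 * √m - c 1) / 2) * (tn ∘ σ) n := hn
            _ = (2 * √m - (2 * √m - c 1) / 2) * (tn ∘ σ) n := by
              rw [show c (0 + 1) = c 1 from rfl]; ring
        · obtain ⟨i, rfl⟩ : ∃ i, j = i + 1 := ⟨j - 1, by omega⟩
          obtain ⟨ψ', K', k', μ', η0', θ', lam', η', R0', C', t3', lev', hηδ', hR0', geo', _⟩ :=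
            hdata (i + 1) (by omega) (by omega)
          have hsp := h.speed (i + 1) (by omega) (by omega)
          refine ge_of_inside S.INT S.ONEG lev' hηδ' hR0' geo' htn' hw hlim
            (κ := (c (i + 1) - c (i + 1 + 1)) / 2) (by linarith) ?_
          have := hin ((c (i + 1) - c (i + 1 + 1)) / 2) (by linarith)
          filter_upwards [this] with n hn
          calc infDist ((xn ∘ σ) n) U
              ≤ (c (i + 1 + 1) + (c (i + 1) - c (i + 1 + 1)) / 2) * (tn ∘ σ) n := hn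
            _ = (c (i + 1) - (c (i + 1) - c (i + 1 + 1)) / 2) * (tn ∘ σ) n := by ring
      rcases level_step S hN hCC lev hηδ hR0 geo tl htn' hw hlim hwb hbase with h1 | h1
      · exact ih (by omega) h1
      · exact h1
  obtain ⟨i, rfl⟩ : ∃ i, J = i + 1 := ⟨J - 1, by omega⟩
  obtain ⟨e, he, hmono⟩ := key i le_rfl (fun t x => by rw [h.bJ]; exact (hw.2 t x).2)
  exact ⟨σ, w, e, hσ, hw, he, hlim, hmono⟩

end Pool.Agent.H91.RD
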