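import Pool.Agent.H91.RD.Basic
import Pool.Agent.H91.RD.FIN
import Pool.Agent.H91.RD.LIMK

/-!
# MP_609556_an: asymptotic monotonicity in a cone, for every nonlinearity
-/

open MeasureTheory Set Filter Topology Metric

namespace Pool.Agent.H91.RD

/-- limits along points at distance at least `b t` from `U` are nonincreasing in a cone of
directions -/
theorem cone_lim (hCONE : T_CONE) (hE0 : T_E0) (hEXT : T_EXT) (hSOLM : T_SOLM) {N : ℕ}
    (hN : 1 ≤ N) {f : ℝ → ℝ} {K m b : ℝ} {U : Set (E N)} {u : ℝ → E N → ℝ} (hK : Lip f K)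
    (hm : 0 < m) (hup : ∀ p q, 0 ≤ p → p ≤ q → q ≤ 1 → f q - f p ≤ m * (q - p))
    (hUm : MeasurableSet U) (hC : CondC U) (hu : IsSol f U u) (hb : 0 < b)
    {tn : ℕ → ℝ} {xn : ℕ → E N} (htn : Tendsto tn atTop atTop)
    (hfar : ∀ᶠ n in atTop, b * tn n ≤ infDist (xn n) U) {ψ : E N → ℝ}
    (hconv : ∀ R > 0, Tendsto (fun n => eLpNorm (fun y => u (tn n) (xn n + y) - ψ y) ⊤
      (volume.restrict (closedBall 0 R))) atTop (𝓝 0)) :
    ∃ e : E N, ‖e‖ = 1 ∧ ∀ s0 : ℝ, 0 < s0 → s0 < 1 → 4 * m * s0 ^ 2 < b ^ 2 →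
      ∀ h : E N, √(1 - s0 ^ 2) * ‖h‖ ≤ inner ℝ h e → ∀ᵐ x, ψ (x + h) ≤ ψ x := by
  have hS := hSOLM N f K U u hK hUm hu
  have hpt := ae_tendsto_of_eLpNorm (g := fun n y => u (tn n) (xn n + y)) hconv
  obtain ⟨σ, w, hσ, hw, hlim⟩ := hEXT N f K U u hK hS tn xn htn
  have htn1 : Tendsto (tn ∘ σ) atTop atTop := htn.comp hσ.tendsto_atTop
  obtain ⟨e0, he0⟩ := exists_unit hN
  have hdir : ∀ n, ∃ e : E N, ‖e‖ = 1 ∧ (0 < infDist ((xn ∘ σ) n) U →
      ∃ ξ, Dir U ((xn ∘ σ) n) ξ e) := by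
    intro n
    by_cases hn : 0 < infDist ((xn ∘ σ) n) U
    · obtain ⟨ξ, e, hd⟩ := hE0 N U _ hn
      exact ⟨e, hd.unit, fun _ => ⟨ξ, hd⟩⟩
    · exact ⟨e0, he0, fun h => absurd h hn⟩
  choose en hen1 hen2 using hdir
  obtain ⟨e, he, φ, hφ, hlimE⟩ := (isCompact_sphere (0 : E N) 1).tendsto_subseq
    (x := en) (fun n => by rw [mem_sphere_zero_iff_norm]; exact hen1 n)
  rw [mem_sphere_zero_iff_norm] at he
  have hlim2 := hlim.comp hφ
  have htn2 : Tendsto ((tn ∘ σ) ∘ φ) atTop atTop := htn1.comp hφ.tendsto_atTop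
  have hfar2 : ∀ᶠ n in atTop, b * ((tn ∘ σ) ∘ φ) n ≤ infDist (((xn ∘ σ) ∘ φ) n) U :=
    hφ.tendsto_atTop.eventually (hσ.tendsto_atTop.eventually hfar)
  have hψw : ∀ᵐ x, ψ x = w 0 x := by
    filter_upwards [hpt] with y hy
    have h5 := hlim.tendsto 0 y
    simp only [add_zero, Function.comp_apply] at h5
    exact tendsto_nhds_unique (hy.comp hσ.tendsto_atTop) h5
  refine ⟨e, he, ?_⟩
  intro s0 hs0 hs1 hs2 h hh
  -- monotonicity of the limit
  have hmono : ∀ x, w 0 (x + h) ≤ w 0 x := by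
    intro x
    rcases eq_or_ne h 0 with h0 | h0
    · rw [h0, add_zero]
    have hh0 : 0 < ‖h‖ := norm_pos_iff.2 h0
    -- a slightly larger aperture
    obtain ⟨s1, hs01, hs11, hs12⟩ : ∃ s1, s0 < s1 ∧ s1 < 1 ∧ 4 * m * s1 ^ 2 < b ^ 2 := by
      have h1 : ∀ᶠ s in 𝓝[>] s0, 4 * m * s ^ 2 < b ^ 2 := by
        have : Continuous fun s : ℝ => 4 * m * s ^ 2 := by fun_prop
        exact (this.tendsto s0).mono_left nhdsWithin_le_nhds |>.eventually (gt_mem_nhds hs2)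
      have h2 : ∀ᶠ s in 𝓝[>] s0, s < 1 := by
        exact (tendsto_id.mono_left nhdsWithin_le_nhds : Tendsto id (𝓝[>] s0) (𝓝 s0)).eventually
          (gt_mem_nhds hs1)
      have h3 : ∀ᶠ s in 𝓝[>] s0, s0 < s := self_mem_nhdsWithin
      obtain ⟨s, hs⟩ := (h1.and (h2.and h3)).exists
      exact ⟨s, hs.2.2, hs.2.1, hs.1⟩
    have hs1pos : 0 < s1 := hs0.trans hs01
    have hsq : √(1 - s1 ^ 2) < √(1 - s0 ^ 2) := by
      apply Real.sqrt_lt_sqrt
      · nlinarith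
      · nlinarith
    have hsq2 : √(1 - s1 ^ 2) * ‖h‖ < inner ℝ h e :=
      lt_of_lt_of_le (mul_lt_mul_of_pos_right hsq hh0) hh
    -- a slightly smaller speed
    obtain ⟨b1, hb10, hb1b, hb11⟩ : ∃ b1, 0 < b1 ∧ b1 < b ∧ 4 * m * s1 ^ 2 < b1 ^ 2 := by
      have h1 : ∀ᶠ s in 𝓝[<] b, 4 * m * s1 ^ 2 < s ^ 2 := by
        have : Continuous fun s : ℝ => s ^ 2 := by fun_prop
        exact (this.tendsto b).mono_left nhdsWithin_le_nhds |>.eventually (lt_mem_nhds hs12)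
      have h2 : ∀ᶠ s in 𝓝[<] b, 0 < s := by
        exact (tendsto_id.mono_left nhdsWithin_le_nhds : Tendsto id (𝓝[<] b) (𝓝 b)).eventually
          (lt_mem_nhds hb)
      have h3 : ∀ᶠ s in 𝓝[<] b, s < b := self_mem_nhdsWithin
      obtain ⟨s, hs⟩ := (h1.and (h2.and h3)).exists
      exact ⟨s, hs.2.1, hs.2.2, hs.1⟩
    apply le_of_forall_pos_le_add
    intro δ hδ
    obtain ⟨T, hT, hTt⟩ := hCONE N f K m U u hK hm hup hC hS b1 s1 (‖x‖ + ‖h‖ + 1) δ hb10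
      hs1pos hs11 hb11 (by positivity) hδ
    have hinner : Tendsto (fun n => inner ℝ h ((en ∘ φ) n)) atTop (𝓝 (inner ℝ h e)) :=
      (tendsto_const_nhds).inner hlimE
    have hev : ∀ᶠ n in atTop, u (((tn ∘ σ) ∘ φ) n + 0) (((xn ∘ σ) ∘ φ) n + (x + h)) ≤
        u (((tn ∘ σ) ∘ φ) n + 0) (((xn ∘ σ) ∘ φ) n + x) + δ := by
      filter_upwards [htn2.eventually_ge_atTop T, htn2.eventually_gt_atTop 0, hfar2,
        hinner.eventually (lt_mem_nhds hsq2)] with n h1 h2 h3 h5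
      have h7 : 0 < infDist (((xn ∘ σ) ∘ φ) n) U := lt_of_lt_of_le (mul_pos hb h2) h3
      obtain ⟨ξ, hd⟩ := hen2 (φ n) h7
      have := hTt _ h1 _ ξ _ hd (by
          have h8 : infDist ((xn ∘ σ) (φ n)) U = infDist (((xn ∘ σ) ∘ φ) n) U := rfl
          rw [h8]
          nlinarith)
        (((xn ∘ σ) ∘ φ) n + x) h (by
          have h8 : ((xn ∘ σ) ∘ φ) n + x - (xn ∘ σ) (φ n) = x := by
            show (xn ∘ σ) (φ n) + x - (xn ∘ σ) (φ n) = x
            abel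
          rw [h8]
          linarith [norm_nonneg h])
        (by linarith [norm_nonneg x]) h5.le
      rw [add_zero]
      rwa [add_assoc] at this
    exact le_of_tendsto_of_tendsto (hlim2.tendsto 0 (x + h))
      ((hlim2.tendsto 0 x).add_const δ) hev
  have hsh : ∀ᵐ x, ψ (x + h) = w 0 (x + h) :=
    (measurePreserving_add_right volume h).quasiMeasurePreserving.ae hψw
  filter_upwards [hψw, hsh] with x h1 h2
  rw [h1, h2]
  exact hmono x

end Pool.Agent.H91.RD
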