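import Pool.Agent.H91.RD.Statement
import Pool.Agent.H29.TF.HeatDiff

/-!
# MP_609556_an: working definitions
-/

open MeasureTheory Set Filter Topology Metric
open Pool.Agent.H29.TF (hk P)

namespace Pool.Agent.H91.RD

/-- `f` is `K`-Lipschitz and vanishes at `0`, at `1` and outside `[0,1]` -/
structure Lip (f : ℝ → ℝ) (K : ℝ) : Prop where
  K0 : 0 < K
  lip : ∀ a b, |f a - f b| ≤ K * |a - b|
  f0 : f 0 = 0
  f1 : f 1 = 0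
  out : ∀ s, s ∉ Icc (0 : ℝ) 1 → f s = 0

/-- elementary hypotheses on the nonlinearity and the front used in all estimates -/
structure Hyp (f : ℝ → ℝ) (c lam : ℝ) (φ : ℝ → ℝ) (K k μ η0 θ : ℝ) : Prop where
  toLip : Lip f K
  k0 : 0 ≤ k
  kK : k ≤ K
  kc : 4 * k < c ^ 2
  mu0 : 0 < μ
  eta0 : 0 < η0
  eta1 : η0 ≤ 1 / 8
  near1 : ∀ a b, 1 - η0 ≤ a → a ≤ b → b ≤ 1 → f b - f a ≤ -(μ * (b - a))
  near0 : ∀ a b, 0 ≤ a → a ≤ b → b ≤ η0 → f b - f a ≤ k * (b - a)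
  th0 : 0 < θ
  th1 : θ < 1
  high : ∀ s, θ ≤ s → s < 1 → 0 < f s
  front : Front f c lam φ
  lamc : lam < c

/-- properties of the front profile -/
structure FrP (c lam β C : ℝ) (φ : ℝ → ℝ) : Prop where
  pos : ∀ z, 0 < φ z
  lt : ∀ z, φ z < 1
  one : 1 ≤ C
  b0 : 0 < β
  d1 : ∀ z, |deriv φ z| ≤ C
  d2 : ∀ z, |deriv (deriv φ) z| ≤ C
  n0 : ∀ z ≤ 0, 1 - φ z ≤ C * Real.exp (β * z)
  n1 : ∀ z ≤ 0, |deriv φ z| ≤ C * Real.exp (β * z)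
  n2 : ∀ z ≤ 0, |deriv (deriv φ) z| ≤ C * Real.exp (β * z)
  p0 : ∀ z ≥ 0, φ z ≤ C * Real.exp (-(lam * z))
  p1 : ∀ z ≥ 0, |deriv φ z| ≤ C * Real.exp (-(lam * z))
  p2 : ∀ z ≥ 0, |deriv (deriv φ) z| ≤ C * Real.exp (-(lam * z))

/-- `w` is a bounded mild solution of `w_t = Δ w + f(w)` on `[a, ∞) × ℝ^N` (Duhamel's formula) -/
structure Mild {N : ℕ} (f : ℝ → ℝ) (a : ℝ) (w : ℝ → E N → ℝ) : Prop where
  bdd : ∃ M, ∀ t ≥ a, ∀ x, |w t x| ≤ M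
  meas : Measurable (w a)
  cont : ContinuousOn (fun p : ℝ × E N => w p.1 p.2) (Ioi a ×ˢ univ)
  duh : ∀ s t, a ≤ s → s < t → ∀ x,
    w t x = P (t - s) (w s) x + ∫ r in s..t, P (t - r) (fun y => f (w r y)) x

/-- values in `[0,1]` from time `a` on -/
def Rng {N : ℕ} (a : ℝ) (w : ℝ → E N → ℝ) : Prop := ∀ t ≥ a, ∀ x, 0 ≤ w t x ∧ w t x ≤ 1

/-- entire mild solution with values in `[0,1]` -/
def Ent {N : ℕ} (f : ℝ → ℝ) (w : ℝ → E N → ℝ) : Prop :=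
  (∀ a, Mild f a w) ∧ ∀ t x, 0 ≤ w t x ∧ w t x ≤ 1

/-- the solution `u` completed by its initial datum at times `≤ 0` -/
noncomputable def lift0 {N : ℕ} (U : Set (E N)) (u : ℝ → E N → ℝ) : ℝ → E N → ℝ :=
  fun t => if t ≤ 0 then chi U else u t

/-- classical solution together with its mild form and its range -/
structure SolM {N : ℕ} (f : ℝ → ℝ) (U : Set (E N)) (u : ℝ → E N → ℝ) : Prop where
  meas : MeasurableSet U
  sol : IsSol f U u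
  mild : Mild f 0 (lift0 U u)
  rng : Rng 0 (lift0 U u)

/-- the reflection in the hyperplane `⟨x, e⟩ = b` -/
noncomputable def rfl1 {N : ℕ} (e : E N) (b : ℝ) (x : E N) : E N :=
  x - (2 * (inner ℝ x e - b)) • e

/-- bounded nonnegative classical supersolution on `(0,∞) × ℝ^N` -/
structure Super {N : ℕ} (f : ℝ → ℝ) (u : ℝ → E N → ℝ) : Prop where
  bdd : ∃ M, ∀ t > 0, ∀ x, 0 ≤ u t x ∧ u t x ≤ M
  c2 : ∀ t > 0, ContDiff ℝ 2 (u t)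
  dt : ∀ t > 0, ∀ x, DifferentiableAt ℝ (fun s => u s x) t
  cont : ContinuousOn (fun p : ℝ × E N => u p.1 p.2) (Ioi 0 ×ˢ univ)
  le : ∀ t > 0, ∀ x, Laplacian.laplacian (u t) x + f (u t x) ≤ deriv (fun s => u s x) t

/-- as `Super`, but the differential inequality is only required where `u < 1` -/
structure Super1 {N : ℕ} (f : ℝ → ℝ) (u : ℝ → E N → ℝ) : Prop where
  bdd : ∃ M, ∀ t > 0, ∀ x, 0 ≤ u t x ∧ u t x ≤ M
  c2 : ∀ t > 0, ContDiff ℝ 2 (u t)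
  dt : ∀ t > 0, ∀ x, DifferentiableAt ℝ (fun s => u s x) t
  cont : ContinuousOn (fun p : ℝ × E N => u p.1 p.2) (Ioi 0 ×ˢ univ)
  le : ∀ t > 0, ∀ x, u t x < 1 →
    Laplacian.laplacian (u t) x + f (u t x) ≤ deriv (fun s => u s x) t

/-- bounded classical solution on `(0,∞) × ℝ^N` -/
structure Cls {N : ℕ} (f : ℝ → ℝ) (u : ℝ → E N → ℝ) : Prop where
  bdd : ∃ M, ∀ t > 0, ∀ x, |u t x| ≤ M
  c2 : ∀ t > 0, ContDiff ℝ 2 (u t)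
  dt : ∀ t > 0, ∀ x, DifferentiableAt ℝ (fun s => u s x) t
  cont : ContinuousOn (fun p : ℝ × E N => u p.1 p.2) (Ioi 0 ×ˢ univ)
  eqn : ∀ t > 0, ∀ x, deriv (fun s => u s x) t = Laplacian.laplacian (u t) x + f (u t x)

/-- the radial Laplacian of `S(r)`, `r = √(a² + |x - x₀|²)` -/
noncomputable def radL (N : ℕ) (a : ℝ) (S : ℝ → ℝ) (r : ℝ) : ℝ :=
  deriv (deriv S) r * (1 - a ^ 2 / r ^ 2) + deriv S r * ((N - 1) / r + a ^ 2 / r ^ 3)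

/-- ignited set at time `t`: centres of closed balls of radius `R` where `u ≥ 1 - η` -/
def ign {N : ℕ} (u : ℝ → E N → ℝ) (η R t : ℝ) : Set (E N) :=
  {x | ∀ y ∈ closedBall x R, 1 - η ≤ u t y}

/-- ignited set with level `ℓ` -/
def ig {N : ℕ} (u : ℝ → E N → ℝ) (ℓ R t : ℝ) : Set (E N) :=
  {x | ∀ y ∈ closedBall x R, ℓ ≤ u t y}

/-- the nonlinearity on `[a,b]` rescaled to `[0,1]` -/
noncomputable def resc (f : ℝ → ℝ) (a b s : ℝ) : ℝ := (b - a)⁻¹ * f (a + (b - a) * s)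

open Classical in
/-- the rescaled nonlinearity cut off outside `[0,1]` -/
noncomputable def rcut (f : ℝ → ℝ) (a b s : ℝ) : ℝ := if s ∈ Icc (0 : ℝ) 1 then resc f a b s else 0

/-- all constants of one level `[a,b]` of a terrace; `φ` is the rescaled profile -/
structure Lev (f : ℝ → ℝ) (a b c : ℝ) (φ : ℝ → ℝ) (K k μ η0 θ lam : ℝ) : Prop where
  a0 : 0 ≤ a
  ab : a < b
  b1 : b ≤ 1
  fa : f a = 0
  fb : f b = 0
  toLip : Lip f K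
  hyp : Hyp (rcut f a b) c lam φ K k μ η0 θ
  base : 0 < a → ∀ s t, -η0 ≤ s → s ≤ t → t ≤ η0 →
    resc f a b t - resc f a b s ≤ -(μ * (t - s))
  top : b < 1 → ∀ s t, 1 - η0 ≤ s → s ≤ t → t ≤ 1 + η0 →
    resc f a b t - resc f a b s ≤ -(μ * (t - s))

/-- expansion property of the level `b` at speed `c` -/
def LowP (N : ℕ) (f : ℝ → ℝ) (b c : ℝ) : Prop :=
  ∀ δ > 0, ∃ η R0 K3 s0 : ℝ, 0 < η ∧ η ≤ δ ∧ 1 ≤ R0 ∧ 1 ≤ K3 ∧ 1 ≤ s0 ∧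
    ∀ u : ℝ → E N → ℝ, Cls f u → (∀ t > 0, ∀ x, 0 ≤ u t x ∧ u t x ≤ 1) → ∀ t0 > 0, ∀ x0,
      (∀ y ∈ closedBall x0 R0, b - η ≤ u t0 y) →
      ∀ s ≥ s0, ∀ y, dist x0 y ≤ c * s - K3 * √s → b - η ≤ u (t0 + s) y

/-- retreat property of the level `a` at speed `c` -/
def UpP (N : ℕ) (f : ℝ → ℝ) (a c : ℝ) : Prop :=
  ∀ CT η', 1 ≤ CT → 0 < η' → ∃ K5, 1 ≤ K5 ∧ ∀ u : ℝ → E N → ℝ, Cls f u →
    (∀ t > 0, ∀ x, 0 ≤ u t x ∧ u t x ≤ 1) → ∀ t0 > 0, ∀ x0, ∀ σ > 0, ∀ R,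
      c * σ + K5 * (1 + √σ) ≤ R →
      (∀ y, u t0 y ≤ a + CT * Real.exp (-(c / 2 * (R - dist y x0)))) → u (t0 + σ) x0 ≤ a + η'

/-- expansion property of a family of sets -/
def Expd {N : ℕ} (c C t3 : ℝ) (I : ℝ → Set (E N)) : Prop :=
  ∀ t ≥ t3, ∀ s ≥ C, ∀ x ∈ I t, ∀ y, dist x y ≤ c * s - C * √s → y ∈ I (t + s)

/-- the geometric facts, for a family of sets `I t` -/
structure Geo {N : ℕ} (c C t3 : ℝ) (U : Set (E N)) (I : ℝ → Set (E N)) : Prop where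
  c0 : 0 < c
  C0 : 1 ≤ C
  t0 : 0 < t3
  Une : U.Nonempty
  ne : ∀ t ≥ t3, (I t).Nonempty
  expd : Expd c C t3 I
  back : ∀ t ≥ t3, ∀ s ≥ 0, ∀ y ∈ I (t + s), ∃ x ∈ I t, dist x y ≤ c * s + C * (1 + √s)
  up : ∀ y ∈ U, ∃ p ∈ I t3, dist y p ≤ C
  down : ∀ p ∈ I t3, ∃ y ∈ U, dist p y ≤ C

/-- exponential decay of `u` away from the sets `I t` -/
def Tl {N : ℕ} (c C t3 : ℝ) (I : ℝ → Set (E N)) (u : ℝ → E N → ℝ) : Prop :=
  ∀ t ≥ t3, ∀ x, u t x ≤ C * Real.exp (-(c / 2 * infDist x (I t)))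

/-- `ξ` is a nearest point of `closure U` to `x`, `e` the unit vector from `ξ` to `x` -/
structure Dir {N : ℕ} (U : Set (E N)) (x ξ e : E N) : Prop where
  mem : ξ ∈ closure U
  near : dist x ξ = infDist x U
  pos : 0 < infDist x U
  unit : ‖e‖ = 1
  eq : x - ξ = infDist x U • e

/-- `w` is the locally uniform limit of `u(t_n + ·, x_n + ·)` -/
def LimAt {N : ℕ} (u : ℝ → E N → ℝ) (tn : ℕ → ℝ) (xn : ℕ → E N) (w : ℝ → E N → ℝ) : Prop :=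
  ∀ R > 0, TendstoUniformlyOn (fun n (p : ℝ × E N) => u (tn n + p.1) (xn n + p.2))
    (fun p => w p.1 p.2) atTop (Icc (-R) R ×ˢ closedBall 0 R)

/-- `w` is nonincreasing in every direction `h` with `⟨h, e⟩ ≥ 0` -/
def Mono {N : ℕ} (w : ℝ → E N → ℝ) (e : E N) : Prop :=
  ∀ t x y, inner ℝ y e ≤ 0 → w t x ≤ w t (x + y)

/-- flatness of the interface of `w` -/
def Flat {N : ℕ} (e : E N) (η1 : ℝ) (w : ℝ → E N → ℝ) : Prop :=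
  ∀ ε > 0, ∃ C > 0, ∀ t x y, η1 < w t x → inner ℝ y e ≤ -(ε * ‖y‖ + C) → 1 - η1 ≤ w t (x + y)

/-- exponential tail of `w` at negative times -/
def TailW {N : ℕ} (e : E N) (c : ℝ) (w : ℝ → E N → ℝ) : Prop :=
  ∀ ε > 0, ∃ C > 0, ∃ T0 > 0, ∀ T ≥ T0, ∀ y,
    w (-T) y ≤ C * Real.exp (-(c / 2 * (inner ℝ y e + c * T)) + ε * (‖y‖ + T))

/-- phase plane equation of speed `c` (variable `τ = 1 - v ∈ [0,1]`, `y = p² / 2`) -/
def IsY (f : ℝ → ℝ) (c : ℝ) (y : ℝ → ℝ) : Prop :=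
  y 0 = 0 ∧ ContinuousOn y (Icc 0 1) ∧
    ∀ τ ∈ Ioo (0 : ℝ) 1, HasDerivAt y (f (1 - τ) - c * √(2 * max (y τ) 0)) τ

end Pool.Agent.H91.RD
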