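import Pool.Agent.H91.RD.Basic

/-!
# MP_609556_an: module LIM
-/

open MeasureTheory Set Filter Topology Metric
open Pool.Agent.H29.TF (hk P)

namespace Pool.Agent.H91.RD

theorem mono_const {N : ℕ} {w : ℝ → E N → ℝ} {a : ℝ} (h : ∀ t x, w t x = a) (e : E N) :
    Mono w e := by
  intro t x y _
  rw [h, h]

theorem lim (hFACTS : T_FACTS) (hEXT : T_EXT) (hONE : T_ONE) (hZERO : T_ZERO) (hINT : T_INT)
    (hDEEP : T_DEEP) (hIF1 : T_IF1) (hIF2 : T_IF2) (hL : T_L) (hE0 : T_E0) (hOUTU : T_OUTU) :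
    T_LIM := by
  intro N f φ c lam K k μ η0 θ ρ U u hN hyp hρ hinv hhaus hC hUne hsol tn xn htn
  obtain ⟨e0, he0⟩ := exists_unit hN
  obtain ⟨η, R0, C, t3, hη, hηδ, hR0, geo, tl⟩ :=
    hFACTS N f φ c lam K k μ η0 θ ρ U u hN hyp hρ hinv hhaus hC hUne hsol (η0 / 4)
      (by have := hyp.eta0; linarith)
  obtain ⟨σ, w, hσ, hw, hlim⟩ := hEXT N f K U u hyp.toLip hsol tn xn htn
  have htn' : Tendsto (tn ∘ σ) atTop atTop := htn.comp hσ.tendsto_atTop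
  -- conclusion from a constant limit
  have hconst : ∀ a, (∀ t x, w t x = a) → ∃ (σ : ℕ → ℕ) (w : ℝ → E N → ℝ) (e : E N), StrictMono σ ∧
      Ent f w ∧ ‖e‖ = 1 ∧ LimAt u (tn ∘ σ) (xn ∘ σ) w ∧ Mono w e := by
    intro a ha
    exact ⟨σ, w, e0, hσ, hw, he0, hlim, mono_const ha e0⟩
  -- if all points are eventually ignited, the limit is one
  have hone : ∀ τ : ℕ → ℕ, StrictMono τ →
      (∀ t x, ∀ᶠ n in atTop, (xn ∘ σ ∘ τ) n + x ∈ ign u η R0 ((tn ∘ σ ∘ τ) n + t)) →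
      ∀ t x, w t x = 1 := by
    intro τ hτ hev
    have hlimτ : LimAt u ((tn ∘ σ) ∘ τ) ((xn ∘ σ) ∘ τ) w := hlim.comp hτ
    refine hONE N f K μ η0 w hyp.toLip hyp.mu0 hyp.eta0 hyp.near1 hw 0 ?_
    intro t _ x
    have h1 : 1 - η ≤ w t x := by
      refine hlimτ.le_of_eventually ?_
      filter_upwards [hev t x] with n hn
      exact ign_center hR0.le hn
    have := hyp.eta0
    linarith
  -- case (a)
  by_cases ha : ∀ m : ℕ, ∃ᶠ n in atTop, (m : ℝ) ≤ infDist ((xn ∘ σ) n) (ign u η R0 ((tn ∘ σ) n))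
  · obtain ⟨τ, hτ, hτ2⟩ := extraction_forall_of_frequently ha
    refine hconst 0 (hZERO N f K c C t3 U (ign u η R0) u w ((tn ∘ σ) ∘ τ) ((xn ∘ σ) ∘ τ)
      hyp.toLip geo tl (htn'.comp hτ.tendsto_atTop) hw (hlim.comp hτ) ?_)
    exact tendsto_atTop_mono (fun n => hτ2 n) tendsto_natCast_atTop_atTop
  -- case (b)
  by_cases hb : ∃ κ > 0, ∃ᶠ n in atTop, infDist ((xn ∘ σ) n) U ≤ (c - κ) * (tn ∘ σ) n
  · obtain ⟨κ, hκ, hfr⟩ := hb
    obtain ⟨τ, hτ, hτ2⟩ := extraction_of_frequently_atTop hfr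
    refine hconst 1 (hone τ hτ ?_)
    exact hINT N c C t3 U (ign u η R0) ((tn ∘ σ) ∘ τ) ((xn ∘ σ) ∘ τ) geo
      (htn'.comp hτ.tendsto_atTop) κ hκ (Eventually.of_forall hτ2)
  have hb' : ∀ κ > 0, ∀ᶠ n in atTop, (c - κ) * (tn ∘ σ) n ≤ infDist ((xn ∘ σ) n) U := by
    intro κ hκ
    push Not at hb
    have := hb κ hκ
    filter_upwards [this] with n hn
    exact hn.le
  -- case (c)
  by_cases hc : ∀ m : ℕ, ∃ᶠ n in atTop, closedBall ((xn ∘ σ) n) m ⊆ ign u η R0 ((tn ∘ σ) n)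
  · obtain ⟨τ, hτ, hτ2⟩ := extraction_forall_of_frequently hc
    refine hconst 1 (hone τ hτ ?_)
    refine hDEEP N c C t3 U (ign u η R0) ((tn ∘ σ) ∘ τ) ((xn ∘ σ) ∘ τ) hC geo
      (htn'.comp hτ.tendsto_atTop) ?_ ?_
    · intro κ hκ
      exact hτ.tendsto_atTop.eventually (hb' κ hκ)
    · intro R _
      filter_upwards [eventually_ge_atTop (⌈R⌉₊)] with n hn
      refine (closedBall_subset_closedBall ?_).trans (hτ2 n)
      exact (Nat.le_ceil R).trans (by exact_mod_cast hn)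
  -- case (d)
  push Not at hc
  obtain ⟨m, hm⟩ := hc
  obtain ⟨T2, hT2, hout⟩ := hOUTU N c C t3 U (ign u η R0) geo (c / 2) (by have := geo.c0; linarith)
  have hev : ∀ᶠ n in atTop, ∃ q ξ e : E N, q ∉ ign u η R0 ((tn ∘ σ) n) ∧
      dist q ((xn ∘ σ) n) ≤ m ∧ Dir U q ξ e := by
    filter_upwards [hm, htn'.eventually_ge_atTop T2, htn'.eventually_gt_atTop 0] with n hn hn2 hn3
    rw [not_subset] at hn
    obtain ⟨q, hq, hq2⟩ := hn
    have hpos : 0 < infDist q U := by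
      have h1 := hout _ hn2 q hq2
      have h2 : 0 < (c - c / 2) * (tn ∘ σ) n := by
        have := geo.c0
        apply mul_pos _ hn3
        linarith
      linarith
    obtain ⟨ξ, e, hd⟩ := hE0 N U q hpos
    exact ⟨q, ξ, e, hq2, hq, hd⟩
  obtain ⟨τ, hτ, hτ2⟩ := extraction_of_eventually_atTop hev
  choose q ξ e hq1 hq2 hq3 using hτ2
  have hsph : ∀ n, e n ∈ sphere (0 : E N) 1 := by
    intro n
    rw [mem_sphere_zero_iff_norm]
    exact (hq3 n).unit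
  obtain ⟨elim, helim, τ2, hτ2m, hconv⟩ := (isCompact_sphere (0 : E N) 1).tendsto_subseq hsph
  have he1 : ‖elim‖ = 1 := by rwa [mem_sphere_zero_iff_norm] at helim
  have hlim2 : LimAt u ((tn ∘ σ) ∘ (τ ∘ τ2)) ((xn ∘ σ) ∘ (τ ∘ τ2)) w := hlim.comp (hτ.comp hτ2m)
  have htn2 : Tendsto ((tn ∘ σ) ∘ (τ ∘ τ2)) atTop atTop :=
    htn'.comp (hτ.comp hτ2m).tendsto_atTop
  have hflat : Flat elim (η0 / 4) w := by
    refine hIF1 N c C t3 η (η0 / 4) m R0 U u w ((tn ∘ σ) ∘ (τ ∘ τ2)) ((xn ∘ σ) ∘ (τ ∘ τ2))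
      (q ∘ τ2) (ξ ∘ τ2) (e ∘ τ2) elim hC geo tl hR0 (by have := hyp.eta0; linarith) hηδ htn2 hlim2
      (fun n => hq3 (τ2 n)) hconv (fun n => hq1 (τ2 n)) (fun n => hq2 (τ2 n))
  have htail : TailW elim c w := by
    refine hIF2 N c C t3 m U (ign u η R0) u w ((tn ∘ σ) ∘ (τ ∘ τ2)) ((xn ∘ σ) ∘ (τ ∘ τ2))
      (q ∘ τ2) (ξ ∘ τ2) (e ∘ τ2) elim hC geo tl htn2 hlim2
      (fun n => hq3 (τ2 n)) hconv (fun n => hq1 (τ2 n)) (fun n => hq2 (τ2 n))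
  exact ⟨σ, w, elim, hσ, hw, he1, hlim, hL N f φ c lam K k μ η0 θ w elim hyp hw he1 hflat htail⟩

end Pool.Agent.H91.RD
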