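import Pool.Agent.H91.RD.Basic
import Pool.Agent.H91.RD.LIM
import Pool.Agent.H91.RD.Targets2

/-!
# MP_609556_an: module LIMJ (limits are monotone, terraces)
-/

open MeasureTheory Set Filter Topology Metric
open Pool.Agent.H29.TF (hk P)

namespace Pool.Agent.H91.RD

/-- all the targets used in the analysis of one level -/
structure StepT : Prop where
  ZEROG : T_ZEROG
  INT : T_INT
  DEEP : T_DEEP
  ONEG : T_ONEG
  IF1 : T_IF1
  IF2 : T_IF2
  L : T_L
  RSE : T_RSE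
  E0 : T_E0
  OUTU : T_OUTU

theorem ig_center {N : ℕ} {u : ℝ → E N → ℝ} {ℓ R t : ℝ} (hR : 0 ≤ R) {x : E N}
    (hx : x ∈ ig u ℓ R t) : ℓ ≤ u t x := hx x (mem_closedBall_self hR)

theorem Lev.near_top {f φ : ℝ → ℝ} {a b c K k μ η0 θ lam : ℝ}
    (h : Lev f a b c φ K k μ η0 θ lam) :
    ∀ s t, b - (b - a) * η0 ≤ s → s ≤ t → t ≤ b → f t - f s ≤ -(μ * (t - s)) := by
  intro s t hs hst ht
  have hΔ : 0 < b - a := sub_pos.2 h.ab
  have he1 := h.hyp.eta1
  have he0 := h.hyp.eta0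
  set s' := (s - a) / (b - a) with hs'
  set t' := (t - a) / (b - a) with ht'
  have h1 : 1 - η0 ≤ s' := by
    rw [hs', le_div_iff₀ hΔ]; nlinarith
  have h2 : s' ≤ t' := by
    rw [hs', ht']; gcongr
  have h3 : t' ≤ 1 := by
    rw [ht', div_le_one hΔ]; linarith
  have h4 := h.hyp.near1 s' t' h1 h2 h3
  have hs0 : s' ∈ Icc (0 : ℝ) 1 := ⟨by linarith, by linarith⟩
  have ht0 : t' ∈ Icc (0 : ℝ) 1 := ⟨by linarith, by linarith⟩
  unfold rcut at h4
  rw [if_pos hs0, if_pos ht0] at h4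
  unfold resc at h4
  have h5 : a + (b - a) * s' = s := by rw [hs']; field_simp; ring
  have h6 : a + (b - a) * t' = t := by rw [ht']; field_simp; ring
  rw [h5, h6] at h4
  have h7 : t' - s' = (b - a)⁻¹ * (t - s) := by rw [hs', ht']; field_simp; ring
  rw [h7] at h4
  have h8 : (b - a)⁻¹ * (f t - f s) ≤ (b - a)⁻¹ * (-(μ * (t - s))) := by
    calc (b - a)⁻¹ * (f t - f s) = (b - a)⁻¹ * f t - (b - a)⁻¹ * f s := by ring
      _ ≤ -(μ * ((b - a)⁻¹ * (t - s))) := h4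
      _ = (b - a)⁻¹ * (-(μ * (t - s))) := by ring
  exact le_of_mul_le_mul_left h8 (inv_pos.2 hΔ)

theorem LimAt.scale {N : ℕ} {u : ℝ → E N → ℝ} {tn : ℕ → ℝ} {xn : ℕ → E N} {w : ℝ → E N → ℝ}
    (h : LimAt u tn xn w) (a Δ : ℝ) :
    LimAt (fun t x => (u t x - a) / Δ) tn xn (fun t x => (w t x - a) / Δ) := by
  intro R hR
  have hu : UniformContinuous (fun s : ℝ => (s - a) / Δ) := by
    have h2 : LipschitzWith (Real.toNNReal |Δ⁻¹|) (fun s : ℝ => (s - a) / Δ) := by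
      refine LipschitzWith.of_dist_le_mul fun x y => ?_
      rw [Real.dist_eq, Real.dist_eq, Real.coe_toNNReal _ (abs_nonneg _), ← abs_mul]
      apply le_of_eq
      congr 1
      rw [div_eq_mul_inv, div_eq_mul_inv]
      ring
    exact h2.uniformContinuous
  exact hu.comp_tendstoUniformlyOn (h R hR)

theorem ign_scale {N : ℕ} (u : ℝ → E N → ℝ) {a b : ℝ} (hab : a < b) (η R : ℝ) :
    ign (fun t x => (u t x - a) / (b - a)) (η / (b - a)) R = ig u (b - η) R := by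
  have hΔ : 0 < b - a := sub_pos.2 hab
  funext t
  ext x
  unfold ign ig
  simp only [mem_ofPred_eq]
  refine forall₂_congr fun y _ => ?_
  have : 1 - η / (b - a) = (b - η - a) / (b - a) := by field_simp; ring
  rw [this, div_le_div_iff_of_pos_right hΔ, sub_le_sub_iff_right]

/-- analysis of one level -/
theorem level_step (T : StepT) {N : ℕ} (hN : 1 ≤ N) {f φ : ℝ → ℝ}
    {a b c K k μ η0 θ lam η R0 C t3 : ℝ} {U : Set (E N)} {u : ℝ → E N → ℝ} (hCC : CondC U)
    (lev : Lev f a b c φ K k μ η0 θ lam) (hηδ : η ≤ (b - a) * η0 / 4) (hR0 : 0 < R0)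
    (geo : Geo c C t3 U (ig u (b - η) R0))
    (tl : Tl c C t3 (ig u (b - η) R0) (fun t x => (u t x - a) / (b - a)))
    {tn : ℕ → ℝ} {xn : ℕ → E N} {w : ℝ → E N → ℝ} (htn : Tendsto tn atTop atTop)
    (hw : Ent f w) (hlim : LimAt u tn xn w) (hwb : ∀ t x, w t x ≤ b)
    (hbase : (∀ κ > 0, ∀ᶠ n in atTop, infDist (xn n) U ≤ (c + κ) * tn n) → ∀ t x, a ≤ w t x) :
    (∀ t x, w t x ≤ a) ∨ ∃ e : E N, ‖e‖ = 1 ∧ Mono w e := by
  obtain ⟨e0, he0⟩ := exists_unit hN
  have hΔ : 0 < b - a := sub_pos.2 lev.ab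
  have hη0 := lev.hyp.eta0
  have hcpos := geo.c0
  -- if all points are eventually ignited, the limit is `b`
  have hone : ∀ τ : ℕ → ℕ, StrictMono τ →
      (∀ t x, ∀ᶠ n in atTop, (xn ∘ τ) n + x ∈ ig u (b - η) R0 ((tn ∘ τ) n + t)) →
      ∃ e : E N, ‖e‖ = 1 ∧ Mono w e := by
    intro τ hτ hev
    have hlimτ : LimAt u (tn ∘ τ) (xn ∘ τ) w := hlim.comp hτ
    have h2 : ∀ t x, b ≤ w t x := by
      refine T.ONEG N f K μ ((b - a) * η0) b w lev.toLip lev.hyp.mu0 (mul_pos hΔ hη0) lev.fb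
        lev.near_top hw 0 ?_
      intro t _ x
      have h1 : b - η ≤ w t x := by
        refine hlimτ.le_of_eventually ?_
        filter_upwards [hev t x] with n hn
        exact ig_center hR0.le hn
      have : 0 < (b - a) * η0 := mul_pos hΔ hη0
      linarith
    exact ⟨e0, he0, mono_const (a := b) (fun t x => le_antisymm (hwb t x) (h2 t x)) e0⟩
  -- case (a)
  by_cases ha : ∀ m : ℕ, ∃ᶠ n in atTop, (m : ℝ) ≤ infDist (xn n) (ig u (b - η) R0 (tn n))
  · obtain ⟨τ, hτ, hτ2⟩ := extraction_forall_of_frequently ha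
    left
    refine T.ZEROG N f K c C t3 a b U (ig u (b - η) R0) u w (tn ∘ τ) (xn ∘ τ)
      lev.toLip lev.ab lev.fa geo tl (htn.comp hτ.tendsto_atTop) hw (hlim.comp hτ) ?_
    exact tendsto_atTop_mono (fun n => hτ2 n) tendsto_natCast_atTop_atTop
  right
  -- case (b)
  by_cases hb : ∃ κ > 0, ∃ᶠ n in atTop, infDist (xn n) U ≤ (c - κ) * tn n
  · obtain ⟨κ, hκ, hfr⟩ := hb
    obtain ⟨τ, hτ, hτ2⟩ := extraction_of_frequently_atTop hfr
    refine hone τ hτ ?_
    exact T.INT N c C t3 U (ig u (b - η) R0) (tn ∘ τ) (xn ∘ τ) geo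
      (htn.comp hτ.tendsto_atTop) κ hκ (Eventually.of_forall hτ2)
  have hb' : ∀ κ > 0, ∀ᶠ n in atTop, (c - κ) * tn n ≤ infDist (xn n) U := by
    intro κ hκ
    push Not at hb
    have := hb κ hκ
    filter_upwards [this] with n hn
    exact hn.le
  -- case (c)
  by_cases hc : ∀ m : ℕ, ∃ᶠ n in atTop, closedBall (xn n) m ⊆ ig u (b - η) R0 (tn n)
  · obtain ⟨τ, hτ, hτ2⟩ := extraction_forall_of_frequently hc
    refine hone τ hτ ?_
    refine T.DEEP N c C t3 U (ig u (b - η) R0) (tn ∘ τ) (xn ∘ τ) hCC geo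
      (htn.comp hτ.tendsto_atTop) ?_ ?_
    · intro κ hκ
      exact hτ.tendsto_atTop.eventually (hb' κ hκ)
    · intro R _
      filter_upwards [eventually_ge_atTop (⌈R⌉₊)] with n hn
      refine (closedBall_subset_closedBall ?_).trans (hτ2 n)
      exact (Nat.le_ceil R).trans (by exact_mod_cast hn)
  -- case (d)
  push Not at hc
  obtain ⟨m, hm⟩ := hc
  push Not at ha
  obtain ⟨m', hm'⟩ := ha
  -- the base
  have haw : ∀ t x, a ≤ w t x := by
    apply hbase
    intro κ hκ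
    have hsq : ∀ᶠ n in atTop, (m' : ℝ) + 2 * C + 1 + C * √(tn n) ≤ κ * tn n := by
      have h1 : Tendsto (fun s : ℝ => κ * s - C * √s) atTop atTop := by
        have h2 : Tendsto (fun s : ℝ => √s * (κ * √s - C)) atTop atTop := by
          apply Tendsto.atTop_mul_atTop₀ Real.tendsto_sqrt_atTop
          apply tendsto_atTop_add_const_right
          exact Real.tendsto_sqrt_atTop.const_mul_atTop hκ
        refine h2.congr' ?_
        filter_upwards [eventually_ge_atTop 0] with s hs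
        have := Real.mul_self_sqrt hs
        nlinarith
      filter_upwards [(h1.comp htn).eventually_ge_atTop ((m' : ℝ) + 2 * C + 1)] with n hn
      simp only [Function.comp] at hn
      linarith
    filter_upwards [hm', htn.eventually_ge_atTop t3, hsq] with n h1 h2 h3
    obtain ⟨p, hp, hxp⟩ := (infDist_lt_iff (geo.ne _ h2)).1 h1
    obtain ⟨p', hp', hpp⟩ := geo.back t3 le_rfl (tn n - t3) (by linarith) p
      (by rw [show t3 + (tn n - t3) = tn n by ring]; exact hp)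
    obtain ⟨y, hy, hpy⟩ := geo.down p' hp'
    have h4 : infDist (xn n) U ≤ dist (xn n) y := infDist_le_dist_of_mem hy
    have h5 : dist (xn n) y ≤ dist (xn n) p + dist p p' + dist p' y := dist_triangle4 _ _ _ _
    have h6 : dist p p' = dist p' p := dist_comm _ _
    have h7 : √(tn n - t3) ≤ √(tn n) := Real.sqrt_le_sqrt (by linarith [geo.t0])
    have h8 := geo.C0
    have h9 : C * √(tn n - t3) ≤ C * √(tn n) := mul_le_mul_of_nonneg_left h7 (by linarith)
    have h10 : c * (tn n - t3) ≤ c * tn n :=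
      mul_le_mul_of_nonneg_left (by linarith [geo.t0]) hcpos.le
    nlinarith
  obtain ⟨T2, hT2, hout⟩ := T.OUTU N c C t3 U (ig u (b - η) R0) geo (c / 2) (by linarith)
  have hev : ∀ᶠ n in atTop, ∃ q ξ e : E N, q ∉ ig u (b - η) R0 (tn n) ∧
      dist q (xn n) ≤ m ∧ Dir U q ξ e := by
    filter_upwards [hm, htn.eventually_ge_atTop T2, htn.eventually_gt_atTop 0] with n hn hn2 hn3
    rw [not_subset] at hn
    obtain ⟨q, hq, hq2⟩ := hn
    have hpos : 0 < infDist q U := by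
      have h1 := hout _ hn2 q hq2
      have h2 : 0 < (c - c / 2) * tn n := by
        apply mul_pos _ hn3
        linarith
      linarith
    obtain ⟨ξ, e, hd⟩ := T.E0 N U q hpos
    exact ⟨q, ξ, e, hq2, hq, hd⟩
  obtain ⟨τ, hτ, hτ2⟩ := extraction_of_eventually_atTop hev
  choose q ξ e hq1 hq2 hq3 using hτ2
  have hsph : ∀ n, e n ∈ sphere (0 : E N) 1 := by
    intro n
    rw [mem_sphere_zero_iff_norm]
    exact (hq3 n).unit
  obtain ⟨elim, helim, τ2, hτ2m, hconv⟩ := (isCompact_sphere (0 : E N) 1).tendsto_subseq hsph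
  have he1 : ‖elim‖ = 1 := by rwa [mem_sphere_zero_iff_norm] at helim
  set W : ℝ → E N → ℝ := fun t x => (w t x - a) / (b - a) with hW
  have hlim2 : LimAt (fun t x => (u t x - a) / (b - a)) (tn ∘ (τ ∘ τ2)) (xn ∘ (τ ∘ τ2)) W :=
    (hlim.comp (hτ.comp hτ2m)).scale a (b - a)
  have htn2 : Tendsto (tn ∘ (τ ∘ τ2)) atTop atTop := htn.comp (hτ.comp hτ2m).tendsto_atTop
  have hI := ign_scale u lev.ab η R0
  have geo' := geo
  have tl' := tl
  rw [← hI] at geo' tl'
  have hq1' : ∀ n, q n ∉ ign (fun t x => (u t x - a) / (b - a)) (η / (b - a)) R0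
      ((tn ∘ τ) n) := by
    intro n
    rw [hI]
    exact hq1 n
  have hflat : Flat elim (η0 / 4) W := by
    refine T.IF1 N c C t3 (η / (b - a)) (η0 / 4) m R0 U _ W (tn ∘ (τ ∘ τ2)) (xn ∘ (τ ∘ τ2))
      (q ∘ τ2) (ξ ∘ τ2) (e ∘ τ2) elim hCC geo' tl' hR0 (by linarith) ?_ htn2 hlim2
      (fun n => hq3 (τ2 n)) hconv (fun n => hq1' (τ2 n)) (fun n => hq2 (τ2 n))
    rw [div_le_iff₀ hΔ]
    linarith
  have htail : TailW elim c W := by
    refine T.IF2 N c C t3 m U _ _ W (tn ∘ (τ ∘ τ2)) (xn ∘ (τ ∘ τ2))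
      (q ∘ τ2) (ξ ∘ τ2) (e ∘ τ2) elim hCC geo' tl' htn2 hlim2
      (fun n => hq3 (τ2 n)) hconv (fun n => hq1' (τ2 n)) (fun n => hq2 (τ2 n))
  have hWent : Ent (rcut f a b) W :=
    T.RSE N f K a b w lev.toLip lev.fa lev.fb lev.ab hw (fun t x => ⟨haw t x, hwb t x⟩)
  have hmono : Mono W elim :=
    T.L N (rcut f a b) φ c lam K k μ η0 θ W elim lev.hyp hWent he1 hflat htail
  refine ⟨elim, he1, ?_⟩
  intro t x y hy
  have h1 := hmono t x y hy
  simp only [hW] at h1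
  rw [div_le_div_iff_of_pos_right hΔ] at h1
  linarith

/-! ### The induction over the levels of a terrace -/

/-- all the targets used to obtain the expansion and retreat properties -/
structure LevT : Prop where
  LEVW : T_LEVW
  LOW0 : T_LOW0
  LOWS : T_LOWS
  UPT : T_UPT
  UPS : T_UPS
  FACTG : T_FACTG

section chain

variable {J : ℕ} {β : ℕ → ℝ}

theorem chain_mono (lt : ∀ j < J, β j < β (j + 1)) {i j : ℕ} (hij : i ≤ j) (hj : j ≤ J) :
    β i ≤ β j := by
  induction j, hij using Nat.le_induction with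
  | base => exact le_rfl
  | succ k hk ih => exact (ih (by omega)).trans (lt k (by omega)).le

theorem chain_nonneg (lt : ∀ j < J, β j < β (j + 1)) (b0 : β 0 = 0) {j : ℕ} (hj : j ≤ J) :
    0 ≤ β j := by
  rw [← b0]
  exact chain_mono lt (Nat.zero_le j) hj

theorem chain_le_one (lt : ∀ j < J, β j < β (j + 1)) (bJ : β J = 1) {j : ℕ} (hj : j ≤ J) :
    β j ≤ 1 := by
  rw [← bJ]
  exact chain_mono lt hj le_rfl

theorem chain_pos (lt : ∀ j < J, β j < β (j + 1)) (b0 : β 0 = 0) {j : ℕ} (hj : j ≤ J)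
    (h0 : 0 < j) : 0 < β j := by
  obtain ⟨i, rfl⟩ : ∃ i, j = i + 1 := ⟨j - 1, by omega⟩
  exact lt_of_le_of_lt (chain_nonneg lt b0 (by omega)) (lt i (by omega))

theorem chain_lt_one (lt : ∀ j < J, β j < β (j + 1)) (bJ : β J = 1) {j : ℕ} (hj : j < J) :
    β j < 1 :=
  lt_of_lt_of_le (lt j hj) (chain_le_one lt bJ (by omega))

end chain

theorem Terrace.lev (hLEVW : T_LEVW) {f : ℝ → ℝ} {J : ℕ} {β c : ℕ → ℝ} {φ : ℕ → ℝ → ℝ}
    (hf : Reaction f) (h : Terrace f J β c φ) {j : ℕ} (hj : j < J) :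
    ∃ (ψ : ℝ → ℝ) (K k μ η0 θ lam : ℝ), Lev f (β j) (β (j + 1)) (c j) ψ K k μ η0 θ lam := by
  refine hLEVW f (φ j) (β j) (β (j + 1)) (c j) hf (chain_nonneg h.lt h.b0 hj.le) (h.lt j hj)
    (chain_le_one h.lt h.bJ (by omega)) (h.zer j hj.le) (h.zer (j + 1) (by omega)) (h.wave j hj)
    (h.stable j hj) ?_
  rcases Nat.eq_zero_or_pos j with h0 | h0
  · subst h0
    rcases h.lead with h1 | h1
    · left
      rw [h.b0]
      exact h1
    · right
      exact ⟨h.b0, h1⟩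
  · left
    obtain ⟨i, rfl⟩ : ∃ i, j = i + 1 := ⟨j - 1, by omega⟩
    exact h.stable i (by omega)

theorem Terrace.low (T : LevT) {N : ℕ} (hN : 1 ≤ N) {f : ℝ → ℝ} {J : ℕ} {β c : ℕ → ℝ}
    {φ : ℕ → ℝ → ℝ} (hf : Reaction f) (h : Terrace f J β c φ) :
    ∀ j < J, LowP N f (β (j + 1)) (c j) := by
  intro j
  induction j with
  | zero =>
    intro hj
    obtain ⟨ψ, K, k, μ, η0, θ, lam, lev⟩ := h.lev T.LEVW hf hj
    rw [h.b0] at lev
    exact T.LOW0 N f ψ (β (0 + 1)) (c 0) K k μ η0 θ lam hN lev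
  | succ j ih =>
    intro hj
    obtain ⟨ψ, K, k, μ, η0, θ, lam, lev⟩ := h.lev T.LEVW hf hj
    exact T.LOWS N f ψ (β (j + 1)) (β (j + 1 + 1)) (c (j + 1)) (c j) K k μ η0 θ lam hN lev
      (chain_pos h.lt h.b0 hj.le (by omega)) (h.speed j hj) (ih (by omega))

theorem Terrace.up (T : LevT) {N : ℕ} (hN : 1 ≤ N) {f : ℝ → ℝ} {J : ℕ} {β c : ℕ → ℝ}
    {φ : ℕ → ℝ → ℝ} (hf : Reaction f) (h : Terrace f J β c φ) :
    ∀ i < J, UpP N f (β (J - 1 - i)) (c (J - 1 - i)) := by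
  intro i
  induction i with
  | zero =>
    intro hj
    obtain ⟨ψ, K, k, μ, η0, θ, lam, lev⟩ := h.lev T.LEVW hf (show J - 1 - 0 < J by omega)
    have h1 : β (J - 1 - 0 + 1) = 1 := by
      rw [show J - 1 - 0 + 1 = J by omega, h.bJ]
    rw [h1] at lev
    exact T.UPT N f ψ _ _ K k μ η0 θ lam hN lev
  | succ i ih =>
    intro hj
    have hj' : J - 1 - (i + 1) < J := by omega
    obtain ⟨ψ, K, k, μ, η0, θ, lam, lev⟩ := h.lev T.LEVW hf hj'
    have h2 := ih (by omega)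
    have h3 : J - 1 - (i + 1) + 1 = J - 1 - i := by omega
    rw [h3] at lev
    refine T.UPS N f ψ (β (J - 1 - (i + 1))) (β (J - 1 - i)) (c (J - 1 - (i + 1)))
      (c (J - 1 - i)) K k μ η0 θ lam hN lev (chain_lt_one h.lt h.bJ (by omega))
      (h.wave _ (by omega)).cpos ?_ h2
    have := h.speed (J - 1 - (i + 1)) (by omega)
    rwa [h3] at this

theorem Terrace.up' (T : LevT) {N : ℕ} (hN : 1 ≤ N) {f : ℝ → ℝ} {J : ℕ} {β c : ℕ → ℝ}
    {φ : ℕ → ℝ → ℝ} (hf : Reaction f) (h : Terrace f J β c φ) {j : ℕ} (hj : j < J) :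
    UpP N f (β j) (c j) := by
  have := h.up T hN hf (J - 1 - j) (by omega)
  rwa [show J - 1 - (J - 1 - j) = j by omega] at this

/-- limits at points well inside the region invaded by the level `b` are `≥ b` -/
theorem ge_of_inside (hINT : T_INT) (hONEG : T_ONEG) {N : ℕ} {f φ : ℝ → ℝ}
    {a b c K k μ η0 θ lam η R0 C t3 : ℝ} {U : Set (E N)} {u : ℝ → E N → ℝ}
    (lev : Lev f a b c φ K k μ η0 θ lam) (hηδ : η ≤ (b - a) * η0 / 4) (hR0 : 0 < R0)
    (geo : Geo c C t3 U (ig u (b - η) R0))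
    {tn : ℕ → ℝ} {xn : ℕ → E N} {w : ℝ → E N → ℝ} (htn : Tendsto tn atTop atTop)
    (hw : Ent f w) (hlim : LimAt u tn xn w) {κ : ℝ} (hκ : 0 < κ)
    (hin : ∀ᶠ n in atTop, infDist (xn n) U ≤ (c - κ) * tn n) : ∀ t x, b ≤ w t x := by
  have hΔ : 0 < b - a := sub_pos.2 lev.ab
  have hη0 := lev.hyp.eta0
  have hev := hINT N c C t3 U (ig u (b - η) R0) tn xn geo htn κ hκ hin
  refine hONEG N f K μ ((b - a) * η0) b w lev.toLip lev.hyp.mu0 (mul_pos hΔ hη0) lev.fb
    lev.near_top hw 0 ?_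
  intro t _ x
  have h1 : b - η ≤ w t x := by
    refine hlim.le_of_eventually ?_
    filter_upwards [hev t x] with n hn
    exact ig_center hR0.le hn
  have : 0 < (b - a) * η0 := mul_pos hΔ hη0
  linarith

theorem limj (T : LevT) (S : StepT) (hEXT : T_EXT) : T_LIMJ := by
  intro N f J β c φ ρ U u hN hf h hρ hinv hhaus hCC hUne hsol tn xn htn
  obtain ⟨e0, he0⟩ := exists_unit hN
  obtain ⟨ψ0, K0, k0, μ0, η00, θ0, lam0, lev0⟩ := h.lev T.LEVW hf h.J0
  obtain ⟨σ, w, hσ, hw, hlim⟩ := hEXT N f K0 U u lev0.toLip hsol tn xn htn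
  have htn' : Tendsto (tn ∘ σ) atTop atTop := htn.comp hσ.tendsto_atTop
  -- the data of all levels
  have hdata : ∀ j < J, ∃ (ψ : ℝ → ℝ) (K k μ η0 θ lam η R0 C t3 : ℝ),
      Lev f (β j) (β (j + 1)) (c j) ψ K k μ η0 θ lam ∧ η ≤ (β (j + 1) - β j) * η0 / 4 ∧ 0 < R0 ∧
      Geo (c j) C t3 U (ig u (β (j + 1) - η) R0) ∧
      Tl (c j) C t3 (ig u (β (j + 1) - η) R0)
        (fun t x => (u t x - β j) / (β (j + 1) - β j)) := by
    intro j hj
    obtain ⟨ψ, K, k, μ, η0, θ, lam, lev⟩ := h.lev T.LEVW hf hj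
    have hΔ : 0 < β (j + 1) - β j := sub_pos.2 lev.ab
    obtain ⟨η, R0, C, t3, hη, hηδ, hR0, geo, tl⟩ :=
      T.FACTG N f ψ (β j) (β (j + 1)) (c j) K k μ η0 θ lam ρ U u hN lev (h.low T hN hf j hj)
        (h.up' T hN hf hj) hρ hinv hhaus hCC hUne hsol ((β (j + 1) - β j) * η0 / 4)
        (by have := mul_pos hΔ lev.hyp.eta0; linarith)
    exact ⟨ψ, K, k, μ, η0, θ, lam, η, R0, C, t3, lev, hηδ, hR0, geo, tl⟩
  have key : ∀ j ≤ J, (∀ t x, w t x ≤ β j) → ∃ e : E N, ‖e‖ = 1 ∧ Mono w e := by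
    intro j
    induction j with
    | zero =>
      intro _ h0
      rw [h.b0] at h0
      exact ⟨e0, he0, mono_const (a := 0) (fun t x => le_antisymm (h0 t x) (hw.2 t x).1) e0⟩
    | succ j ih =>
      intro hj hwb
      obtain ⟨ψ, K, k, μ, η0, θ, lam, η, R0, C, t3, lev, hηδ, hR0, geo, tl⟩ := hdata j (by omega)
      have hbase : (∀ κ > 0, ∀ᶠ n in atTop,
          infDist ((xn ∘ σ) n) U ≤ (c j + κ) * (tn ∘ σ) n) → ∀ t x, β j ≤ w t x := by
        intro hin
        rcases Nat.eq_zero_or_pos j with h0 | h0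
        · subst h0
          intro t x
          rw [h.b0]
          exact (hw.2 t x).1
        · obtain ⟨i, rfl⟩ : ∃ i, j = i + 1 := ⟨j - 1, by omega⟩
          obtain ⟨ψ', K', k', μ', η0', θ', lam', η', R0', C', t3', lev', hηδ', hR0', geo', _⟩ :=
            hdata i (by omega)
          have hsp := h.speed i (by omega)
          refine ge_of_inside S.INT S.ONEG lev' hηδ' hR0' geo' htn' hw hlim
            (κ := (c i - c (i + 1)) / 2) (by linarith) ?_
          have := hin ((c i - c (i + 1)) / 2) (by linarith)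
          filter_upwards [this] with n hn
          calc infDist ((xn ∘ σ) n) U ≤ (c (i + 1) + (c i - c (i + 1)) / 2) * (tn ∘ σ) n := hn
            _ = (c i - (c i - c (i + 1)) / 2) * (tn ∘ σ) n := by ring
      rcases level_step S hN hCC lev hηδ hR0 geo tl htn' hw hlim hwb hbase with h1 | h1
      · exact ih (by omega) h1
      · exact h1
  obtain ⟨e, he, hmono⟩ := key J le_rfl (fun t x => by rw [h.bJ]; exact (hw.2 t x).2)
  exact ⟨σ, w, e, hσ, hw, he, hlim, hmono⟩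

end Pool.Agent.H91.RD
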