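import Pool.Agent.H91.RD.Asm
import Pool.Agent.H91.RD.LIM
import Pool.Agent.H91.RD.FIN
import Pool.Agent.H36.RD.ANG
import Pool.Agent.H36.RD.GeoA
import Pool.Agent.H36.RD.EX
import Pool.Agent.H36.RD.FL
import Pool.Agent.H62.RD.Geom
import Pool.Agent.H62.RD.Base
import Pool.Agent.H62.RD.IF2
import Pool.Agent.H62.RD.TW
import Pool.Agent.H70.RD.BR1
import Pool.Agent.H70.RD.BR2
import Pool.Agent.H70.RD.C2
import Pool.Agent.H59.RD.BS1
import Pool.Agent.H59.RD.BS2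
import Pool.Agent.H59.RD.P1B
import Pool.Agent.H67.RD.BS3
import Pool.Agent.H67.RD.BS4
import Pool.Agent.H67.RD.BS5
import Pool.Agent.H67.RD.HYPF2
import Pool.Agent.H19.RD.LIP
import Pool.Agent.H35.RD.CMP
import Pool.Agent.H35.RD.REG
import Pool.Agent.H35.RD.TR
import Pool.Agent.H15.RD.Cone
import Pool.Agent.H15.RD.Geo2
import Pool.Agent.H15.RD.Odei
import Pool.Agent.H66.RD.CPT
import Pool.Agent.H66.RD.L
import Pool.Agent.H66.RD.LA
import Pool.Agent.H66.RD.ST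
import Pool.Agent.H52.RD.Cut
import Pool.Agent.H52.RD.Ext
import Pool.Agent.H52.RD.One
import Pool.Agent.H52.RD.Smp
import Pool.Agent.H52.RD.Zero
import Pool.Agent.H54.RD.Expi
import Pool.Agent.H54.RD.Grad
import Pool.Agent.H54.RD.Hke
import Pool.Agent.H54.RD.Ibp
import Pool.Agent.H54.RD.Tail
import Pool.Agent.H33.RD.F0
import Pool.Agent.H46.RD.Facts
import Pool.Agent.H46.RD.NP
import Pool.Agent.H90.RD.FRP
import Pool.Agent.H90.RD.MP0
import Pool.Agent.H90.RD.RAD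
import Pool.Agent.H90.RD.P2B
import Pool.Agent.H3.RD.GC
import Pool.Agent.H3.RD.OGC
import Pool.Agent.H3.RD.ODD
import Pool.Agent.H3.RD.SH
import Pool.Agent.H58.RD.GT
import Pool.Agent.H57.RD.IGN
import Pool.Agent.H57.RD.LIMB
import Pool.Agent.H57.RD.SPR
import Pool.Agent.H73.RD.KBOX
import Pool.Agent.H73.RD.P1
import Pool.Agent.H73.RD.P2
import Pool.Agent.H48.RD.PROF
import Pool.Agent.H27.RD.TBG

/-!
# MP_609556_an: all modules of the first wave, with their proofs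
-/

namespace Pool.Agent.H91.RD.K

open Pool.Agent.H91.RD

theorem LIP : T_LIP := Pool.Agent.H19.RD.lip
theorem TAIL : T_TAIL := Pool.Agent.H54.RD.tail
theorem EXPI : T_EXPI := Pool.Agent.H54.RD.expi
theorem GRAD : T_GRAD := Pool.Agent.H54.RD.grad
theorem HKE : T_HKE := Pool.Agent.H54.RD.hke
theorem IBP : T_IBP := Pool.Agent.H54.RD.ibp
theorem CUT : T_CUT := Pool.Agent.H52.RD.cut
theorem BR1 : T_BR1 := Pool.Agent.H70.RD.BR1.t_BR1 HKE IBP CUT GRAD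
theorem BR2 : T_BR2 := Pool.Agent.H70.RD.BR2.t_BR2 BR1
theorem TR : T_TR := Pool.Agent.H35.RD.tr
theorem SH : T_SH := Pool.Agent.H3.RD.sh
theorem GC : T_GC := Pool.Agent.H3.RD.gc SH
theorem CMP : T_CMP := Pool.Agent.H35.RD.cmp GC
theorem RNG : T_RNG := Pool.Agent.H35.RD.rng CMP
theorem SOLM : T_SOLM := Pool.Agent.H35.RD.solm BR2 RNG
theorem OGC : T_OGC := Pool.Agent.H3.RD.ogc SH
theorem ODD : T_ODD := Pool.Agent.H3.RD.odd OGC
theorem REG : T_REG := Pool.Agent.H35.RD.reg GRAD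
theorem CPT : T_CPT := Pool.Agent.H66.RD.cpt REG
theorem SMP : T_SMP := Pool.Agent.H52.RD.smp SH
theorem MP0 : T_MP0 := Pool.Agent.H90.RD.MP0
theorem RAD : T_RAD := Pool.Agent.H90.RD.RAD
theorem FRP : T_FRP := Pool.Agent.H90.RD.FRP
theorem P1B : T_P1B := Pool.Agent.H59.RD.p1b
theorem P2B : T_P2B := Pool.Agent.H90.RD.P2B
theorem P1 : T_P1 := Pool.Agent.H73.RD.p1 FRP P1B RAD MP0
theorem P2 : T_P2 := Pool.Agent.H73.RD.p2 FRP P2B RAD MP0
theorem IGN : T_IGN := Pool.Agent.H57.RD.ign SOLM CMP TR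
theorem GEO2 : T_GEO2 := Pool.Agent.H15.RD.geo2
theorem CONE : T_CONE := Pool.Agent.H15.RD.cone ODD TAIL GEO2
theorem ODEI : T_ODEI := Pool.Agent.H15.RD.odei GC TAIL
theorem E0 : T_E0 := Pool.Agent.H36.RD.e0
theorem E1 : T_E1 := Pool.Agent.H36.RD.e1
theorem E2 : T_E2 := Pool.Agent.H36.RD.e2 E1
theorem DIR : T_DIR := Pool.Agent.H36.RD.dir
theorem ANG : T_ANG := Pool.Agent.H36.RD.ang DIR E1
theorem FL : T_FL := Pool.Agent.H36.RD.fl ANG
theorem EX : T_EX := Pool.Agent.H36.RD.ex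
theorem BH : T_BH := Pool.Agent.H62.RD.bh FL EX E0 E2
theorem FR : T_FR := Pool.Agent.H62.RD.fr FL EX E0 E2
theorem TW : T_TW := Pool.Agent.H62.RD.tw FR
theorem OUTU : T_OUTU := Pool.Agent.H62.RD.outu
theorem INT : T_INT := Pool.Agent.H62.RD.int
theorem DEEP : T_DEEP := Pool.Agent.H62.RD.deep FL EX E0 E2
theorem IF1 : T_IF1 := Pool.Agent.H62.RD.if1 BH E0 E2
theorem IF2 : T_IF2 := Pool.Agent.H62.RD.if2 TW
theorem NP : T_NP := Pool.Agent.H46.RD.np CONE ODEI E0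
theorem PROF : T_PROF := Pool.Agent.H48.RD.prof
theorem GT : T_GT := Pool.Agent.H58.RD.gt CMP TAIL
theorem TBG : T_TBG := Pool.Agent.H27.RD.tbg PROF MP0 RAD
theorem TB : T_TB := tb_of_tbg TBG GT
theorem FACTS : T_FACTS := Pool.Agent.H46.RD.facts P1 P2 IGN NP TB CMP TAIL
theorem EXT : T_EXT := Pool.Agent.H52.RD.ext CPT TR
theorem ONE : T_ONE := Pool.Agent.H52.RD.one CMP
theorem ZERO : T_ZERO := Pool.Agent.H52.RD.zero CMP
theorem LA : T_LA := Pool.Agent.H66.RD.la CMP TR EXPI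
theorem L : T_L := Pool.Agent.H66.RD.l LA REG CPT SMP TR
theorem LIM : T_LIM := lim FACTS EXT ONE ZERO INT DEEP IF1 IF2 L E0 OUTU
theorem C2 : T_C2 := Pool.Agent.H70.RD.C2.t_C2 GRAD REG
theorem ST : T_ST := Pool.Agent.H66.RD.st TR SMP
theorem FIN : T_FIN := fin LIP SOLM CMP ST C2
theorem F0 : T_F0 := Pool.Agent.H33.RD.f0
theorem HYPF : T_HYPF := Pool.Agent.H67.RD.HYPF2.hypf2 LIP
theorem BS1 : T_BS1 := Pool.Agent.H59.RD.bs1
theorem BS2 : T_BS2 := Pool.Agent.H59.RD.bs2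
theorem BS3 : T_BS3 := Pool.Agent.H67.RD.bs3 BS1 BS2
theorem BS4 : T_BS4 := Pool.Agent.H67.RD.bs4
theorem BS5 : T_BS5 := Pool.Agent.H67.RD.bs5 BS3 BS4
theorem KBOX : T_KBOX := Pool.Agent.H73.RD.kbox MP0
theorem SPR : T_SPR := Pool.Agent.H57.RD.spr KBOX ODEI SH
theorem LIMB : T_LIMB := Pool.Agent.H57.RD.limb EXT SPR CONE E0
theorem CLB : T_CLB := Pool.Agent.H19.RD.clb

end Pool.Agent.H91.RD.K
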