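import Pool.Agent.H91.RD.Main1
import Pool.Agent.H91.RD.LIMJ
import Pool.Agent.H91.RD.LIMK
import Pool.Agent.H11.RD.LEVW
import Pool.Agent.H11.RD.LOWS
import Pool.Agent.H11.RD.RX
import Pool.Agent.H18.RD.LOW0
import Pool.Agent.H18.RD.ODEG
import Pool.Agent.H18.RD.ONEG
import Pool.Agent.H18.RD.RSE
import Pool.Agent.H27.RD.FRD
import Pool.Agent.H27.RD.ST0
import Pool.Agent.H2.RD.P2G
import Pool.Agent.H33.RD.LOWK
import Pool.Agent.H33.RD.UPS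
import Pool.Agent.H48.RD.P1SB
import Pool.Agent.H58.RD.FACTG
import Pool.Agent.H58.RD.RSC
import Pool.Agent.H67.RD.NPG
import Pool.Agent.H67.RD.ZEROG
import Pool.Agent.H73.RD.P1X
import Pool.Agent.H73.RD.P1S
import Pool.Agent.H73.RD.UPT

/-!
# MP_609556_an: all modules of the second wave, with their proofs
-/

namespace Pool.Agent.H91.RD.K

open Pool.Agent.H91.RD

theorem P1X : T_P1X := Pool.Agent.H73.RD.p1x FRP P1B RAD MP0
theorem RX : T_RX := Pool.Agent.H11.RD.rx RAD MP0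
theorem ST0 : T_ST0 := Pool.Agent.H27.RD.st0 MP0 RAD
theorem P1SB : T_P1SB := Pool.Agent.H48.RD.p1sb
theorem P1S : T_P1S := Pool.Agent.H73.RD.p1s FRP P1SB RAD MP0
theorem P2G : T_P2G := Pool.Agent.H2.RD.p2g
theorem RSC : T_RSC := Pool.Agent.H58.RD.rsc
theorem RSE : T_RSE := Pool.Agent.H18.RD.rse
theorem LOW0 : T_LOW0 := Pool.Agent.H18.RD.low0 P1X RSC
theorem LOWS : T_LOWS := Pool.Agent.H11.RD.lows P1S RX ST0 RSC
theorem UPT : T_UPT := Pool.Agent.H73.RD.upt FRP P2G RAD MP0 RSC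
theorem UPS : T_UPS := Pool.Agent.H33.RD.ups FRP P2G RX RAD MP0 RSC
theorem ODEG : T_ODEG := Pool.Agent.H18.RD.odeg GC TAIL
theorem NPG : T_NPG := Pool.Agent.H67.RD.NPG.npg CONE ODEG E0
theorem FACTG : T_FACTG := Pool.Agent.H58.RD.factg IGN NPG TBG GT
theorem ONEG : T_ONEG := Pool.Agent.H18.RD.oneg CMP
theorem ZEROG : T_ZEROG := Pool.Agent.H67.RD.ZEROG.zerog CMP
theorem FRD : T_FRD := Pool.Agent.H27.RD.frd
theorem LEVW : T_LEVW := Pool.Agent.H11.RD.levw F0 HYPF FRD LIP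
theorem LOWK : T_LOWK := Pool.Agent.H33.RD.lowk MP0 ST0
theorem LEVT : LevT := ⟨LEVW, LOW0, LOWS, UPT, UPS, FACTG⟩
theorem STEPT : StepT := ⟨ZEROG, INT, DEEP, ONEG, IF1, IF2, L, RSE, E0, OUTU⟩
theorem LIMJ : T_LIMJ := limj LEVT STEPT EXT
theorem LIMK : T_LIMK := limk LEVT STEPT EXT LOWK LIP IGN CONE

end Pool.Agent.H91.RD.K
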