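import Pool.Agent.H91.RD.Targets3

/-!
# MP_609556_an: module TERR (existence of terraces)
-/

open MeasureTheory Set Filter Topology Metric

namespace Pool.Agent.H91.RD

/-- a chain of waves from `0` up to `b`, with top speed `c` -/
structure Chain (f : ℝ → ℝ) (b c : ℝ) (J : ℕ) (β s : ℕ → ℝ) (φ : ℕ → ℝ → ℝ) : Prop where
  J0 : 0 < J
  b0 : β 0 = 0
  bJ : β J = b
  lt : ∀ j < J, β j < β (j + 1)
  zer : ∀ j ≤ J, f (β j) = 0
  mem : ∀ j, 0 < j → j < J → β j ∈ Plat f
  wave : ∀ j < J, Wave f (β j) (β (j + 1)) (s j) (φ j)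
  speed : ∀ j, j + 1 < J → s (j + 1) < s j
  top : s (J - 1) = c
  lead : ∃ lam C, s 0 / 2 < lam ∧ ∀ z, φ 0 z ≤ C * Real.exp (-lam * z)

theorem chain_one {f φ : ℝ → ℝ} {b c : ℝ} (hf : Reaction f) (hb : 0 < b) (hfb : f b = 0)
    (hw : Wave f 0 b c φ) (hlead : ∃ lam C, c / 2 < lam ∧ ∀ z, φ z ≤ C * Real.exp (-lam * z)) :
    ∃ (J : ℕ) (β s : ℕ → ℝ) (φ' : ℕ → ℝ → ℝ), Chain f b c J β s φ' := by
  refine ⟨1, fun j => if j = 0 then 0 else b, fun _ => c, fun _ => φ, ?_⟩
  refine ⟨one_pos, by simp, by simp, ?_, ?_, ?_, ?_, ?_, rfl, hlead⟩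
  · intro j hj
    interval_cases j
    simpa using hb
  · intro j hj
    interval_cases j
    · simpa using hf.zero
    · simpa using hfb
  · intro j h0 h1
    omega
  · intro j hj
    interval_cases j
    simpa using hw
  · intro j hj
    omega

theorem chain_succ {f φ : ℝ → ℝ} {β0 b c c1 : ℝ} (hlt : β0 < b) (hfb : f b = 0)
    (hmem : β0 ∈ Plat f) (hw : Wave f β0 b c φ) (hc : c < c1)
    {J : ℕ} {β s : ℕ → ℝ} {φ' : ℕ → ℝ → ℝ} (h : Chain f β0 c1 J β s φ') :
    ∃ (J : ℕ) (β s : ℕ → ℝ) (φ' : ℕ → ℝ → ℝ), Chain f b c J β s φ' := by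
  have hJ := h.J0
  refine ⟨J + 1, fun j => if j ≤ J then β j else b, fun j => if j < J then s j else c,
    fun j => if j < J then φ' j else φ, ?_⟩
  refine ⟨by omega, by simp [h.b0], by simp, ?_, ?_, ?_, ?_, ?_, ?_, ?_⟩
  · intro j hj
    have hj' : j ≤ J := by omega
    rcases Nat.lt_or_ge j J with h1 | h1
    · have h2 : j + 1 ≤ J := by omega
      simp only [hj', h2, if_true]
      exact h.lt j h1
    · have h3 : j = J := by omega
      subst h3
      simp only [le_refl, if_true, show ¬ (j + 1 ≤ j) by omega, if_false, h.bJ]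
      exact hlt
  · intro j hj
    rcases Nat.lt_or_ge J j with h1 | h1
    · simp only [show ¬ (j ≤ J) by omega, if_false]
      exact hfb
    · simp only [h1, if_true]
      exact h.zer j h1
  · intro j h0 h1
    have hj' : j ≤ J := by omega
    simp only [hj', if_true]
    rcases Nat.lt_or_ge j J with h2 | h2
    · exact h.mem j h0 h2
    · have h3 : j = J := by omega
      subst h3
      rw [h.bJ]
      exact hmem
  · intro j hj
    have hj' : j ≤ J := by omega
    rcases Nat.lt_or_ge j J with h1 | h1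
    · have h2 : j + 1 ≤ J := by omega
      simp only [hj', h2, if_true, h1]
      exact h.wave j h1
    · have h3 : j = J := by omega
      subst h3
      simp only [le_refl, if_true, show ¬ (j + 1 ≤ j) by omega, if_false, h.bJ, lt_irrefl]
      exact hw
  · intro j hj
    have h1 : j < J := by omega
    rcases Nat.lt_or_ge (j + 1) J with h2 | h2
    · simp only [h1, h2, if_true]
      exact h.speed j h2
    · have h3 : ¬ (j + 1 < J) := by omega
      simp only [h1, h3, if_true, if_false]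
      have h4 : j = J - 1 := by omega
      rw [h4, h.top]
      exact hc
  · simp
  · simp only [hJ, if_true]
    exact h.lead

/-- `f(s) ≤ k s` near `0` for every `k > f'(0)` -/
theorem le_near_zero {f : ℝ → ℝ} (h : Reaction f) {k : ℝ} (hk : derivWithin f (Icc 0 1) 0 < k) :
    ∃ η0 > 0, ∀ s ∈ Icc 0 η0, f s ≤ k * s := by
  have hd : DifferentiableOn ℝ f (Icc 0 1) := h.smooth.differentiableOn one_ne_zero
  set ε := k - derivWithin f (Icc 0 1) 0 with hε'
  have hε : 0 < ε := by linarith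
  have h0 : HasDerivWithinAt f (derivWithin f (Icc 0 1) 0) (Icc 0 1) 0 :=
    (hd 0 ⟨le_rfl, zero_le_one⟩).hasDerivWithinAt
  have h1 := (hasDerivWithinAt_iff_isLittleO.1 h0).def hε
  rw [eventually_nhdsWithin_iff, Metric.eventually_nhds_iff] at h1
  obtain ⟨δ, hδ, h1⟩ := h1
  refine ⟨min (δ / 2) 1, lt_min (half_pos hδ) one_pos, ?_⟩
  intro s hs
  have hs1 : s ≤ δ / 2 := hs.2.trans (min_le_left _ _)
  have hs2 : s ≤ 1 := hs.2.trans (min_le_right _ _)
  have := h1 (y := s) (by rw [Real.dist_eq, sub_zero, abs_of_nonneg hs.1]; linarith)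
    ⟨hs.1, hs2⟩
  rw [h.zero, sub_zero, sub_zero, Real.norm_eq_abs, Real.norm_eq_abs, abs_of_nonneg hs.1,
    smul_eq_mul] at this
  have := (abs_le.1 this).2
  nlinarith

/-- `f > 0` just below a zero `b ∈ (0,1]` with `f'(b) < 0` -/
theorem pos_below {f : ℝ → ℝ} (h : Reaction f) {b : ℝ} (hb0 : 0 < b) (hb1 : b ≤ 1)
    (hfb : f b = 0) (hk : derivWithin f (Icc 0 1) b < 0) :
    ∃ b' < b, 0 ≤ b' ∧ ∀ s ∈ Ioo b' b, 0 < f s := by
  have hd : DifferentiableOn ℝ f (Icc 0 1) := h.smooth.differentiableOn one_ne_zero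
  set m := derivWithin f (Icc 0 1) b with hm
  have h0 : HasDerivWithinAt f m (Icc 0 1) b := (hd b ⟨hb0.le, hb1⟩).hasDerivWithinAt
  have h1 := (hasDerivWithinAt_iff_isLittleO.1 h0).def (show (0 : ℝ) < -m / 2 by linarith)
  rw [eventually_nhdsWithin_iff, Metric.eventually_nhds_iff] at h1
  obtain ⟨δ, hδ, h1⟩ := h1
  refine ⟨max (b - δ) 0, max_lt (by linarith) hb0, le_max_right _ _, ?_⟩
  intro s hs
  have hs1 : b - δ < s := lt_of_le_of_lt (le_max_left _ _) hs.1
  have hs0 : 0 < s := lt_of_le_of_lt (le_max_right _ _) hs.1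
  have hs2 : s < b := hs.2
  have := h1 (y := s) (by rw [Real.dist_eq, abs_sub_comm, abs_of_pos (by linarith)]; linarith)
    ⟨hs0.le, by linarith⟩
  rw [hfb, sub_zero, Real.norm_eq_abs, Real.norm_eq_abs, abs_sub_comm s b,
    abs_of_pos (show 0 < b - s by linarith), smul_eq_mul] at this
  have := (abs_le.1 this).1
  nlinarith

theorem terr (hLIP : T_LIP) (hEXTR : T_EXTR) (hFZ : T_FZ) (hSPD : T_SPD) (hWAV : T_WAV)
    (hFST : T_FST) (hF0P : T_F0P) : T_TERR := by
  intro f hf hnd hnr hnp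
  obtain ⟨K, hK⟩ := hLIP f hf
  have key : ∀ n : ℕ, ∀ b c : ℝ, ∀ y : ℝ → ℝ, (b = 1 ∨ b ∈ Plat f) →
      (Plat f ∩ Iio b).ncard = n → Extr f b c y →
      ∃ (J : ℕ) (β s : ℕ → ℝ) (φ' : ℕ → ℝ → ℝ), Chain f b c J β s φ' := by
    intro n
    induction n using Nat.strong_induction_on with
    | _ n ih =>
      intro b c y hb hn hex
      have hb0 : 0 < b := by
        rcases hb with hb | hb
        · rw [hb]; exact one_pos
        · exact hb.1.1
      have hb1 : b ≤ 1 := by
        rcases hb with hb | hb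
        · exact hb.le
        · exact hb.1.2.le
      have hfb : f b = 0 := by
        rcases hb with hb | hb
        · rw [hb]; exact hf.one
        · exact hb.2.1
      obtain ⟨β, hβ0, hβb, hypos, hyz, hfβ, hint⟩ := hFZ f K b c y hK hb0 hb1 hfb hex
      obtain ⟨φ, hw, hφ⟩ := hWAV f K b β c y hK hβ0 hβb hb1 hfb hfβ hex.cpos hex.isy hypos hyz
      rcases hβ0.eq_or_lt with h0 | h0
      · subst h0
        refine chain_one hf hb0 hfb hw ?_
        have h1 := hF0P f φ b c hf hb0 hb1 hw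
        have h2 := hnp b c φ hb hw
        have h3 : 4 * derivWithin f (Icc 0 1) 0 < c ^ 2 := lt_of_le_of_ne h1 (Ne.symm h2)
        have hc2 : 0 < c ^ 2 := by have := hex.cpos; positivity
        obtain ⟨k, hk0, hk1, hk2⟩ : ∃ k, 0 ≤ k ∧ derivWithin f (Icc 0 1) 0 < k ∧
            4 * k < c ^ 2 := by
          refine ⟨max 0 ((derivWithin f (Icc 0 1) 0 + c ^ 2 / 4) / 2), le_max_left _ _, ?_, ?_⟩
          · exact lt_of_lt_of_le (by linarith) (le_max_right _ _)
          · have : max 0 ((derivWithin f (Icc 0 1) 0 + c ^ 2 / 4) / 2) < c ^ 2 / 4 :=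
              max_lt (by linarith) (by linarith)
            linarith
        obtain ⟨η0, hη0, hle⟩ := le_near_zero hf hk1
        exact hFST f K b c k η0 y φ hK hb0 hb1 hfb hex hk0 hk2 hη0 hle hw hφ
      · have hmem : β ∈ Plat f := ⟨⟨h0, by linarith⟩, hfβ, hint⟩
        have hbel := pos_below hf h0 (by linarith) hfβ (hnd.neg β hmem)
        obtain ⟨c1, y1, hex1⟩ := hEXTR f K β hK h0 (by linarith) hfβ hbel hint
        have hcard : (Plat f ∩ Iio β).ncard < n := by
          rw [← hn]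
          apply Set.ncard_lt_ncard
          · refine ⟨fun x hx => ⟨hx.1, lt_trans hx.2 hβb⟩, fun hsub => ?_⟩
            have : β ∈ Plat f ∩ Iio β := hsub ⟨hmem, hβb⟩
            exact lt_irrefl β (mem_Iio.1 this.2)
          · exact hnd.fin.subset inter_subset_left
        obtain ⟨J, β', s, φ', hch⟩ := ih _ hcard β c1 y1 (Or.inr hmem) rfl hex1
        have hle : c ≤ c1 := hSPD f K b β c y hK h0 hβb hb1 hfb hfβ hbel hex hypos hyz c1 y1 hex1
        have hne : c ≠ c1 := by
          intro heq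
          have hJ := hch.J0
          have hw1 := hch.wave (J - 1) (by omega)
          rw [show J - 1 + 1 = J by omega, hch.bJ, hch.top, ← heq] at hw1
          refine hnr (β' (J - 1)) β b c _ _ ?_ hmem hb hw1 hw
          rcases Nat.eq_zero_or_pos (J - 1) with h1 | h1
          · left
            rw [h1, hch.b0]
          · right
            exact hch.mem (J - 1) h1 (by omega)
        exact chain_succ hβb hfb hmem hw (lt_of_le_of_ne hle hne) hch
  obtain ⟨c, y, hex⟩ := hEXTR f K 1 hK one_pos le_rfl hf.one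
    (pos_below hf one_pos le_rfl hf.one hnd.one) hnd.int
  obtain ⟨J, β, s, φ, hch⟩ := key _ 1 c y (Or.inl rfl) rfl hex
  refine ⟨J, β, s, φ, hch.J0, hch.b0, hch.bJ, hch.lt, hch.zer, hch.wave, hch.speed, ?_,
    Or.inr hch.lead⟩
  intro j hj
  rcases Nat.lt_or_ge (j + 1) J with h1 | h1
  · exact hnd.neg _ (hch.mem (j + 1) (by omega) h1)
  · have h2 : j + 1 = J := by omega
    rw [h2, hch.bJ]
    exact hnd.one

end Pool.Agent.H91.RD
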