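import Pool.Agent.H91.RD.Targets3

/-!
# MP_609556_an: module WAV (the wave of the extremal solution)
-/

open MeasureTheory Set Filter Topology Metric

namespace Pool.Agent.H91.RD

/-- the rescaled nonlinearity is Lipschitz -/
theorem Lip.rcut_lip {f : ℝ → ℝ} {K a b : ℝ} (h : Lip f K) (hab : a < b) (ha : f a = 0)
    (hb : f b = 0) : Lip (rcut f a b) K := by
  have hΔ : 0 < b - a := sub_pos.2 hab
  have hr : ∀ s t, |resc f a b s - resc f a b t| ≤ K * |s - t| := by
    intro s t
    have h1 : resc f a b s - resc f a b t = (b - a)⁻¹ * (f (a + (b - a) * s) -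
        f (a + (b - a) * t)) := by unfold resc; ring
    rw [h1, abs_mul, abs_of_pos (inv_pos.2 hΔ)]
    have h2 := h.lip (a + (b - a) * s) (a + (b - a) * t)
    have h3 : |a + (b - a) * s - (a + (b - a) * t)| = (b - a) * |s - t| := by
      rw [show a + (b - a) * s - (a + (b - a) * t) = (b - a) * (s - t) by ring, abs_mul,
        abs_of_pos hΔ]
    rw [h3] at h2
    calc (b - a)⁻¹ * |f (a + (b - a) * s) - f (a + (b - a) * t)|
        ≤ (b - a)⁻¹ * (K * ((b - a) * |s - t|)) :=
          mul_le_mul_of_nonneg_left h2 (inv_pos.2 hΔ).le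
      _ = K * |s - t| := by field_simp
  have hr0 : resc f a b 0 = 0 := by
    unfold resc; rw [mul_zero, add_zero, ha, mul_zero]
  have hr1 : resc f a b 1 = 0 := by
    unfold resc; rw [mul_one, add_sub_cancel, hb, mul_zero]
  have hpm : ∀ s : ℝ, max (min s 1) 0 ∈ Icc (0 : ℝ) 1 := fun s =>
    ⟨le_max_right _ _, max_le (min_le_right _ _) zero_le_one⟩
  have hp : ∀ s : ℝ, rcut f a b s = resc f a b (max (min s 1) 0) := by
    intro s
    unfold rcut
    by_cases hs : s ∈ Icc (0 : ℝ) 1
    · rw [if_pos hs, min_eq_left hs.2, max_eq_left hs.1]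
    · rw [if_neg hs]
      rw [mem_Icc, not_and_or, not_le, not_le] at hs
      rcases hs with hs | hs
      · rw [min_eq_left (by linarith), max_eq_right hs.le, hr0]
      · rw [min_eq_right hs.le, max_eq_left zero_le_one, hr1]
  have hpl : ∀ s t : ℝ, |max (min s 1) 0 - max (min t 1) 0| ≤ |s - t| := by
    intro s t
    refine (abs_max_sub_max_le_abs _ _ _).trans ?_
    refine (abs_min_sub_min_le_max s 1 t 1).trans ?_
    simp
  refine ⟨h.K0, ?_, ?_, ?_, ?_⟩
  · intro s t
    rw [hp s, hp t]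
    exact (hr _ _).trans (mul_le_mul_of_nonneg_left (hpl s t) h.K0.le)
  · rw [hp 0]; simpa using hr0
  · rw [hp 1]; simpa using hr1
  · intro s hs
    unfold rcut
    rw [if_neg hs]

/-- scaling of the phase plane equation -/
theorem IsYb.scale {f : ℝ → ℝ} {a b c : ℝ} {y : ℝ → ℝ} (h : IsYb f b c y) (ha : 0 ≤ a)
    (hab : a < b) : IsY (rcut f a b) c (fun τ => y ((b - a) * τ) / (b - a) ^ 2) := by
  have hΔ : 0 < b - a := sub_pos.2 hab
  obtain ⟨h0, h1, h2⟩ := h
  refine ⟨by simp [h0], ?_, ?_⟩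
  · apply ContinuousOn.div_const
    refine h1.comp (by fun_prop) ?_
    intro τ hτ
    refine ⟨mul_nonneg hΔ.le hτ.1, ?_⟩
    nlinarith [hτ.2]
  · intro τ hτ
    have hτ2 : (b - a) * τ ∈ Ioo 0 b := by
      refine ⟨mul_pos hΔ hτ.1, ?_⟩
      nlinarith [hτ.2]
    have h3 := h2 _ hτ2
    have h4 : HasDerivAt (fun τ : ℝ => (b - a) * τ) (b - a) τ := by
      simpa using (hasDerivAt_id τ).const_mul (b - a)
    have h5 := (h3.comp τ h4).div_const ((b - a) ^ 2)
    refine h5.congr_deriv ?_
    have h6 : (1 - τ) ∈ Icc (0 : ℝ) 1 := ⟨by linarith [hτ.2], by linarith [hτ.1]⟩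
    have h7 : rcut f a b (1 - τ) = (b - a)⁻¹ * f (b - (b - a) * τ) := by
      unfold rcut resc
      rw [if_pos h6]
      congr 2
      ring
    have h8 : √(2 * max (y ((b - a) * τ) / (b - a) ^ 2) 0) =
        √(2 * max (y ((b - a) * τ)) 0) / (b - a) := by
      have h9 : 2 * max (y ((b - a) * τ) / (b - a) ^ 2) 0 =
          2 * max (y ((b - a) * τ)) 0 / (b - a) ^ 2 := by
        have h10 : max (y ((b - a) * τ) / (b - a) ^ 2) 0 =
            max (y ((b - a) * τ)) 0 / (b - a) ^ 2 := by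
          rw [← max_div_div_right (by positivity : (0 : ℝ) ≤ (b - a) ^ 2), zero_div]
        rw [h10]; ring
      rw [h9, Real.sqrt_div' _ (by positivity), Real.sqrt_sq hΔ.le]
    rw [h7, h8]
    field_simp

theorem wav (hBS4 : T_BS4) : T_WAV := by
  intro f K b β c y hK hβ0 hβb hb1 hfb hfβ hc hy hypos hyz
  have hΔ : 0 < b - β := sub_pos.2 hβb
  have hL := hK.rcut_lip hβb hfβ hfb
  have hY := hy.scale hβ0 hβb
  obtain ⟨ψ, hψ2, hψr, hψd, hψe, hψl, hψr'⟩ := hBS4 (rcut f β b) K c _ hL hc hY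
    (by simp [hyz]) (by
      intro τ hτ
      have : (b - β) * τ ∈ Ioo 0 (b - β) := by
        refine ⟨mul_pos hΔ hτ.1, ?_⟩
        nlinarith [hτ.2]
      exact div_pos (hypos _ this) (by positivity))
  have hdiff : Differentiable ℝ ψ := hψ2.differentiable (by norm_num)
  have hder : ∀ z, deriv (fun z => β + (b - β) * ψ z) z = (b - β) * deriv ψ z := by
    intro z
    rw [deriv_const_add, deriv_const_mul _ (hdiff z)]
  have hder' : deriv (fun z => β + (b - β) * ψ z) = fun z => (b - β) * deriv ψ z :=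
    funext hder
  have hdψ : Differentiable ℝ (deriv ψ) := by
    have : ContDiff ℝ 1 (deriv ψ) := by
      have h1 : ContDiff ℝ (1 + 1) ψ := by simpa [one_add_one_eq_two] using hψ2
      exact (contDiff_succ_iff_deriv.1 h1).2.2
    exact this.differentiable (by norm_num)
  have hrel : ∀ z, deriv (fun z => β + (b - β) * ψ z) z =
      -√(2 * y (b - (β + (b - β) * ψ z))) := by
    intro z
    rw [hder, hψd]
    have h1 : (b - β) * (1 - ψ z) = b - (β + (b - β) * ψ z) := by ring
    rw [h1]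
    have h2 : 2 * (y (b - (β + (b - β) * ψ z)) / (b - β) ^ 2) =
        2 * y (b - (β + (b - β) * ψ z)) / (b - β) ^ 2 := by ring
    rw [h2, Real.sqrt_div' _ (by positivity), Real.sqrt_sq hΔ.le]
    field_simp
  refine ⟨fun z => β + (b - β) * ψ z, ⟨hc, ?_, ?_, ?_, ?_, ?_⟩, hrel⟩
  · exact contDiff_const.add (contDiff_const.mul hψ2)
  · intro z
    have h1 : deriv (deriv (fun z => β + (b - β) * ψ z)) z = (b - β) * deriv (deriv ψ) z := by
      rw [hder', deriv_const_mul _ (hdψ z)]
    rw [h1, hder]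
    have h2 : rcut f β b (ψ z) = (b - β)⁻¹ * f (β + (b - β) * ψ z) := by
      unfold rcut resc
      rw [if_pos ⟨(hψr z).1.le, (hψr z).2.le⟩]
    have h3 := hψe z
    rw [h2] at h3
    have h4 : (b - β) * (deriv (deriv ψ) z + c * deriv ψ z +
        (b - β)⁻¹ * f (β + (b - β) * ψ z)) = 0 := by rw [h3, mul_zero]
    have h5 : (b - β) * ((b - β)⁻¹ * f (β + (b - β) * ψ z)) = f (β + (b - β) * ψ z) := by
      field_simp
    show (b - β) * deriv (deriv ψ) z + c * ((b - β) * deriv ψ z) + f (β + (b - β) * ψ z) = 0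
    linarith
  · intro z
    rw [hrel, neg_lt_zero]
    apply Real.sqrt_pos.2
    have h1 : b - (β + (b - β) * ψ z) ∈ Ioo 0 (b - β) := by
      have h2 := (hψr z).1
      have h3 := (hψr z).2
      constructor <;> nlinarith
    linarith [hypos _ h1]
  · have h1 : Tendsto (fun z => β + (b - β) * ψ z) atBot (𝓝 (β + (b - β) * 1)) :=
      (hψl.const_mul (b - β)).const_add β
    simpa using h1
  · have h1 : Tendsto (fun z => β + (b - β) * ψ z) atTop (𝓝 (β + (b - β) * 0)) :=
      (hψr'.const_mul (b - β)).const_add β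
    simpa using h1

end Pool.Agent.H91.RD
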