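import Pool.Agent.H91.RD.Main2
import Pool.Agent.H91.RD.TERR
import Pool.Agent.H91.RD.WAV
import Pool.Agent.H36.RD.YB
import Pool.Agent.H36.RD.EXTR
import Pool.Agent.H36.RD.FZ
import Pool.Agent.H19.RD.F0P
import Pool.Agent.H19.RD.FST

/-!
# MP_609556_an: all modules of the third wave, with their proofs
-/

open MeasureTheory Set Filter Topology Metric

namespace Pool.Agent.H91.RD.K

open Pool.Agent.H91.RD

theorem YEX : T_YEX := Pool.Agent.H36.RD.yex BS1
theorem YCMP : T_YCMP := Pool.Agent.H36.RD.ycmp BS2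
theorem EXTR : T_EXTR := Pool.Agent.H36.RD.extr YEX YCMP
theorem FZ : T_FZ := Pool.Agent.H36.RD.fz YEX YCMP
theorem SPD : T_SPD := Pool.Agent.H36.RD.spd YEX YCMP
theorem WAV : T_WAV := wav BS4
theorem FST : T_FST := Pool.Agent.H19.RD.fst YEX YCMP
theorem F0P : T_F0P := Pool.Agent.H19.RD.f0p
theorem TERR : T_TERR := terr LIP EXTR FZ SPD WAV FST F0P

end Pool.Agent.H91.RD.K

namespace Pool.Agent.H91.RD

/-- the theorem for nondegenerate nonlinearities -/
theorem final_nondeg {N : ℕ} {f : ℝ → ℝ} (hN : 1 ≤ N) (hf : Reaction f) (h1 : Nondeg f)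
    (h2 : NoRes f) (h3 : NotPulled f) : Conclusion N f := by
  obtain ⟨J, β, c, φ, h⟩ := K.TERR f hf h1 h2 h3
  exact final_terrace K.LIMJ K.FIN hN hf h

/-- `f ≤ 0` near `0` implies `f'(0) ≤ 0` -/
theorem derivWithin_nonpos {f : ℝ → ℝ} (hf : Reaction f) {θ : ℝ} (hθ : 0 < θ)
    (h : ∀ s ∈ Icc 0 θ, f s ≤ 0) : derivWithin f (Icc 0 1) 0 ≤ 0 := by
  have hd : HasDerivWithinAt f (derivWithin f (Icc 0 1) 0) (Icc 0 1) 0 :=
    ((hf.smooth.differentiableOn (by norm_num)) 0 (by simp)).hasDerivWithinAt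
  have h2 : HasDerivWithinAt f (derivWithin f (Icc 0 1) 0) (Ioo 0 1) 0 :=
    hd.mono Ioo_subset_Icc_self
  rw [hasDerivWithinAt_iff_tendsto_slope' (by simp)] at h2
  have h3 : (𝓝[Ioo (0 : ℝ) 1] 0).NeBot := by
    rw [nhdsWithin_Ioo_eq_nhdsGT (by norm_num : (0 : ℝ) < 1)]
    infer_instance
  refine le_of_tendsto h2 ?_
  rw [nhdsWithin_Ioo_eq_nhdsGT (by norm_num : (0 : ℝ) < 1)]
  filter_upwards [Ioo_mem_nhdsGT hθ] with s hs
  rw [slope_def_field, hf.zero, sub_zero, sub_zero]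
  exact div_nonpos_of_nonpos_of_nonneg (h s ⟨hs.1.le, hs.2.le⟩) hs.1.le

/-- bistable and ignition nonlinearities have no platforms -/
theorem plat_of_BI {f : ℝ → ℝ} (hf : Reaction f) {θ : ℝ}
    (hlow : ∀ s ∈ Icc 0 θ, f s ≤ 0) (hhigh : ∀ s ∈ Ioo θ 1, 0 < f s) : Plat f = ∅ := by
  obtain ⟨K0, hK⟩ := K.LIP f hf
  rw [Set.eq_empty_iff_forall_notMem]
  rintro b ⟨hb, hfb, hint⟩
  rcases le_or_gt b θ with h | h
  · have h1 := hint 0 ⟨le_rfl, hb.1⟩
    have h2 : ∫ x in (0 : ℝ)..b, f x ≤ ∫ x in (0 : ℝ)..b, (0 : ℝ) := by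
      apply intervalIntegral.integral_mono_on hb.1.le
        (hK.continuous.intervalIntegrable _ _) (by simp)
      intro x hx
      exact hlow x ⟨hx.1, hx.2.trans h⟩
    simp at h2
    linarith
  · have := hhigh b ⟨h, hb.2⟩
    linarith

/-- the theorem for nondegenerate nonlinearities contains the one for bistable and ignition
nonlinearities -/
theorem nondeg_of_BI {f : ℝ → ℝ} (hf : Reaction f) (h : ClassBI f) :
    Nondeg f ∧ NoRes f ∧ NotPulled f := by
  obtain ⟨θ, hθ0, hθ1, hlow, hhigh, hint, h1⟩ := h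
  obtain ⟨K0, hK⟩ := K.LIP f hf
  have hP := plat_of_BI hf hlow hhigh
  have hii : ∀ a b : ℝ, IntervalIntegrable f volume a b := fun a b =>
    hK.continuous.intervalIntegrable a b
  refine ⟨⟨by rw [hP]; exact Set.finite_empty, by rw [hP]; simp, h1, ?_⟩, ?_, ?_⟩
  · intro s hs
    rcases le_or_gt θ s with h2 | h2
    · exact intervalIntegral.intervalIntegral_pos_of_pos_on (hii s 1)
        (fun x hx => hhigh x ⟨lt_of_le_of_lt h2 hx.1, hx.2⟩) hs.2
    · have h3 := intervalIntegral.integral_add_adjacent_intervals (hii 0 s) (hii s 1)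
      have h4 : ∫ x in (0 : ℝ)..s, f x ≤ ∫ x in (0 : ℝ)..s, (0 : ℝ) := by
        apply intervalIntegral.integral_mono_on hs.1 (hii _ _) (by simp)
        intro x hx
        exact hlow x ⟨hx.1, hx.2.trans h2.le⟩
      simp at h4
      linarith
  · intro a b d c φ ψ _ hb _ _ _
    rw [hP] at hb
    exact hb
  · intro b c φ _ hw heq
    have h2 := derivWithin_nonpos hf hθ0 hlow
    have h3 := hw.cpos
    have h4 : 0 < c ^ 2 := by positivity
    linarith

end Pool.Agent.H91.RD
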