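import Mathlib

/-!
# MP_609556_an: statement layer

Reaction-diffusion equation `u_t = Δ u + f(u)` on `ℝ^N` with datum `𝟙_U`.
-/

open MeasureTheory Set Filter Topology Metric

namespace Pool.Agent.H91.RD

/-- Euclidean space `ℝ^N` -/
abbrev E (N : ℕ) := EuclideanSpace ℝ (Fin N)

/-- `f ∈ C¹([0,1])`, `f(0) = f(1) = 0`, extended by `0` outside `[0,1]` -/
structure Reaction (f : ℝ → ℝ) : Prop where
  smooth : ContDiffOn ℝ 1 f (Icc 0 1)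
  zero : f 0 = 0
  one : f 1 = 0
  out : ∀ s, s ∉ Icc (0 : ℝ) 1 → f s = 0

/-- the initial datum `𝟙_U` -/
noncomputable def chi {N : ℕ} (U : Set (E N)) : E N → ℝ := U.indicator (fun _ => 1)

/-- `u` is a bounded classical (`C^{1,2}`) solution of `u_t = Δ u + f(u)` on `(0,∞) × ℝ^N`
with `u(t,·) → 𝟙_U` in `L¹_loc` as `t → 0⁺` -/
structure IsSol {N : ℕ} (f : ℝ → ℝ) (U : Set (E N)) (u : ℝ → E N → ℝ) : Prop where
  bdd : ∃ M, ∀ t > 0, ∀ x, |u t x| ≤ M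
  c2 : ∀ t > 0, ContDiff ℝ 2 (u t)
  dt : ∀ t > 0, ∀ x, DifferentiableAt ℝ (fun s => u s x) t
  cont : ContinuousOn (fun p : ℝ × E N => u p.1 p.2) (Ioi 0 ×ˢ univ)
  cont_dx : ContinuousOn (fun p : ℝ × E N => fderiv ℝ (u p.1) p.2) (Ioi 0 ×ˢ univ)
  cont_dxx : ContinuousOn (fun p : ℝ × E N => iteratedFDeriv ℝ 2 (u p.1) p.2) (Ioi 0 ×ˢ univ)
  cont_dt : ContinuousOn (fun p : ℝ × E N => deriv (fun s => u s p.2) p.1) (Ioi 0 ×ˢ univ)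
  eqn : ∀ t > 0, ∀ x, deriv (fun s => u s x) t = Laplacian.laplacian (u t) x + f (u t x)
  init : ∀ R > 0, Tendsto (fun t => ∫ x in ball (0 : E N) R, |u t x - chi U x|) (𝓝[>] 0) (𝓝 0)

/-- invasion property for the radius `ρ`: the solution with datum `𝟙_{B_ρ}` tends to `1`
locally uniformly -/
def Invades (N : ℕ) (f : ℝ → ℝ) (ρ : ℝ) : Prop :=
  ∃ v : ℝ → E N → ℝ, IsSol f (ball (0 : E N) ρ) v ∧
    ∀ R > 0, TendstoUniformlyOn (fun t x => v t x) (fun _ => (1 : ℝ)) atTop (closedBall 0 R)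

/-- `U_δ = {x ∈ U : dist(x, ∂U) ≥ δ}` (with `dist(x, ∅) = ∞`) -/
def core {N : ℕ} (U : Set (E N)) (δ : ℝ) : Set (E N) :=
  {x | x ∈ U ∧ ENNReal.ofReal δ ≤ infEDist x (frontier U)}

/-- condition (C): the opening function satisfies `lim_{R→∞} sup_{dist(x,U)=R} O(x) ≤ 0` -/
def CondC {N : ℕ} (U : Set (E N)) : Prop :=
  ∀ ε > 0, ∃ R > 0, ∀ x : E N, R ≤ infDist x U →
    ∀ ξ ∈ closure U, dist x ξ = infDist x U →
      ∀ y ∈ U, inner ℝ (x - ξ) (y - ξ) ≤ ε * ‖x - ξ‖ * ‖y - ξ‖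

/-- `ψ ∈ Ω(u)`: `u(t_n, x_n + ·) → ψ` in `L^∞_loc` for some `t_n → ∞` and some `x_n` -/
def OmegaLim {N : ℕ} (u : ℝ → E N → ℝ) (ψ : E N → ℝ) : Prop :=
  AEStronglyMeasurable ψ volume ∧
  ∃ (t : ℕ → ℝ) (x : ℕ → E N), Tendsto t atTop atTop ∧
    ∀ R > 0, Tendsto (fun n => eLpNorm (fun y => u (t n) (x n + y) - ψ y) ⊤
      (volume.restrict (closedBall 0 R))) atTop (𝓝 0)

/-- `ψ(x) = Ψ(x·e)` (almost everywhere) with `e` a unit vector, `Ψ ∈ C²(ℝ)` constant or strictly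
monotone -/
def Planar {N : ℕ} (ψ : E N → ℝ) : Prop :=
  ∃ (e : E N) (Ψ : ℝ → ℝ), ‖e‖ = 1 ∧ ContDiff ℝ 2 Ψ ∧ (∀ᵐ x, ψ x = Ψ (inner ℝ x e)) ∧
    ((∃ a, ∀ s, Ψ s = a) ∨ StrictMono Ψ ∨ StrictAnti Ψ)

/-- the conclusion of Q1 of MP_609556_an for the nonlinearity `f` in dimension `N` -/
def Conclusion (N : ℕ) (f : ℝ → ℝ) : Prop :=
  ∀ ρ > 0, Invades N f ρ →
    ∀ U : Set (E N), MeasurableSet U → hausdorffEDist U (core U ρ) ≠ ⊤ → CondC U →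
      ∀ u : ℝ → E N → ℝ, IsSol f U u → ∀ ψ : E N → ℝ, OmegaLim u ψ → Planar ψ

/-- `(c, φ)` is a decreasing travelling front of speed `c` connecting `1` to `0`, with
`φ(z) = O(e^{-lam z})`, `lam > c/2` (a pushed front) -/
structure Front (f : ℝ → ℝ) (c lam : ℝ) (φ : ℝ → ℝ) : Prop where
  cpos : 0 < c
  c2 : ContDiff ℝ 2 φ
  eqn : ∀ z, deriv (deriv φ) z + c * deriv φ z + f (φ z) = 0
  dec : ∀ z, deriv φ z < 0
  left : Tendsto φ atBot (𝓝 1)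
  right : Tendsto φ atTop (𝓝 0)
  fast : c / 2 < lam
  decay : ∃ C, ∀ z, φ z ≤ C * Real.exp (-lam * z)

/-- `φ` is a decreasing travelling front of speed `c > 0` which connects `b` (at `-∞`) to `a`
(at `+∞`) -/
structure Wave (f : ℝ → ℝ) (a b c : ℝ) (φ : ℝ → ℝ) : Prop where
  cpos : 0 < c
  c2 : ContDiff ℝ 2 φ
  eqn : ∀ z, deriv (deriv φ) z + c * deriv φ z + f (φ z) = 0
  dec : ∀ z, deriv φ z < 0
  left : Tendsto φ atBot (𝓝 b)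
  right : Tendsto φ atTop (𝓝 a)

/-- a terrace `0 = β_0 < β_1 < ⋯ < β_J = 1` (zeros of `f`) of fronts `φ_j` (from `β_{j+1}` to
`β_j`) with speeds `c_0 > c_1 > ⋯ > c_{J-1} > 0`; the states `β_1, …, β_J` are linearly stable and
either `f'(0) < 0` or the leading front decays faster than `e^{-c_0 z/2}` -/
structure Terrace (f : ℝ → ℝ) (J : ℕ) (β c : ℕ → ℝ) (φ : ℕ → ℝ → ℝ) : Prop where
  J0 : 0 < J
  b0 : β 0 = 0
  bJ : β J = 1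
  lt : ∀ j < J, β j < β (j + 1)
  zer : ∀ j ≤ J, f (β j) = 0
  wave : ∀ j < J, Wave f (β j) (β (j + 1)) (c j) (φ j)
  speed : ∀ j, j + 1 < J → c (j + 1) < c j
  stable : ∀ j < J, derivWithin f (Icc 0 1) (β (j + 1)) < 0
  lead : derivWithin f (Icc 0 1) 0 < 0 ∨
    ∃ lam C, c 0 / 2 < lam ∧ ∀ z, φ 0 z ≤ C * Real.exp (-lam * z)

/-- a terrace `0 = β_0 < β_1 < ⋯ < β_J = 1` (zeros of `f`) whose lowest level is of Fisher-KPP
type: `f > 0` on `(0, β_1)` and `f' ≤ f'(0)` on `[0,1]`, `f'(0) > 0`; the fronts `φ_j`, `j ≥ 1`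
(from `β_{j+1}` to `β_j`) have speeds `c_j` with `2 √f'(0) > c_1 > ⋯ > c_{J-1} > 0` and connect
linearly stable states.  (For `J = 1` this is only `f > 0` on `(0,1)`, `f' ≤ f'(0)`, `f'(0) > 0`.)
-/
structure TerraceK (f : ℝ → ℝ) (J : ℕ) (β c : ℕ → ℝ) (φ : ℕ → ℝ → ℝ) : Prop where
  J0 : 0 < J
  b0 : β 0 = 0
  bJ : β J = 1
  lt : ∀ j < J, β j < β (j + 1)
  zer : ∀ j ≤ J, f (β j) = 0
  pos : ∀ s ∈ Ioo (0 : ℝ) (β 1), 0 < f s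
  m0 : 0 < derivWithin f (Icc 0 1) 0
  kpp : ∀ s ∈ Icc (0 : ℝ) 1, derivWithin f (Icc 0 1) s ≤ derivWithin f (Icc 0 1) 0
  wave : ∀ j, 0 < j → j < J → Wave f (β j) (β (j + 1)) (c j) (φ j)
  speed0 : 1 < J → c 1 ^ 2 < 4 * derivWithin f (Icc 0 1) 0
  speed : ∀ j, 0 < j → j + 1 < J → c (j + 1) < c j
  stable : ∀ j, 0 < j → j < J →
    derivWithin f (Icc 0 1) (β j) < 0 ∧ derivWithin f (Icc 0 1) (β (j + 1)) < 0

end Pool.Agent.H91.RD
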