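import Pool.Agent.H91.RD.Defs

/-!
# MP_609556_an: targets of the modules

One `Prop` per module.  Every hypothesis is explicit.  The proofs are in the blueprint
(table `rd_modules`, column `proof`).
-/

open MeasureTheory Set Filter Topology Metric
open Pool.Agent.H29.TF (hk P)

namespace Pool.Agent.H91.RD

/-! ### A. Toolkit: heat semigroup, mild solutions, comparison -/

/-- [LIP] a reaction is Lipschitz -/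
def T_LIP : Prop := ∀ f : ℝ → ℝ, Reaction f → ∃ K, Lip f K

/-- [TAIL] Gaussian tail -/
def T_TAIL : Prop :=
  ∀ (N : ℕ) (ε t r : ℝ), 0 < ε → ε < 1 → 0 < t → 0 ≤ r → ∀ (x : E N) (g : E N → ℝ),
    AEStronglyMeasurable g volume → (∀ y, 0 ≤ g y ∧ g y ≤ 1) → (∀ y, dist x y < r → g y = 0) →
    P t g x ≤ ε ^ (-(N : ℝ) / 2) * Real.exp (-((1 - ε) * r ^ 2 / (4 * t)))

/-- [EXPI] heat semigroup on exponentials -/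
def T_EXPI : Prop :=
  ∀ (N : ℕ) (lam κ : ℝ), 0 < lam → 0 < κ → ∃ ε C : ℝ, 0 < ε ∧ ε ≤ κ ∧ 1 ≤ C ∧
    ∀ e : E N, ‖e‖ = 1 → ∀ τ : ℝ, 0 < τ → ∀ x : E N,
      Integrable (fun y : E N => hk τ (x - y) * Real.exp (-(lam * inner ℝ y e) + ε * ‖y‖)) ∧
      P τ (fun y => Real.exp (-(lam * inner ℝ y e) + ε * ‖y‖)) x ≤
        C * Real.exp ((lam ^ 2 + κ) * τ) * Real.exp (-(lam * inner ℝ x e) + ε * ‖x‖)

/-- [GRAD] gradient bound and first moment for the heat semigroup -/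
def T_GRAD : Prop :=
  ∀ N : ℕ, ∃ A : ℝ, 1 ≤ A ∧
    (∀ t > 0, ∀ (g : E N → ℝ) (M : ℝ), AEStronglyMeasurable g volume → (∀ y, |g y| ≤ M) →
      ∀ x y, |P t g x - P t g y| ≤ A * M / √t * ‖x - y‖) ∧
    (∀ t > 0, Integrable (fun z : E N => hk t z * ‖z‖) ∧ ∫ z : E N, hk t z * ‖z‖ ≤ A * √t)

/-- [HKE] the heat kernel solves the heat equation -/
def T_HKE : Prop :=
  ∀ (N : ℕ) (t : ℝ), 0 < t → ∀ z : E N,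
    ContDiff ℝ 2 (fun z : E N => hk t z) ∧
    HasDerivAt (fun s => hk s z) (Laplacian.laplacian (fun z : E N => hk t z) z) t ∧
    Laplacian.laplacian (fun z : E N => hk t z) z = hk t z * (‖z‖ ^ 2 / (4 * t ^ 2) - N / (2 * t))

/-- [IBP] Green's identity with compact support -/
def T_IBP : Prop :=
  ∀ (N : ℕ) (g v : E N → ℝ), ContDiff ℝ 2 g → HasCompactSupport g → ContDiff ℝ 2 v →
    ∫ y, g y * Laplacian.laplacian v y = ∫ y, Laplacian.laplacian g y * v y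

/-- [CUT] cut-off functions -/
def T_CUT : Prop :=
  ∀ N : ℕ, ∃ A : ℝ, 0 < A ∧ ∀ R : ℝ, 1 ≤ R → ∃ χ : E N → ℝ, ContDiff ℝ 2 χ ∧ HasCompactSupport χ ∧
    (∀ y, 0 ≤ χ y ∧ χ y ≤ 1) ∧ (∀ y ∈ closedBall (0 : E N) R, χ y = 1) ∧
    ∀ g : E N → ℝ, ContDiff ℝ 2 g → ∀ y,
      |Laplacian.laplacian (fun z => χ z * g z) y - χ y * Laplacian.laplacian g y| ≤
        A / R * (‖fderiv ℝ g y‖ + |g y|)

/-- [BR1] a classical solution satisfies Duhamel's formula between positive times -/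
def T_BR1 : Prop :=
  ∀ (N : ℕ) (f : ℝ → ℝ) (K : ℝ) (U : Set (E N)) (u : ℝ → E N → ℝ), Lip f K → IsSol f U u →
    ∀ s t, 0 < s → s < t → ∀ x,
      u t x = P (t - s) (u s) x + ∫ r in s..t, P (t - r) (fun y => f (u r y)) x

/-- [BR2] a classical solution is a mild solution from time `0` on -/
def T_BR2 : Prop :=
  ∀ (N : ℕ) (f : ℝ → ℝ) (K : ℝ) (U : Set (E N)) (u : ℝ → E N → ℝ), Lip f K → MeasurableSet U →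
    IsSol f U u → Mild f 0 (lift0 U u)

/-- [TR] translation invariance -/
def T_TR : Prop :=
  ∀ (N : ℕ) (f : ℝ → ℝ) (a t0 : ℝ) (x0 : E N) (w : ℝ → E N → ℝ), Mild f a w →
    Mild f (a - t0) (fun t x => w (t0 + t) (x0 + x))

/-- [SH] exponential shift in Duhamel's formula -/
def T_SH : Prop :=
  ∀ (N : ℕ) (Λ M s t : ℝ) (z h : ℝ → E N → ℝ), s < t → Measurable (z s) →
    (∀ r ∈ Icc s t, ∀ x, |z r x| ≤ M) → (∀ r ∈ Icc s t, ∀ x, |h r x| ≤ M) →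
    ContinuousOn (fun p : ℝ × E N => z p.1 p.2) (Ioc s t ×ˢ univ) →
    ContinuousOn (fun p : ℝ × E N => h p.1 p.2) (Ioc s t ×ˢ univ) →
    (∀ r ∈ Ioc s t, ∀ x, z r x = P (r - s) (z s) x + ∫ q in s..r, P (r - q) (h q) x) →
    ∀ r ∈ Ioc s t, ∀ x, z r x = Real.exp (-(Λ * (r - s))) * P (r - s) (z s) x +
      ∫ q in s..r, Real.exp (-(Λ * (r - q))) * P (r - q) (fun y => h q y + Λ * z q y) x

/-- [GC] general comparison -/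
def T_GC : Prop :=
  ∀ (N : ℕ) (k K M s t : ℝ) (z h : ℝ → E N → ℝ), 0 ≤ K → s < t → Measurable (z s) →
    (∀ r ∈ Icc s t, ∀ x, |z r x| ≤ M) → (∀ r ∈ Icc s t, ∀ x, |h r x| ≤ M) →
    ContinuousOn (fun p : ℝ × E N => z p.1 p.2) (Ioc s t ×ˢ univ) →
    ContinuousOn (fun p : ℝ × E N => h p.1 p.2) (Ioc s t ×ˢ univ) →
    (∀ r ∈ Ioc s t, ∀ x, z r x = P (r - s) (z s) x + ∫ q in s..r, P (r - q) (h q) x) →
    (∀ r ∈ Ioc s t, ∀ x, 0 < z r x → h r x ≤ k * z r x) →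
    (∀ r ∈ Ioc s t, ∀ x, z r x ≤ 0 → h r x ≤ -(K * z r x)) →
    ∀ x, z t x ≤ Real.exp (k * (t - s)) * P (t - s) (fun y => max (z s y) 0) x

/-- [CMP] comparison of two mild solutions -/
def T_CMP : Prop :=
  ∀ (N : ℕ) (f : ℝ → ℝ) (K k a s t : ℝ) (w1 w2 : ℝ → E N → ℝ), Lip f K → a ≤ s → s < t →
    Mild f a w1 → Mild f a w2 →
    (∀ r ∈ Ioc s t, ∀ y, w2 r y < w1 r y →
      f (w1 r y) - f (w2 r y) ≤ k * (w1 r y - w2 r y)) →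
    ∀ x, w1 t x - w2 t x ≤
      Real.exp (k * (t - s)) * P (t - s) (fun y => max (w1 s y - w2 s y) 0) x

/-- [RNG] solutions with initial values in `[0,1]` stay in `[0,1]` -/
def T_RNG : Prop :=
  ∀ (N : ℕ) (f : ℝ → ℝ) (K a : ℝ) (w : ℝ → E N → ℝ), Lip f K → Mild f a w →
    (∀ x, 0 ≤ w a x ∧ w a x ≤ 1) → Rng a w

/-- [SOLM] from `IsSol` to `SolM` -/
def T_SOLM : Prop :=
  ∀ (N : ℕ) (f : ℝ → ℝ) (K : ℝ) (U : Set (E N)) (u : ℝ → E N → ℝ), Lip f K → MeasurableSet U →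
    IsSol f U u → SolM f U u

/-- [OGC] comparison for functions which are odd with respect to a reflection -/
def T_OGC : Prop :=
  ∀ (N : ℕ) (k K M s t : ℝ) (z h : ℝ → E N → ℝ) (e : E N) (b : ℝ), ‖e‖ = 1 → 0 ≤ K → s < t →
    Measurable (z s) →
    (∀ r ∈ Icc s t, ∀ x, |z r x| ≤ M) → (∀ r ∈ Icc s t, ∀ x, |h r x| ≤ M) →
    ContinuousOn (fun p : ℝ × E N => z p.1 p.2) (Ioc s t ×ˢ univ) →
    ContinuousOn (fun p : ℝ × E N => h p.1 p.2) (Ioc s t ×ˢ univ) →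
    (∀ r ∈ Icc s t, ∀ x, z r (rfl1 e b x) = -z r x) →
    (∀ r ∈ Icc s t, ∀ x, h r (rfl1 e b x) = -h r x) →
    (∀ r ∈ Ioc s t, ∀ x, z r x = P (r - s) (z s) x + ∫ q in s..r, P (r - q) (h q) x) →
    (∀ r ∈ Ioc s t, ∀ x, b < inner ℝ x e → 0 < z r x → h r x ≤ k * z r x) →
    (∀ r ∈ Ioc s t, ∀ x, b < inner ℝ x e → z r x ≤ 0 → h r x ≤ -(K * z r x)) →
    ∀ x, b < inner ℝ x e → z t x ≤ Real.exp (k * (t - s)) *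
      P (t - s) ({y | b < inner ℝ y e}.indicator (fun y => max (z s y) 0)) x

/-- [ODD] reflection inequality -/
def T_ODD : Prop :=
  ∀ (N : ℕ) (f : ℝ → ℝ) (K k a t : ℝ) (w : ℝ → E N → ℝ) (e : E N) (b : ℝ), Lip f K → a < t →
    (∀ p q, 0 ≤ p → p ≤ q → q ≤ 1 → f q - f p ≤ k * (q - p)) →
    Mild f a w → Rng a w → ‖e‖ = 1 → ∀ x, inner ℝ x e ≤ b →
    w t (rfl1 e b x) - w t x ≤
      Real.exp (k * (t - a)) * P (t - a) ({y | b < inner ℝ y e}.indicator (w a)) (rfl1 e b x)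

/-- [REG] uniform Lipschitz and Hölder bounds -/
def T_REG : Prop :=
  ∀ (N : ℕ) (K : ℝ), 0 < K → ∃ Λ : ℝ, 1 ≤ Λ ∧ ∀ (f : ℝ → ℝ) (a : ℝ) (w : ℝ → E N → ℝ),
    Lip f K → Mild f a w → Rng a w →
    (∀ t ≥ a + 1, ∀ x y, |w t x - w t y| ≤ Λ * ‖x - y‖) ∧
    (∀ s ≥ a + 1, ∀ t ≥ a + 1, ∀ x, |w t x - w s x| ≤ Λ * √|t - s|)

/-- [CPT] compactness -/
def T_CPT : Prop :=
  ∀ (N : ℕ) (f : ℝ → ℝ) (K : ℝ), Lip f K → ∀ (a : ℕ → ℝ) (w : ℕ → ℝ → E N → ℝ),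
    Tendsto a atTop atBot → (∀ n, Mild f (a n) (w n)) → (∀ n, Rng (a n) (w n)) →
    ∃ (σ : ℕ → ℕ) (v : ℝ → E N → ℝ), StrictMono σ ∧ Ent f v ∧ ∀ R > 0,
      TendstoUniformlyOn (fun n (p : ℝ × E N) => w (σ n) p.1 p.2) (fun p => v p.1 p.2) atTop
        (Icc (-R) R ×ˢ closedBall 0 R)

/-- [SMP] strong maximum principle -/
def T_SMP : Prop :=
  ∀ (N : ℕ) (f : ℝ → ℝ) (K : ℝ) (w1 w2 : ℝ → E N → ℝ), Lip f K → Ent f w1 → Ent f w2 →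
    (∀ t x, w1 t x ≤ w2 t x) → ∀ t0 x0, w1 t0 x0 = w2 t0 x0 → ∀ t ≤ t0, ∀ x, w1 t x = w2 t x

/-- [MP0] classical maximum principle -/
def T_MP0 : Prop :=
  ∀ (N : ℕ) (K t0 t1 B : ℝ) (z : ℝ → E N → ℝ), 0 ≤ K → t0 < t1 →
    ContinuousOn (fun p : ℝ × E N => z p.1 p.2) (Icc t0 t1 ×ˢ univ) →
    (∀ t ∈ Icc t0 t1, ∀ x, -B ≤ z t x) →
    (∀ t ∈ Ioc t0 t1, ∀ x, z t x < 0 → ContDiffAt ℝ 2 (z t) x ∧
      DifferentiableAt ℝ (fun s => z s x) t ∧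
      Laplacian.laplacian (z t) x + K * z t x ≤ deriv (fun s => z s x) t) →
    (∀ x, 0 ≤ z t0 x) → ∀ t ∈ Icc t0 t1, ∀ x, 0 ≤ z t x

/-- [RAD] Laplacian of a radial function -/
def T_RAD : Prop :=
  ∀ (N : ℕ) (a : ℝ) (x0 : E N) (S : ℝ → ℝ), 0 < a → ContDiff ℝ 2 S →
    ContDiff ℝ 2 (fun x : E N => S (√(a ^ 2 + ‖x - x0‖ ^ 2))) ∧
    ∀ x : E N, Laplacian.laplacian (fun x : E N => S (√(a ^ 2 + ‖x - x0‖ ^ 2))) x =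
      radL N a S (√(a ^ 2 + ‖x - x0‖ ^ 2))

/-! ### B. The front and the two barriers -/

/-- [FRP] estimates on the front profile -/
def T_FRP : Prop :=
  ∀ (f φ : ℝ → ℝ) (c lam K k μ η0 θ : ℝ), Hyp f c lam φ K k μ η0 θ → ∃ β C, FrP c lam β C φ

/-- [P1B] the sub-barrier (one variable `r`) -/
def T_P1B : Prop :=
  ∀ (N : ℕ) (f φ : ℝ → ℝ) (c lam K k μ η0 θ β C : ℝ), 1 ≤ N → Hyp f c lam φ K k μ η0 θ →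
    FrP c lam β C φ → ∀ δ > 0, ∃ (η R0 K3 s0 : ℝ) (S : ℝ → ℝ → ℝ),
      0 < η ∧ η ≤ δ ∧ 1 ≤ R0 ∧ 1 ≤ K3 ∧ 1 ≤ s0 ∧
      ContinuousOn (fun p : ℝ × ℝ => S p.1 p.2) (Ici 0 ×ˢ univ) ∧
      (∀ τ ≥ 0, ContDiff ℝ 2 (S τ)) ∧ (∀ τ ≥ 0, ∀ r, DifferentiableAt ℝ (fun s => S s r) τ) ∧
      (∀ τ ≥ 0, ∀ r, S τ r ≤ 1) ∧
      (∀ τ ≥ 0, ∀ r ≥ 1, 0 < S τ r → deriv (fun s => S s r) τ ≤ radL N 1 (S τ) r + f (S τ r)) ∧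
      (∀ r, S 0 r ≤ 1 - η) ∧ (∀ r ≥ R0, S 0 r ≤ 0) ∧
      (∀ s ≥ s0, ∀ r, r ≤ 1 + c * s - K3 * √s → 1 - η ≤ S s r)

/-- [P2B] the super-barrier (one variable `r`) -/
def T_P2B : Prop :=
  ∀ (N : ℕ) (f φ : ℝ → ℝ) (c lam K k μ η0 θ β C : ℝ), 1 ≤ N → Hyp f c lam φ K k μ η0 θ →
    FrP c lam β C φ → ∀ CT η', 1 ≤ CT → 0 < η' → ∃ a K5, 1 ≤ a ∧ 1 ≤ K5 ∧
      ∀ σ > 0, ∀ R, c * σ + K5 * (1 + √σ) ≤ R → ∃ S : ℝ → ℝ → ℝ,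
      ContinuousOn (fun p : ℝ × ℝ => S p.1 p.2) (Icc 0 σ ×ˢ univ) ∧
      (∀ τ ∈ Icc 0 σ, ContDiff ℝ 2 (S τ)) ∧
      (∀ τ ∈ Icc 0 σ, ∀ r, DifferentiableAt ℝ (fun s => S s r) τ) ∧
      (∀ τ ∈ Icc 0 σ, ∀ r, 0 ≤ S τ r) ∧
      (∀ τ ∈ Icc 0 σ, ∀ r ≥ a, S τ r < 1 →
        radL N a (S τ) r + f (S τ r) ≤ deriv (fun s => S s r) τ) ∧
      (∀ r, min 1 (CT * Real.exp (-(c / 2 * (R - r)))) ≤ S 0 r) ∧ S σ a ≤ η'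

/-- [P1] expansion of ignited balls (for supersolutions) -/
def T_P1 : Prop :=
  ∀ (N : ℕ) (f φ : ℝ → ℝ) (c lam K k μ η0 θ : ℝ), 1 ≤ N → Hyp f c lam φ K k μ η0 θ →
    ∀ δ > 0, ∃ η R0 K3 s0 : ℝ, 0 < η ∧ η ≤ δ ∧ 1 ≤ R0 ∧ 1 ≤ K3 ∧ 1 ≤ s0 ∧
      ∀ u : ℝ → E N → ℝ, Super f u → ∀ t0 > 0, ∀ x0,
        (∀ y ∈ closedBall x0 R0, 1 - η ≤ u t0 y) →
        ∀ s ≥ s0, ∀ y, dist x0 y ≤ c * s - K3 * √s → 1 - η ≤ u (t0 + s) y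

/-- [P2] a solution which is exponentially small in a ball stays small at the centre -/
def T_P2 : Prop :=
  ∀ (N : ℕ) (f φ : ℝ → ℝ) (c lam K k μ η0 θ : ℝ), 1 ≤ N → Hyp f c lam φ K k μ η0 θ →
    ∀ CT η', 1 ≤ CT → 0 < η' → ∃ K5, 1 ≤ K5 ∧ ∀ (U : Set (E N)) (u : ℝ → E N → ℝ), SolM f U u →
      ∀ t0 > 0, ∀ x0, ∀ σ > 0, ∀ R, c * σ + K5 * (1 + √σ) ≤ R →
        (∀ y, u t0 y ≤ CT * Real.exp (-(c / 2 * (R - dist y x0)))) → u (t0 + σ) x0 ≤ η'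

/-! ### C. Ignition, cone monotonicity, exponential tail -/

/-- [IGN] the core is ignited -/
def T_IGN : Prop :=
  ∀ (N : ℕ) (f : ℝ → ℝ) (K ρ : ℝ) (U : Set (E N)) (u : ℝ → E N → ℝ), Lip f K → 0 < ρ →
    Invades N f ρ → hausdorffEDist U (core U ρ) ≠ ⊤ → SolM f U u →
    (∃ D, 0 ≤ D ∧ ∀ y ∈ U, ∃ p ∈ core U ρ, dist y p ≤ D) ∧
    ∀ η > 0, ∀ R0 > 0, ∃ t1 > 0, ∀ t ≥ t1, core U ρ ⊆ ign u η R0 t

/-- [GEO2] distance of the part of `U` beyond a hyperplane -/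
def T_GEO2 : Prop :=
  ∀ (N : ℕ) (e e' v : E N) (d L ε s0 : ℝ), ‖e‖ = 1 → ‖e'‖ = 1 → 0 ≤ L → 0 ≤ s0 → s0 ≤ 1 →
    √(1 - s0 ^ 2) ≤ inner ℝ e e' → -L ≤ inner ℝ v e' → inner ℝ v e ≤ ε * (‖v‖ + d) - d →
    (1 - ε) * d - L ≤ (s0 + ε) * ‖v‖

/-- [CONE] asymptotic monotonicity in a cone -/
def T_CONE : Prop :=
  ∀ (N : ℕ) (f : ℝ → ℝ) (K m : ℝ) (U : Set (E N)) (u : ℝ → E N → ℝ), Lip f K → 0 < m →
    (∀ p q, 0 ≤ p → p ≤ q → q ≤ 1 → f q - f p ≤ m * (q - p)) →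
    CondC U → SolM f U u →
    ∀ b s0 L δ : ℝ, 0 < b → 0 < s0 → s0 < 1 → 4 * m * s0 ^ 2 < b ^ 2 → 0 < L → 0 < δ →
      ∃ T > 0, ∀ t ≥ T, ∀ x ξ e : E N, Dir U x ξ e → b * t ≤ infDist x U →
        ∀ x' h, ‖x' - x‖ ≤ L → ‖h‖ ≤ L → √(1 - s0 ^ 2) * ‖h‖ ≤ inner ℝ h e →
          u t (x' + h) ≤ u t x' + δ

/-- [ODEI] a large ball above the threshold ignites -/
def T_ODEI : Prop :=
  ∀ (N : ℕ) (f : ℝ → ℝ) (K θ' η R : ℝ), Lip f K → 0 < θ' → θ' < 1 →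
    (∀ s, θ' ≤ s → s < 1 → 0 < f s) → 0 < η → η < 1 → 0 < R → ∃ L S : ℝ, 0 < L ∧ 0 < S ∧
      ∀ (a : ℝ) (w : ℝ → E N → ℝ), Mild f a w → Rng a w → ∀ t > a, ∀ x0,
        (∀ y ∈ closedBall x0 L, θ' ≤ w t y) → ∀ y ∈ closedBall x0 R, 1 - η ≤ w (t + S) y

/-- [NP] far from the ignited set the solution is below the threshold -/
def T_NP : Prop :=
  ∀ (N : ℕ) (f φ : ℝ → ℝ) (c lam K k μ η0 θ : ℝ) (U : Set (E N)) (u : ℝ → E N → ℝ), 1 ≤ N →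
    Hyp f c lam φ K k μ η0 θ → U.Nonempty → CondC U → SolM f U u →
    ∀ η R0 C t3, 0 < η → η < 1 → 0 < R0 → 1 ≤ C → 0 < t3 → Expd c C t3 (ign u η R0) →
      (∀ y ∈ U, ∃ p ∈ ign u η R0 t3, dist y p ≤ C) →
      ∃ L0 S T, 0 < L0 ∧ 0 < S ∧ t3 ≤ T ∧
        ∀ t ≥ T, ∀ y, L0 ≤ infDist y (ign u η R0 (t + S)) → u t y ≤ θ

/-- [TB] exponential decay away from the ignited set -/
def T_TB : Prop :=
  ∀ (N : ℕ) (f φ : ℝ → ℝ) (c lam K k μ η0 θ : ℝ) (U : Set (E N)) (u : ℝ → E N → ℝ), 1 ≤ N →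
    Hyp f c lam φ K k μ η0 θ → U.Nonempty → SolM f U u →
    ∀ η R0 C t3 L0 S T, 0 < η → η < 1 → 0 < R0 → 1 ≤ C → 0 < t3 → Expd c C t3 (ign u η R0) →
      (∀ y ∈ U, ∃ p ∈ ign u η R0 t3, dist y p ≤ C) → 0 < L0 → 0 < S → t3 ≤ T →
      (∀ t ≥ T, ∀ y, L0 ≤ infDist y (ign u η R0 (t + S)) → u t y ≤ θ) →
      ∃ CT T', 1 ≤ CT ∧ T ≤ T' ∧ Tl c CT T' (ign u η R0) u

/-- [FACTS] all geometric facts -/
def T_FACTS : Prop :=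
  ∀ (N : ℕ) (f φ : ℝ → ℝ) (c lam K k μ η0 θ ρ : ℝ) (U : Set (E N)) (u : ℝ → E N → ℝ), 1 ≤ N →
    Hyp f c lam φ K k μ η0 θ → 0 < ρ → Invades N f ρ → hausdorffEDist U (core U ρ) ≠ ⊤ →
    CondC U → U.Nonempty → SolM f U u → ∀ δ > 0, ∃ η R0 C t3, 0 < η ∧ η ≤ δ ∧ 0 < R0 ∧
      Geo c C t3 U (ign u η R0) ∧ Tl c C t3 (ign u η R0) u

/-! ### D. Geometry -/

/-- [E0] existence of a nearest point -/
def T_E0 : Prop :=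
  ∀ (N : ℕ) (U : Set (E N)) (x : E N), 0 < infDist x U → ∃ ξ e, Dir U x ξ e

/-- [E1] almost nearest points are close to nearest points -/
def T_E1 : Prop :=
  ∀ (N : ℕ) (U : Set (E N)), CondC U → ∀ κ > 0, ∃ δ > 0, ∃ R > 0, ∀ x ξ e : E N, Dir U x ξ e →
    R ≤ infDist x U → ∀ y ∈ closure U, dist x y ≤ (1 + δ) * infDist x U →
      ‖y - ξ‖ ≤ κ * infDist x U

/-- [E2] directions at nearby points -/
def T_E2 : Prop :=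
  ∀ (N : ℕ) (U : Set (E N)), CondC U → ∀ κ > 0, ∃ δ > 0, ∃ R > 0, ∀ x ξ e x' ξ' e' : E N,
    Dir U x ξ e → Dir U x' ξ' e' → R ≤ infDist x U → dist x x' ≤ δ * infDist x U → ‖e - e'‖ ≤ κ

/-- [DIR] almost equality in the triangle inequality -/
def T_DIR : Prop :=
  ∀ (N : ℕ) (a b : E N) (ω : ℝ), 0 ≤ ω → a ≠ 0 → a + b ≠ 0 → ω ≤ ‖a + b‖ →
    ‖a‖ + ‖b‖ ≤ ‖a + b‖ + ω → ‖‖a‖⁻¹ • a - ‖a + b‖⁻¹ • (a + b)‖ ^ 2 ≤ 3 * ω / ‖a‖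

/-- [ANG] directions of the ancestors -/
def T_ANG : Prop :=
  ∀ (N : ℕ) (c C t3 : ℝ) (U : Set (E N)) (I : ℝ → Set (E N)), CondC U → Geo c C t3 U I →
    ∃ Ca > 0, ∀ κ > 0, ∃ T1 > 0, ∀ t ≥ T1, ∀ x ∉ I t, ∀ ξ e, Dir U x ξ e →
      ∀ s, Ca ≤ s → s ≤ t - t3 → ∀ z ∈ I (t - s), dist z x ≤ c * s + 5 * C * √s →
        ‖‖x - z‖⁻¹ • (x - z) - e‖ ≤ Ca * s ^ (-(1 / 4) : ℝ) + κ

/-- [FL] everything behind an interface point is ignited -/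
def T_FL : Prop :=
  ∀ (N : ℕ) (c C t3 : ℝ) (U : Set (E N)) (I : ℝ → Set (E N)), CondC U → Geo c C t3 U I →
    ∀ L ≥ 0, ∀ ε > 0, ∃ Cε > 0, ∃ δ > 0, ∃ T2 > 0, ∀ t ≥ T2, ∀ x ∉ I t, infDist x (I t) ≤ L →
      ∀ ξ e, Dir U x ξ e → ∀ y, inner ℝ y e ≤ -(ε * ‖y‖ + Cε) → ‖y‖ ≤ δ * t → x + y ∈ I t

/-- [EX] exit point -/
def T_EX : Prop :=
  ∀ (N : ℕ) (c C t3 : ℝ) (U : Set (E N)) (I : ℝ → Set (E N)), CondC U → Geo c C t3 U I →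
    ∀ κ > 0, ∃ δ > 0, ∃ T2 > 0, ∀ t ≥ T2, ∀ x ∈ I t, (c - δ) * t ≤ infDist x U →
      ∀ ξ e, Dir U x ξ e → ∃ r, 0 ≤ r ∧ r ≤ κ * t ∧ x + r • e ∉ I t ∧
        infDist (x + r • e) (I t) ≤ 1

/-- [BH] everything behind a point close to the ignited set is ignited -/
def T_BH : Prop :=
  ∀ (N : ℕ) (c C t3 : ℝ) (U : Set (E N)) (I : ℝ → Set (E N)), CondC U → Geo c C t3 U I →
    ∀ L ≥ 0, ∀ ε > 0, ∃ Cε > 0, ∃ δ > 0, ∃ T2 > 0, ∀ t ≥ T2, ∀ x, infDist x (I t) ≤ L →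
      (c - δ) * t ≤ infDist x U → ∀ ξ e, Dir U x ξ e →
      ∀ y, inner ℝ y e ≤ -(ε * ‖y‖ + Cε) → ‖y‖ ≤ δ * t → x + y ∈ I t

/-- [FR] everything ahead of a non-ignited point is far from the ignited set -/
def T_FR : Prop :=
  ∀ (N : ℕ) (c C t3 : ℝ) (U : Set (E N)) (I : ℝ → Set (E N)), CondC U → Geo c C t3 U I →
    ∀ L ≥ 0, ∀ ε > 0, ∃ Cε > 0, ∃ δ > 0, ∃ T2 > 0, ∀ t ≥ T2, ∀ x ∉ I t,
      ∀ ξ e, Dir U x ξ e → ∀ y, ε * ‖y‖ + Cε ≤ inner ℝ y e → ‖y‖ ≤ δ * t →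
        L < infDist (x + y) (I t)

/-- [TW] distance to the ignited set at earlier times -/
def T_TW : Prop :=
  ∀ (N : ℕ) (c C t3 : ℝ) (U : Set (E N)) (I : ℝ → Set (E N)), CondC U → Geo c C t3 U I →
    ∀ L ≥ 0, ∀ ε > 0, ∃ C1 > 0, ∃ T0 > 0, ∀ T ≥ T0, ∀ B > 0, ∃ T3 > 0, ∀ t ≥ T3, ∀ x q,
      q ∉ I t → dist q x ≤ L → ∀ ξ e, Dir U q ξ e → ∀ y, ‖y‖ ≤ B →
        inner ℝ y e + c * T - ε * (‖y‖ + T) - C1 ≤ infDist (x + y) (I (t - T))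

/-- [OUTU] a non-ignited point is far from `U` -/
def T_OUTU : Prop :=
  ∀ (N : ℕ) (c C t3 : ℝ) (U : Set (E N)) (I : ℝ → Set (E N)), Geo c C t3 U I →
    ∀ δ > 0, ∃ T2 > 0, ∀ t ≥ T2, ∀ x ∉ I t, (c - δ) * t ≤ infDist x U

/-! ### E. Limits and the sliding method -/

/-- [EXT] extraction of limits -/
def T_EXT : Prop :=
  ∀ (N : ℕ) (f : ℝ → ℝ) (K : ℝ) (U : Set (E N)) (u : ℝ → E N → ℝ), Lip f K → SolM f U u →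
    ∀ (tn : ℕ → ℝ) (xn : ℕ → E N), Tendsto tn atTop atTop →
      ∃ (σ : ℕ → ℕ) (w : ℝ → E N → ℝ), StrictMono σ ∧ Ent f w ∧ LimAt u (tn ∘ σ) (xn ∘ σ) w

/-- [ONE] an entire solution which is close to one is one -/
def T_ONE : Prop :=
  ∀ (N : ℕ) (f : ℝ → ℝ) (K μ η0 : ℝ) (w : ℝ → E N → ℝ), Lip f K → 0 < μ → 0 < η0 →
    (∀ a b, 1 - η0 ≤ a → a ≤ b → b ≤ 1 → f b - f a ≤ -(μ * (b - a))) → Ent f w →
    ∀ tz, (∀ t ≤ tz, ∀ x, 1 - η0 ≤ w t x) → ∀ t x, w t x = 1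

/-- [ZERO] limits far ahead of the interface vanish -/
def T_ZERO : Prop :=
  ∀ (N : ℕ) (f : ℝ → ℝ) (K c C t3 : ℝ) (U : Set (E N)) (I : ℝ → Set (E N)) (u w : ℝ → E N → ℝ)
    (tn : ℕ → ℝ) (xn : ℕ → E N), Lip f K → Geo c C t3 U I → Tl c C t3 I u →
    Tendsto tn atTop atTop → Ent f w → LimAt u tn xn w →
    Tendsto (fun n => infDist (xn n) (I (tn n))) atTop atTop → ∀ t x, w t x = 0

/-- [INT] points well inside -/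
def T_INT : Prop :=
  ∀ (N : ℕ) (c C t3 : ℝ) (U : Set (E N)) (I : ℝ → Set (E N)) (tn : ℕ → ℝ) (xn : ℕ → E N),
    Geo c C t3 U I → Tendsto tn atTop atTop → ∀ κ > 0,
    (∀ᶠ n in atTop, infDist (xn n) U ≤ (c - κ) * tn n) →
    ∀ t x, ∀ᶠ n in atTop, xn n + x ∈ I (tn n + t)

/-- [DEEP] points deep inside the ignited set -/
def T_DEEP : Prop :=
  ∀ (N : ℕ) (c C t3 : ℝ) (U : Set (E N)) (I : ℝ → Set (E N)) (tn : ℕ → ℝ) (xn : ℕ → E N),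
    CondC U → Geo c C t3 U I → Tendsto tn atTop atTop →
    (∀ κ > 0, ∀ᶠ n in atTop, (c - κ) * tn n ≤ infDist (xn n) U) →
    (∀ R > 0, ∀ᶠ n in atTop, closedBall (xn n) R ⊆ I (tn n)) →
    ∀ t x, ∀ᶠ n in atTop, xn n + x ∈ I (tn n + t)

/-- [IF1] flatness at the interface -/
def T_IF1 : Prop :=
  ∀ (N : ℕ) (c C t3 η η1 L R0 : ℝ) (U : Set (E N)) (u w : ℝ → E N → ℝ)
    (tn : ℕ → ℝ) (xn qn ξn en : ℕ → E N) (e : E N), CondC U → Geo c C t3 U (ign u η R0) →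
    Tl c C t3 (ign u η R0) u → 0 < R0 → 0 < η1 → η ≤ η1 → Tendsto tn atTop atTop →
    LimAt u tn xn w →
    (∀ n, Dir U (qn n) (ξn n) (en n)) → Tendsto en atTop (𝓝 e) →
    (∀ n, qn n ∉ ign u η R0 (tn n)) → (∀ n, dist (qn n) (xn n) ≤ L) →
    Flat e η1 w

/-- [IF2] exponential tail at the interface -/
def T_IF2 : Prop :=
  ∀ (N : ℕ) (c C t3 L : ℝ) (U : Set (E N)) (I : ℝ → Set (E N)) (u w : ℝ → E N → ℝ)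
    (tn : ℕ → ℝ) (xn qn ξn en : ℕ → E N) (e : E N), CondC U → Geo c C t3 U I →
    Tl c C t3 I u → Tendsto tn atTop atTop → LimAt u tn xn w →
    (∀ n, Dir U (qn n) (ξn n) (en n)) → Tendsto en atTop (𝓝 e) →
    (∀ n, qn n ∉ I (tn n)) → (∀ n, dist (qn n) (xn n) ≤ L) → TailW e c w

/-- [LA] comparison with exponentially small data -/
def T_LA : Prop :=
  ∀ (N : ℕ) (f : ℝ → ℝ) (K k c : ℝ) (w : ℝ → E N → ℝ) (e h : E N), Lip f K → 0 ≤ k → 0 < c →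
    4 * k < c ^ 2 → Ent f w → ‖e‖ = 1 → TailW e c w →
    (∀ t x, w t (x + h) < w t x → f (w t x) - f (w t (x + h)) ≤ k * (w t x - w t (x + h))) →
    ∀ t x, w t x ≤ w t (x + h)

/-- [L] the sliding method -/
def T_L : Prop :=
  ∀ (N : ℕ) (f φ : ℝ → ℝ) (c lam K k μ η0 θ : ℝ) (w : ℝ → E N → ℝ) (e : E N),
    Hyp f c lam φ K k μ η0 θ → Ent f w → ‖e‖ = 1 → Flat e (η0 / 4) w → TailW e c w → Mono w e

/-- the conclusion of the analysis of limits: every sequence has a subsequence with a limit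
which is nonincreasing in a half-space of directions -/
def LimC {N : ℕ} (f : ℝ → ℝ) (u : ℝ → E N → ℝ) : Prop :=
  ∀ (tn : ℕ → ℝ) (xn : ℕ → E N), Tendsto tn atTop atTop →
    ∃ (σ : ℕ → ℕ) (w : ℝ → E N → ℝ) (e : E N), StrictMono σ ∧ Ent f w ∧ ‖e‖ = 1 ∧
      LimAt u (tn ∘ σ) (xn ∘ σ) w ∧ Mono w e

/-- [LIM] limits are monotone -/
def T_LIM : Prop :=
  ∀ (N : ℕ) (f φ : ℝ → ℝ) (c lam K k μ η0 θ ρ : ℝ) (U : Set (E N)) (u : ℝ → E N → ℝ), 1 ≤ N →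
    Hyp f c lam φ K k μ η0 θ → 0 < ρ → Invades N f ρ → hausdorffEDist U (core U ρ) ≠ ⊤ →
    CondC U → U.Nonempty → SolM f U u → LimC f u

/-- [C2] entire mild solutions are `C²` in space -/
def T_C2 : Prop :=
  ∀ (N : ℕ) (f : ℝ → ℝ) (K : ℝ) (w : ℝ → E N → ℝ) (e : E N), Lip f K → Ent f w → ‖e‖ = 1 →
    ContDiff ℝ 2 (fun z : ℝ => w 0 (z • e))

/-- [ST] constant or strictly decreasing -/
def T_ST : Prop :=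
  ∀ (N : ℕ) (f : ℝ → ℝ) (K : ℝ) (w : ℝ → E N → ℝ) (e : E N), Lip f K → Ent f w → ‖e‖ = 1 →
    Mono w e → (∀ t x, w t x = w t ((inner ℝ x e : ℝ) • e)) ∧
      ((∃ a, ∀ z : ℝ, w 0 (z • e) = a) ∨ StrictAnti (fun z : ℝ => w 0 (z • e)))

/-- [FIN] from limits to the conclusion -/
def T_FIN : Prop :=
  ∀ (N : ℕ) (f : ℝ → ℝ), 1 ≤ N → Reaction f →
    (∀ ρ > 0, Invades N f ρ → ∀ (U : Set (E N)) (u : ℝ → E N → ℝ), U.Nonempty →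
      hausdorffEDist U (core U ρ) ≠ ⊤ → CondC U → SolM f U u → LimC f u) → Conclusion N f

/-! ### F. The classes of nonlinearities; existence of fronts -/

/-- [HYPF] the constants in `Hyp` -/
def T_HYPF : Prop :=
  ∀ (f φ : ℝ → ℝ) (c lam : ℝ), Reaction f → derivWithin f (Icc 0 1) 1 < 0 →
    derivWithin f (Icc 0 1) 0 < c ^ 2 / 4 → Front f c lam φ →
    ∃ lam' K k μ η0 θ, Hyp f c lam' φ K k μ η0 θ

/-- [BS1] existence for the phase plane equation -/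
def T_BS1 : Prop :=
  ∀ (f : ℝ → ℝ) (K c : ℝ), Lip f K → 0 ≤ c → ∃ y, IsY f c y

/-- [BS2] comparison and continuity in `c` for the phase plane equation -/
def T_BS2 : Prop :=
  ∀ (f : ℝ → ℝ) (K : ℝ), Lip f K → ∀ (c1 c2 : ℝ) (y1 y2 : ℝ → ℝ), 0 ≤ c1 → c1 ≤ c2 →
    IsY f c1 y1 → IsY f c2 y2 → ∀ τ ∈ Icc (0 : ℝ) 1,
      y2 τ ≤ y1 τ ∧ y1 τ - y2 τ ≤ (c2 - c1) * √(2 * K)

/-- [BS3] shooting -/
def T_BS3 : Prop :=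
  ∀ (f : ℝ → ℝ) (K θ : ℝ), Lip f K → 0 < θ → θ < 1 → (∀ s ∈ Icc 0 θ, f s ≤ 0) →
    (∀ s ∈ Ioo θ 1, 0 < f s) → 0 < ∫ s in (0 : ℝ)..1, f s →
    ∃ c y, 0 < c ∧ IsY f c y ∧ y 1 = 0 ∧ (∀ τ ∈ Ioo (0 : ℝ) 1, 0 < y τ) ∧
      ∀ τ ∈ Icc (1 - θ) 1, c * (1 - τ) ≤ √(2 * y τ)

/-- [BS4] the profile -/
def T_BS4 : Prop :=
  ∀ (f : ℝ → ℝ) (K c : ℝ) (y : ℝ → ℝ), Lip f K → 0 < c → IsY f c y → y 1 = 0 →
    (∀ τ ∈ Ioo (0 : ℝ) 1, 0 < y τ) →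
    ∃ φ : ℝ → ℝ, ContDiff ℝ 2 φ ∧ (∀ z, 0 < φ z ∧ φ z < 1) ∧
      (∀ z, deriv φ z = -√(2 * y (1 - φ z))) ∧
      (∀ z, deriv (deriv φ) z + c * deriv φ z + f (φ z) = 0) ∧
      Tendsto φ atBot (𝓝 1) ∧ Tendsto φ atTop (𝓝 0)

/-- [BS5] existence of the front -/
def T_BS5 : Prop :=
  ∀ (f : ℝ → ℝ) (K θ : ℝ), Lip f K → 0 < θ → θ < 1 → (∀ s ∈ Icc 0 θ, f s ≤ 0) →
    (∀ s ∈ Ioo θ 1, 0 < f s) → 0 < ∫ s in (0 : ℝ)..1, f s →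
    ∃ c φ, Front f c (3 / 4 * c) φ

/-! ### G. The class `f > 0`, `f' ≤ f'(0)` -/

/-- [KBOX] moving compactly supported subsolution -/
def T_KBOX : Prop :=
  ∀ (N : ℕ) (f : ℝ → ℝ) (K m b : ℝ), Lip f K → (∀ s ∈ Ioo (0 : ℝ) 1, 0 < f s) → 0 < m →
    (∀ ε > 0, ∃ s1 > 0, ∀ s ∈ Icc 0 s1, (m - ε) * s ≤ f s) → 0 < b → b ^ 2 < 4 * m →
    ∃ R > 0, ∀ δ > 0, ∃ δ' > 0, ∀ (U : Set (E N)) (u : ℝ → E N → ℝ), SolM f U u → ∀ t0 > 0, ∀ x0,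
      (∀ y ∈ closedBall x0 R, δ ≤ u t0 y) →
      ∀ s ≥ 0, ∀ y, dist x0 y ≤ b * s → δ' ≤ u (t0 + s) y

/-- [SPR] spreading at every speed `b < 2√m` -/
def T_SPR : Prop :=
  ∀ (N : ℕ) (f : ℝ → ℝ) (K m b ρ : ℝ) (U : Set (E N)) (u : ℝ → E N → ℝ), Lip f K →
    (∀ s ∈ Ioo (0 : ℝ) 1, 0 < f s) → 0 < m →
    (∀ ε > 0, ∃ s1 > 0, ∀ s ∈ Icc 0 s1, (m - ε) * s ≤ f s) → 0 < b → b ^ 2 < 4 * m →
    0 < ρ → U.Nonempty → hausdorffEDist U (core U ρ) ≠ ⊤ → SolM f U u →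
    ∀ η > 0, ∃ T > 0, ∀ t ≥ T, ∀ x, infDist x U ≤ b * t → 1 - η ≤ u t x

/-- [LIMB] limits are monotone, class B -/
def T_LIMB : Prop :=
  ∀ (N : ℕ) (f : ℝ → ℝ) (K m ρ : ℝ) (U : Set (E N)) (u : ℝ → E N → ℝ), 1 ≤ N → Lip f K →
    (∀ s ∈ Ioo (0 : ℝ) 1, 0 < f s) → 0 < m →
    (∀ ε > 0, ∃ s1 > 0, ∀ s ∈ Icc 0 s1, (m - ε) * s ≤ f s) →
    (∀ p q, 0 ≤ p → p ≤ q → q ≤ 1 → f q - f p ≤ m * (q - p)) →
    0 < ρ → hausdorffEDist U (core U ρ) ≠ ⊤ → CondC U → U.Nonempty → SolM f U u → LimC f u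

/-- [CLB] the constants of class B -/
def T_CLB : Prop :=
  ∀ f : ℝ → ℝ, Reaction f → (∀ s ∈ Ioo (0 : ℝ) 1, 0 < f s) →
    (∀ s ∈ Icc (0 : ℝ) 1, derivWithin f (Icc 0 1) s ≤ derivWithin f (Icc 0 1) 0) →
    (∀ ε > 0, ∃ s1 > 0, ∀ s ∈ Icc 0 s1, (derivWithin f (Icc 0 1) 0 - ε) * s ≤ f s) ∧
    (∀ p q, 0 ≤ p → p ≤ q → q ≤ 1 → f q - f p ≤ derivWithin f (Icc 0 1) 0 * (q - p))

end Pool.Agent.H91.RD
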